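import Pool.Agent.PC70.Basic

set_option autoImplicit false

/-!
Path covers of cubic cages, part B: orientation of the 2-factor, and girth.
-/

namespace PC70

/-! ### Choosing one of each pair of reverse orbits -/

/-- If `ρ σ ρ σ = 1`, `ρ² = 1`, `ρ d ≠ d` and `σ d ≠ ρ d`, then there is a `σ`-invariant set which
contains exactly one of `d`, `ρ d` for every `d`. -/
theorem exists_half {D : Type*} [Finite D] (σ : Equiv.Perm D) (ρ : D → D)
    (hρ : ∀ d, ρ (ρ d) = d) (hσ : ∀ d, ρ (σ (ρ (σ d))) = d) (h1 : ∀ d, ρ d ≠ d)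
    (h2 : ∀ d, σ d ≠ ρ d) :
    ∃ O : D → Prop, (∀ d, O (σ d) ↔ O d) ∧ (∀ d, O (ρ d) ↔ ¬ O d) := by
  classical
  -- `ρ` conjugates `σ` to its inverse
  have hinv : ∀ d, ρ (σ d) = σ.symm (ρ d) := by
    intro d
    rw [Equiv.eq_symm_apply, ← hρ (σ (ρ (σ d))), hσ]
  have hpow : ∀ (j : ℕ) (d : D), ρ ((σ ^ j) d) = (σ.symm ^ j) (ρ d) := by
    intro j
    induction j with
    | zero => intro d; rfl
    | succ j ih =>
      intro d
      rw [pow_succ, pow_succ, Equiv.Perm.mul_apply, Equiv.Perm.mul_apply, ih, hinv]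
  have hcanc : ∀ (j : ℕ) (d : D), (σ ^ j) ((σ.symm ^ j) d) = d := by
    intro j d
    have : σ.symm = σ⁻¹ := rfl
    rw [this, inv_pow, ← Equiv.Perm.mul_apply, mul_inv_cancel, Equiv.Perm.one_apply]
  -- no orbit contains `d` and `ρ d`
  have hne : ∀ (k : ℕ) (d : D), (σ ^ k) d ≠ ρ d := by
    intro k d hk
    rcases Nat.even_or_odd' k with ⟨j, rfl | rfl⟩
    · have h3 : ρ ((σ ^ j) d) = (σ ^ j) d := by
        rw [hpow, ← hk, two_mul, pow_add, Equiv.Perm.mul_apply]
        have : σ.symm = σ⁻¹ := rfl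
        rw [this, inv_pow, ← Equiv.Perm.mul_apply, inv_mul_cancel, Equiv.Perm.one_apply]
      exact h1 _ h3
    · have h3 : ρ ((σ ^ j) d) = σ ((σ ^ j) d) := by
        rw [hpow, ← hk, two_mul, add_assoc, pow_add, Equiv.Perm.mul_apply]
        have : σ.symm = σ⁻¹ := rfl
        rw [this, inv_pow, ← Equiv.Perm.mul_apply, inv_mul_cancel, Equiv.Perm.one_apply,
          pow_succ', Equiv.Perm.mul_apply]
      exact h2 _ h3.symm
  have hsc : ∀ d, ¬ σ.SameCycle d (ρ d) := by
    intro d h
    obtain ⟨k, hk⟩ := h.exists_nat_pow_eq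
    exact hne k d hk
  let S : Setoid D := Equiv.Perm.SameCycle.setoid σ
  obtain ⟨c, hc⟩ := exists_injective_nat (Quotient S)
  have hcσ : ∀ d, (⟦σ d⟧ : Quotient S) = ⟦d⟧ := by
    intro d
    apply Quotient.sound
    show σ.SameCycle (σ d) d
    exact (Equiv.Perm.SameCycle.refl σ d).apply_left
  have hcρ : ∀ d, (⟦ρ (σ d)⟧ : Quotient S) = ⟦ρ d⟧ := by
    intro d
    have := hcσ (ρ (σ d))
    rw [← this, hinv, Equiv.apply_symm_apply]
  refine ⟨fun d => c ⟦d⟧ < c ⟦ρ d⟧, ?_, ?_⟩
  · intro d
    show c ⟦σ d⟧ < c ⟦ρ (σ d)⟧ ↔ c ⟦d⟧ < c ⟦ρ d⟧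
    rw [hcσ, hcρ]
  · intro d
    show c ⟦ρ d⟧ < c ⟦ρ (ρ d)⟧ ↔ ¬ c ⟦d⟧ < c ⟦ρ d⟧
    rw [hρ]
    have hne' : c ⟦d⟧ ≠ c ⟦ρ d⟧ := by
      intro h
      exact hsc d (Quotient.exact (hc h))
    omega

/-- HAND B1: orient the 2-factor `G - M`. -/
theorem exists_perms {V : Type*} [Fintype V] [DecidableEq V] (G : SimpleGraph V)
    [DecidableRel G.Adj] (hreg : G.IsRegularOfDegree 3)
    (hM : ∃ M : G.Subgraph, M.IsPerfectMatching) :
    ∃ τ m : Equiv.Perm V, (∀ x, m (m x) = x) ∧ (∀ x, G.Adj x (m x)) ∧ (∀ x, G.Adj x (τ x)) ∧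
      (∀ x, τ x ≠ m x) ∧ (∀ x, τ.symm x ≠ m x) ∧ (∀ x, τ x ≠ τ.symm x) := by
  obtain ⟨M, hM⟩ := hM
  rw [SimpleGraph.Subgraph.isPerfectMatching_iff] at hM
  choose mf hmf hmu using hM
  have hmm : ∀ x, mf (mf x) = x := fun x => (hmu (mf x) x (hmf x).symm).symm
  let m : Equiv.Perm V := ⟨mf, mf, hmm, hmm⟩
  have hmadj : ∀ x, G.Adj x (mf x) := fun x => (hmf x).adj_sub
  -- the other neighbour
  have hoth : ∀ x y, G.Adj x y → y ≠ mf x →
      ∃ z, G.Adj y z ∧ z ≠ mf y ∧ z ≠ x ∧ ∀ w, G.Adj y w → w ≠ mf y → w ≠ x → w = z := by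
    intro x y hxy hy
    have hx : x ≠ mf y := by
      intro h
      apply hy
      rw [h, hmm]
    have hcard : (((G.neighborFinset y).erase (mf y)).erase x).card = 1 := by
      rw [Finset.card_erase_of_mem, Finset.card_erase_of_mem]
      · have := hreg y
        rw [SimpleGraph.card_neighborFinset_eq_degree, this]
      · rw [SimpleGraph.mem_neighborFinset]; exact hmadj y
      · rw [Finset.mem_erase, SimpleGraph.mem_neighborFinset]; exact ⟨hx, hxy.symm⟩
    obtain ⟨z, hz⟩ := Finset.card_eq_one.1 hcard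
    have hz' : z ∈ ((G.neighborFinset y).erase (mf y)).erase x := by rw [hz]; simp
    rw [Finset.mem_erase, Finset.mem_erase, SimpleGraph.mem_neighborFinset] at hz'
    refine ⟨z, hz'.2.2, hz'.2.1, hz'.1, ?_⟩
    intro w hw1 hw2 hw3
    have : w ∈ ((G.neighborFinset y).erase (mf y)).erase x := by
      rw [Finset.mem_erase, Finset.mem_erase, SimpleGraph.mem_neighborFinset]
      exact ⟨hw3, hw2, hw1⟩
    rw [hz, Finset.mem_singleton] at this
    exact this
  choose! oth hoth1 hoth2 hoth3 hoth4 using hoth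
  -- darts
  let D := {d : V × V // G.Adj d.1 d.2 ∧ d.2 ≠ mf d.1}
  let ρ : D → D := fun d => ⟨(d.1.2, d.1.1), d.2.1.symm, by
    intro h
    apply d.2.2
    change d.1.1 = mf d.1.2 at h
    rw [h, hmm]⟩
  let sf : D → D := fun d => ⟨(d.1.2, oth d.1.1 d.1.2), hoth1 _ _ d.2.1 d.2.2,
    hoth2 _ _ d.2.1 d.2.2⟩
  have hρ : ∀ d, ρ (ρ d) = d := fun d => rfl
  have hsf : ∀ d, ρ (sf (ρ (sf d))) = d := by
    intro d
    apply Subtype.ext
    apply Prod.ext
    · show oth (oth d.1.1 d.1.2) d.1.2 = d.1.1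
      symm
      apply hoth4
      · exact (hoth1 _ _ d.2.1 d.2.2).symm
      · intro h
        have h' := congrArg mf h
        rw [hmm] at h'
        exact hoth2 _ _ d.2.1 d.2.2 h'.symm
      · exact d.2.1.symm
      · intro h
        apply d.2.2
        rw [h, hmm]
      · exact (hoth3 _ _ d.2.1 d.2.2).symm
    · rfl
  have hinj : Function.Injective sf := by
    intro d d' h
    rw [← hsf d, ← hsf d', h]
  let σ : Equiv.Perm D := Equiv.ofBijective sf (Finite.injective_iff_bijective.1 hinj)
  have hσ : ∀ d, σ d = sf d := fun d => rfl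
  obtain ⟨O, hO1, hO2⟩ := exists_half σ ρ hρ (fun d => by rw [hσ, hσ]; exact hsf d)
    (fun d h => by
      have : d.1.2 = d.1.1 := congrArg (fun e : D => e.1.1) h
      exact d.2.1.ne this.symm)
    (fun d h => by
      have : oth d.1.1 d.1.2 = d.1.1 := congrArg (fun e : D => e.1.2) h
      exact hoth3 _ _ d.2.1 d.2.2 this)
  -- predicate on pairs
  let P : V → V → Prop := fun x y => ∃ h : G.Adj x y ∧ y ≠ mf x, O ⟨(x, y), h⟩
  have hPadj : ∀ x y, P x y → G.Adj x y ∧ y ≠ mf x := fun x y h => h.1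
  have hPrev : ∀ x y, G.Adj x y → y ≠ mf x → (P y x ↔ ¬ P x y) := by
    intro x y h1 h2
    have h2' : x ≠ mf y := by
      intro h
      apply h2
      rw [h, hmm]
    have := hO2 ⟨(x, y), h1, h2⟩
    constructor
    · rintro ⟨_, h3⟩ ⟨_, h4⟩
      exact (this.1 h3) h4
    · intro h3
      refine ⟨⟨h1.symm, h2'⟩, this.2 fun h4 => h3 ⟨⟨h1, h2⟩, h4⟩⟩
  have hPσ : ∀ x y, G.Adj x y → y ≠ mf x → (P y (oth x y) ↔ P x y) := by
    intro x y h1 h2
    have := hO1 ⟨(x, y), h1, h2⟩
    constructor
    · rintro ⟨_, h3⟩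
      exact ⟨⟨h1, h2⟩, this.1 h3⟩
    · rintro ⟨_, h3⟩
      exact ⟨⟨hoth1 _ _ h1 h2, hoth2 _ _ h1 h2⟩, this.2 h3⟩
  -- existence of an outgoing dart
  have hex : ∀ x, ∃ y, P x y := by
    intro x
    have hcard : ((G.neighborFinset x).erase (mf x)).card = 2 := by
      rw [Finset.card_erase_of_mem]
      · have := hreg x
        rw [SimpleGraph.card_neighborFinset_eq_degree, this]
      · rw [SimpleGraph.mem_neighborFinset]; exact hmadj x
    obtain ⟨y, hy⟩ : ((G.neighborFinset x).erase (mf x)).Nonempty := by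
      rw [← Finset.card_pos, hcard]; norm_num
    rw [Finset.mem_erase, SimpleGraph.mem_neighborFinset] at hy
    by_cases h : P x y
    · exact ⟨y, h⟩
    · have hy' : x ≠ mf y := by
        intro h
        apply hy.1
        rw [h, hmm]
      have h3 : P y x := (hPrev x y hy.2 hy.1).2 h
      exact ⟨oth y x, (hPσ y x hy.2.symm hy').2 h3⟩
  choose tf htf using hex
  have huniq : ∀ x y, P x y → ∀ z, P x z → z = y := by
    intro x y h z h'
    by_contra hne
    obtain ⟨h1, h2⟩ := hPadj x y h
    obtain ⟨h3, h4⟩ := hPadj x z h'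
    have h5 : x ≠ mf y := by
      intro h
      apply h2
      rw [h, hmm]
    have h6 : z = oth y x := hoth4 y x h1.symm h5 z h3 h4 hne
    rw [h6] at h'
    have h7 : P y x := (hPσ y x h1.symm h5).1 h'
    exact (hPrev x y h1 h2).1 h7 h
  have htinj : Function.Injective tf := by
    intro x x' h
    by_contra hne
    have h1 := htf x
    have h2 := htf x'
    rw [← h] at h2
    set y := tf x with hy
    obtain ⟨h3, h4⟩ := hPadj _ _ h1
    obtain ⟨h5, h6⟩ := hPadj _ _ h2
    have h7 : x' ≠ mf y := by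
      intro h
      apply h6
      rw [h, hmm]
    have h8 : x' = oth x y := hoth4 x y h3 h4 x' h5.symm h7 (Ne.symm hne)
    have h9 : P y x' := by
      rw [h8]
      exact (hPσ x y h3 h4).2 h1
    exact (hPrev x' y h5 h6).1 h9 h2
  let τ : Equiv.Perm V := Equiv.ofBijective tf (Finite.injective_iff_bijective.1 htinj)
  have hτ : ∀ x, P x (τ x) := htf
  have hτs : ∀ x, P (τ.symm x) x := by
    intro x
    have := hτ (τ.symm x)
    rwa [Equiv.apply_symm_apply] at this
  refine ⟨τ, m, hmm, hmadj, fun x => (hPadj _ _ (hτ x)).1, fun x => (hPadj _ _ (hτ x)).2, ?_, ?_⟩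
  · intro x h
    have h1 := (hPadj _ _ (hτs x)).2
    apply h1
    rw [h]
    exact (hmm x).symm
  · intro x h
    have h1 := hτ x
    have h2 := hτs x
    rw [← h] at h2
    obtain ⟨h3, h4⟩ := hPadj _ _ h1
    exact (hPrev _ _ h3 h4).1 h2 h1

/-- HAND B2: non-backtracking walks shorter than the girth do not close. -/
theorem lf_of_girth {V : Type*} [Fintype V] [DecidableEq V] (G : SimpleGraph V)
    (τ m : Equiv.Perm V) (hmm : ∀ x, m (m x) = x) (hm : ∀ x, G.Adj x (m x))
    (ht : ∀ x, G.Adj x (τ x)) (h1 : ∀ x, τ x ≠ m x) (h2 : ∀ x, τ.symm x ≠ m x)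
    (h3 : ∀ x, τ x ≠ τ.symm x) (g : ℕ) (hg : (g : ℕ∞) ≤ G.egirth) : LF τ m g := by
  have hadj : ∀ (a : Letter) (x : V), G.Adj x (act τ m a x) := by
    intro a x
    cases a with
    | t => exact ht x
    | ti =>
      have := ht (τ.symm x)
      rw [Equiv.apply_symm_apply] at this
      exact this.symm
    | m => exact hm x
  have hinv : ∀ (a : Letter) (x : V), act τ m a.inv (act τ m a x) = x := by
    intro a x
    cases a with
    | t => exact τ.symm_apply_apply x
    | ti => exact τ.apply_symm_apply x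
    | m => exact hmm x
  have hne : ∀ (a b : Letter) (x : V), a ≠ b → act τ m a x ≠ act τ m b x := by
    intro a b x hab
    cases a <;> cases b <;> simp only [ne_eq, reduceCtorEq, not_false_eq_true, not_true_eq_false]
      at hab <;> simp only [act]
    · exact h3 x
    · exact h1 x
    · exact (h3 x).symm
    · exact h2 x
    · exact (h1 x).symm
    · exact (h2 x).symm
  -- the walk of a word
  have hwalk : ∀ (w : List Letter) (x y : V), run τ m w x = y → ∃ p : G.Walk x y,
      p.length = w.length ∧ (Reduced w → p.edges.IsChain (· ≠ ·)) ∧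
      (∀ a l, w = a :: l → ∃ es, p.edges = s(x, act τ m a x) :: es) := by
    intro w
    induction w with
    | nil =>
      intro x y hy
      have hxy : x = y := hy
      subst hxy
      refine ⟨SimpleGraph.Walk.nil, rfl, ?_, ?_⟩
      · intro _; simp
      · intro a l h; cases h
    | cons a w ih =>
      intro x y hy
      obtain ⟨p, hp1, hp2, hp3⟩ := ih (act τ m a x) y hy
      refine ⟨SimpleGraph.Walk.cons (hadj a x) p, ?_, ?_, ?_⟩
      · rw [SimpleGraph.Walk.length_cons, hp1, List.length_cons]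
      · intro hred
        rw [SimpleGraph.Walk.edges_cons]
        have hred' : Reduced w := by
          unfold Reduced at hred ⊢
          exact (List.isChain_cons.1 hred).2
        rw [List.isChain_cons]
        refine ⟨?_, hp2 hred'⟩
        intro e he
        cases w with
        | nil =>
          have : p.edges = [] := by
            apply List.eq_nil_of_length_eq_zero
            rw [SimpleGraph.Walk.length_edges, hp1]; rfl
          rw [this] at he
          cases he
        | cons b w =>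
          obtain ⟨es, hes⟩ := hp3 b w rfl
          rw [hes] at he
          have he' : e = s(act τ m a x, act τ m b (act τ m a x)) := by
            simpa [eq_comm] using he
          rw [he']
          have hba : b ≠ a.inv := by
            unfold Reduced at hred
            exact (List.isChain_cons_cons.1 hred).1
          have hx : act τ m b (act τ m a x) ≠ x := by
            have := hne b a.inv (act τ m a x) hba
            rwa [hinv] at this
          intro heq
          rw [Sym2.eq_swap, Sym2.eq_iff] at heq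
          rcases heq with ⟨_, h⟩ | ⟨_, h⟩
          · exact hx h.symm
          · exact (hadj a x).ne h
      · intro b l h
        obtain ⟨rfl, rfl⟩ := List.cons.inj h
        exact ⟨p.edges, SimpleGraph.Walk.edges_cons _ _⟩
  intro w hw0 hwg hred x hfix
  obtain ⟨p, hp1, hp2, -⟩ := hwalk w x x hfix
  have hch := hp2 hred
  -- the graph of the edges of `p`
  let K : SimpleGraph V := SimpleGraph.fromEdgeSet {e | e ∈ p.edges}
  have hKG : K ≤ G := by
    intro u v huv
    rw [SimpleGraph.fromEdgeSet_adj] at huv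
    exact p.adj_of_mem_edges huv.1
  have hKac : K.IsAcyclic := by
    intro v c hc
    have hc' : (c.mapLe hKG).IsCycle := (SimpleGraph.Walk.isCycle_mapLe hKG).2 hc
    have hlen : (g : ℕ∞) ≤ (c.mapLe hKG).length := hg.trans (SimpleGraph.egirth_le_length hc')
    rw [SimpleGraph.Walk.length_map] at hlen
    have hlen' : g ≤ c.length := by exact_mod_cast hlen
    have hsub : c.edges.toFinset ⊆ p.edges.toFinset := by
      intro e he
      rw [List.mem_toFinset] at he ⊢
      have := c.edges_subset_edgeSet he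
      rw [SimpleGraph.edgeSet_fromEdgeSet] at this
      exact this.1
    have hcard : c.length ≤ p.length := by
      have h4 : c.edges.toFinset.card = c.length := by
        rw [List.toFinset_card_of_nodup hc.edges_nodup, SimpleGraph.Walk.length_edges]
      have h5 : p.edges.toFinset.card ≤ p.length := by
        rw [← SimpleGraph.Walk.length_edges]
        exact List.toFinset_card_le _
      rw [← h4]
      exact (Finset.card_le_card hsub).trans h5
    omega
  have hpK : ∀ e ∈ p.edges, e ∈ K.edgeSet := by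
    intro e he
    rw [SimpleGraph.edgeSet_fromEdgeSet]
    refine ⟨he, ?_⟩
    intro hd
    exact G.not_isDiag_of_mem_edgeSet (p.edges_subset_edgeSet he) hd
  have hpath : (p.transfer K hpK).IsPath := by
    rw [hKac.isPath_iff_isChain, SimpleGraph.Walk.edges_transfer]
    exact hch
  have hlen : (p.transfer K hpK).length = w.length := by
    rw [SimpleGraph.Walk.length_transfer, hp1]
  have hnil := SimpleGraph.Walk.isPath_iff_nil.1 hpath
  have h0 := SimpleGraph.Walk.length_eq_zero_iff.2 hnil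
  rw [h0] at hlen
  exact hw0 (List.eq_nil_of_length_eq_zero hlen.symm)

end PC70
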