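import Pool.Agent.PC70.HandC3

/-!
MP_f325cf_co: a cubic graph of minimum order for its girth has a perfect matching.
-/

set_option autoImplicit false

namespace PC70

open SimpleGraph Finset

variable {V : Type*} {G : SimpleGraph V}

theorem Pend.isBridge {A : Finset V} {x y : V} (h : Pend G A x y) : G.IsBridge s(x, y) := by
  rw [isBridge_iff]
  rintro ⟨w⟩
  have key : ∀ (u v : V) (w : (G.deleteEdges {s(x, y)}).Walk u v), u ∈ A → v ∈ A := by
    intro u v w
    induction w with
    | nil => exact id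
    | cons hadj w ih =>
      intro hu
      apply ih
      by_contra hcon
      rw [deleteEdges_adj] at hadj
      have h1 := h.only _ _ hu hcon hadj.1
      exact hadj.2 (by rw [h1.1, h1.2]; rfl)
  exact h.hy (key x y w h.hx)

theorem Pend.side_walk {A : Finset V} {x y : V} (h : Pend G A x y) {u v : V} (w : G.Walk u v)
    (hw : s(x, y) ∉ w.edges) : ∀ b ∈ w.support, (b ∈ A ↔ u ∈ A) := by
  induction w with
  | nil => intro b hb; rw [Walk.support_nil, List.mem_singleton] at hb; rw [hb]
  | @cons u u' v hadj w ih =>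
    intro b hb
    rw [Walk.edges_cons, List.mem_cons, not_or] at hw
    rw [Walk.support_cons, List.mem_cons] at hb
    rcases hb with hb | hb
    · rw [hb]
    · rw [ih hw.2 b hb]
      constructor
      · intro h1
        by_contra h2
        have h3 := h.only _ _ h1 h2 hadj.symm
        exact hw.1 (by rw [h3.1, h3.2, Sym2.eq_swap])
      · intro h1
        by_contra h2
        have h3 := h.only _ _ h1 h2 hadj
        exact hw.1 (by rw [h3.1, h3.2])

theorem Pend.side {A : Finset V} {x y : V} (h : Pend G A x y) {a : V} {Z : G.Walk a a}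
    (hZ : Z.IsCycle) : ∀ b ∈ Z.support, (b ∈ A ↔ a ∈ A) :=
  h.side_walk Z (h.isBridge.notMem_edges_of_isCycle hZ)

/-- The vertex set of a component of `G - u`. -/
noncomputable def blk [Fintype V] (G : SimpleGraph V) (u : Set V)
    (c : ((⊤ : G.Subgraph).deleteVerts u).coe.ConnectedComponent) : Finset V := by
  classical
  exact univ.filter fun v => ∃ h : v ∈ ((⊤ : G.Subgraph).deleteVerts u).verts,
    ((⊤ : G.Subgraph).deleteVerts u).coe.connectedComponentMk ⟨v, h⟩ = c

theorem mem_blk [Fintype V] {u : Set V}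
    {c : ((⊤ : G.Subgraph).deleteVerts u).coe.ConnectedComponent} {v : V} :
    v ∈ blk G u c ↔ ∃ h : v ∈ ((⊤ : G.Subgraph).deleteVerts u).verts,
    ((⊤ : G.Subgraph).deleteVerts u).coe.connectedComponentMk ⟨v, h⟩ = c := by
  classical
  simp [blk]

theorem blk_not_mem [Fintype V] {u : Set V}
    {c : ((⊤ : G.Subgraph).deleteVerts u).coe.ConnectedComponent} {v : V} (h : v ∈ blk G u c) :
    v ∉ u := by
  obtain ⟨h1, -⟩ := mem_blk.1 h
  simpa using h1

theorem blk_disj [Fintype V] {u : Set V}
    {c c' : ((⊤ : G.Subgraph).deleteVerts u).coe.ConnectedComponent} {v : V}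
    (h : v ∈ blk G u c) (h' : v ∈ blk G u c') : c = c' := by
  obtain ⟨h1, h2⟩ := mem_blk.1 h
  obtain ⟨h3, h4⟩ := mem_blk.1 h'
  rw [← h2, ← h4]

theorem blk_adj [Fintype V] {u : Set V}
    {c : ((⊤ : G.Subgraph).deleteVerts u).coe.ConnectedComponent} {v w : V}
    (h : v ∈ blk G u c) (hvw : G.Adj v w) (hw : w ∉ blk G u c) : w ∈ u := by
  by_contra hcon
  obtain ⟨h1, h2⟩ := mem_blk.1 h
  have h3 : w ∈ ((⊤ : G.Subgraph).deleteVerts u).verts := by simpa using hcon
  apply hw
  refine mem_blk.2 ⟨h3, ?_⟩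
  rw [← h2]
  refine ConnectedComponent.sound (SimpleGraph.Adj.reachable ?_).symm
  show ((⊤ : G.Subgraph).deleteVerts u).coe.Adj ⟨v, h1⟩ ⟨w, h3⟩
  rw [Subgraph.coe_adj, Subgraph.deleteVerts_adj]
  exact ⟨h1.1, h1.2, h3.1, h3.2, hvw⟩

theorem card_blk [Fintype V] {u : Set V}
    (c : ((⊤ : G.Subgraph).deleteVerts u).coe.ConnectedComponent) :
    (blk G u c).card = c.supp.ncard := by
  classical
  have h1 : ((blk G u c : Finset V) : Set V) = Subtype.val '' c.supp := by
    ext v
    rw [mem_coe, mem_blk, Set.mem_image]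
    constructor
    · rintro ⟨h, h'⟩
      exact ⟨⟨v, h⟩, h', rfl⟩
    · rintro ⟨⟨w, hw⟩, h', rfl⟩
      exact ⟨hw, h'⟩
  rw [← Set.ncard_coe_finset, h1, Set.ncard_image_of_injective _ Subtype.val_injective]

/-- The edges leaving a block. -/
noncomputable def outE [Fintype V] (G : SimpleGraph V) (B U : Finset V) : Finset (V × V) := by
  classical
  exact (B ×ˢ U).filter fun e => G.Adj e.1 e.2

theorem mem_outE [Fintype V] {B U : Finset V} {e : V × V} :
    e ∈ outE G B U ↔ (e.1 ∈ B ∧ e.2 ∈ U) ∧ G.Adj e.1 e.2 := by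
  classical
  simp [outE]

theorem card_outE [Fintype V] [DecidableEq V] [DecidableRel G.Adj] (B U : Finset V) :
    (outE G B U).card = ∑ v ∈ B, (U.filter fun w => G.Adj v w).card := by
  classical
  have h1 : outE G B U = (B.sigma (fun v => U.filter fun w => G.Adj v w)).map
      (Equiv.sigmaEquivProd V V).toEmbedding := by
    ext ⟨v, w⟩
    rw [mem_outE, mem_map_equiv, mem_sigma]
    show (v ∈ B ∧ w ∈ U) ∧ G.Adj v w ↔ v ∈ B ∧ w ∈ U.filter fun w => G.Adj v w
    rw [mem_filter, and_assoc]
  rw [h1, card_map, card_sigma]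

/-- The number of edges leaving an odd block of a cubic graph is odd. -/
theorem odd_outE [Fintype V] [DecidableEq V] [DecidableRel G.Adj] (hreg : G.IsRegularOfDegree 3)
    {B U : Finset V} (hB : Odd B.card) (hBU : ∀ v, v ∈ B → v ∉ U)
    (hout : ∀ v w, v ∈ B → G.Adj v w → w ∉ B → w ∈ U) : Odd (outE G B U).card := by
  classical
  let F : SimpleGraph V :=
    { Adj := fun v w => G.Adj v w ∧ v ∈ B ∧ w ∈ B
      symm := ⟨fun v w h => ⟨h.1.symm, h.2.2, h.2.1⟩⟩
      loopless := ⟨fun v h => G.loopless.irrefl v h.1⟩ }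
  have hF : ∀ v w, F.Adj v w ↔ G.Adj v w ∧ v ∈ B ∧ w ∈ B := fun v w => Iff.rfl
  have h1 : ∑ v, F.degree v = 2 * F.edgeFinset.card := F.sum_degrees_eq_twice_card_edges
  have h2 : ∑ v, F.degree v = ∑ v ∈ B, F.degree v := by
    symm
    refine sum_subset (subset_univ _) fun v _ hv => ?_
    rw [← card_neighborFinset_eq_degree, card_eq_zero]
    ext w
    rw [mem_neighborFinset, hF]
    constructor
    · exact fun h => absurd h.2.1 hv
    · exact fun h => absurd h (notMem_empty w)
  have h3 : ∀ v ∈ B, F.degree v + (U.filter fun w => G.Adj v w).card = 3 := by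
    intro v hv
    rw [← hreg v, ← card_neighborFinset_eq_degree, ← card_neighborFinset_eq_degree,
      ← card_union_of_disjoint]
    · congr 1
      ext w
      rw [mem_union, mem_neighborFinset, mem_filter, mem_neighborFinset, hF]
      constructor
      · rintro (h | h)
        · exact h.1
        · exact h.2
      · intro h
        by_cases hw : w ∈ B
        · exact Or.inl ⟨h, hv, hw⟩
        · exact Or.inr ⟨hout v w hv h hw, h⟩
    · rw [Finset.disjoint_left]
      intro w hw hw'
      rw [mem_neighborFinset, hF] at hw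
      exact hBU w hw.2.2 (mem_filter.1 hw').1
  have h4 : ∑ v ∈ B, F.degree v + (outE G B U).card = 3 * B.card := by
    rw [card_outE, ← sum_add_distrib, sum_congr rfl h3, sum_const, smul_eq_mul, mul_comm]
  rw [← h2, h1] at h4
  have h5 : Odd (3 * B.card) := (by decide : Odd 3).mul hB
  rw [← h4] at h5
  rw [Nat.odd_add] at h5
  by_contra hcon
  rw [Nat.not_odd_iff_even] at hcon
  exact (Nat.not_odd_iff_even.2 (even_two_mul _)) (h5.2 hcon)

/-- Three pendant blocks in a cubic graph without perfect matching. -/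
theorem three_pend [Fintype V] [DecidableEq V] [DecidableRel G.Adj]
    (hreg : G.IsRegularOfDegree 3) (hno : ¬ ∃ M : G.Subgraph, M.IsPerfectMatching) :
    ∃ (U : Finset V) (A : Fin 3 → Finset V) (x y : Fin 3 → V), (∀ i, Pend G (A i) (x i) (y i)) ∧
      (∀ i, y i ∈ U) ∧ (∀ i v, v ∈ A i → v ∉ U) ∧
      (∀ i j v, i ≠ j → v ∈ A i → v ∉ A j) := by
  classical
  rw [tutte] at hno
  push Not at hno
  obtain ⟨u, hu⟩ := hno
  unfold IsTutteViolator at hu
  obtain ⟨D, hD⟩ : ∃ D, D = ((⊤ : G.Subgraph).deleteVerts u).coe := ⟨_, rfl⟩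
  have : Fintype ((⊤ : G.Subgraph).deleteVerts u).coe.ConnectedComponent := Fintype.ofFinite _
  set U : Finset V := u.toFinset with hU
  have hUu : ∀ v, v ∈ U ↔ v ∈ u := fun v => by rw [hU, Set.mem_toFinset]
  have hUcard : u.ncard = U.card := by rw [hU, Set.ncard_eq_toFinset_card']
  set O : Finset ((⊤ : G.Subgraph).deleteVerts u).coe.ConnectedComponent :=
    univ.filter fun c => Odd (blk G u c).card with hO
  have hOcard : ((⊤ : G.Subgraph).deleteVerts u).coe.oddComponents.ncard = O.card := by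
    rw [← Set.ncard_coe_finset]
    congr 1
    ext c
    rw [hO, coe_filter]
    simp only [mem_univ, true_and, card_blk, oddComponents]
  rw [hOcard, hUcard] at hu
  -- parity
  have hVeven : Even (Fintype.card V) := by
    have h1 := G.sum_degrees_eq_twice_card_edges
    rw [sum_congr rfl (fun v _ => hreg v), sum_const, smul_eq_mul, card_univ] at h1
    have h2 : Even (Fintype.card V * 3) := by rw [h1]; exact even_two_mul _
    rcases Nat.even_mul.1 h2 with h3 | h3
    · exact h3
    · exact absurd h3 (by decide)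
  have hpar : Odd O.card ↔ Odd U.card := by
    rw [← hOcard, odd_ncard_oddComponents]
    have h1 : Nat.card ((⊤ : G.Subgraph).deleteVerts u).verts = Fintype.card V - U.card := by
      have h2 : ((⊤ : G.Subgraph).deleteVerts u).verts = ((Uᶜ : Finset V) : Set V) := by
        ext v
        simp [hUu]
      rw [h2, Nat.card_coe_set_eq, Set.ncard_coe_finset, card_compl]
    rw [h1]
    have h3 : U.card ≤ Fintype.card V := card_le_univ U
    rw [Nat.odd_sub h3]
    constructor
    · intro h
      by_contra hcon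
      rw [Nat.not_odd_iff_even] at hcon
      exact (Nat.not_odd_iff_even.2 hVeven) (h.2 hcon)
    · intro h
      exact ⟨fun h' => absurd hVeven (Nat.not_even_iff_odd.2 h'),
        fun h' => absurd h (Nat.not_odd_iff_even.2 h')⟩
  have hO2 : U.card + 2 ≤ O.card := by
    have h1 : O.card ≠ U.card + 1 := by
      intro h
      rw [h] at hpar
      rcases Nat.even_or_odd U.card with h2 | h2
      · exact (Nat.not_odd_iff_even.2 h2) (hpar.1 h2.add_one)
      · exact (Nat.not_odd_iff_even.2 h2.add_one) (hpar.2 h2)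
    omega
  -- total number of edges leaving the blocks
  have hsum : ∑ c ∈ O, (outE G (blk G u c) U).card ≤ 3 * U.card := by
    rw [← card_biUnion]
    · have h1 : O.biUnion (fun c => outE G (blk G u c) U) ⊆ outE G univ U := by
        intro e he
        obtain ⟨c, -, hc⟩ := mem_biUnion.1 he
        rw [mem_outE] at hc ⊢
        exact ⟨⟨mem_univ _, hc.1.2⟩, hc.2⟩
      refine le_trans (card_le_card h1) ?_
      rw [card_outE]
      have h2 : ∀ v : V, (U.filter fun w => G.Adj v w).card = ∑ w ∈ U, if G.Adj v w then 1 else 0 :=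
        fun v => by rw [card_filter]
      rw [sum_congr rfl fun v _ => h2 v, sum_comm]
      have h3 : ∀ w ∈ U, ∑ v : V, (if G.Adj v w then 1 else 0) = 3 := by
        intro w _
        rw [← card_filter, ← hreg w, ← card_neighborFinset_eq_degree]
        congr 1
        ext v
        rw [mem_filter, mem_neighborFinset, G.adj_comm]
        exact ⟨fun h => h.2, fun h => ⟨mem_univ _, h⟩⟩
      rw [sum_congr rfl h3, sum_const, smul_eq_mul, mul_comm]
    · intro c _ c' _ hcc'
      rw [Function.onFun, Finset.disjoint_left]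
      intro e he he'
      rw [mem_outE] at he he'
      exact hcc' (blk_disj he.1.1 he'.1.1)
  have hodd : ∀ c ∈ O, Odd (outE G (blk G u c) U).card := by
    intro c hc
    refine odd_outE hreg (mem_filter.1 hc).2 (fun v hv hv' => blk_not_mem hv ((hUu v).1 hv'))
      fun v w hv hvw hw => (hUu w).2 (blk_adj hv hvw hw)
  -- at least three blocks with one leaving edge
  have hthree : 2 < (O.filter fun c => (outE G (blk G u c) U).card = 1).card := by
    have h1 : ∑ c ∈ O, (if (outE G (blk G u c) U).card = 1 then 1 else 3)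
        ≤ ∑ c ∈ O, (outE G (blk G u c) U).card := by
      refine sum_le_sum fun c hc => ?_
      obtain ⟨k, hk⟩ := hodd c hc
      split_ifs with h
      · omega
      · omega
    rw [sum_ite, sum_const, sum_const, smul_eq_mul, smul_eq_mul] at h1
    have h2 := card_filter_add_card_filter_not (s := O)
      (fun c => (outE G (blk G u c) U).card = 1)
    omega
  obtain ⟨c₀, hc₀, c₁, hc₁, c₂, hc₂, h01, h02, h12⟩ := two_lt_card.1 hthree
  have hpend : ∀ c ∈ O.filter (fun c => (outE G (blk G u c) U).card = 1),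
      ∃ x y, Pend G (blk G u c) x y ∧ y ∈ U := by
    intro c hc
    obtain ⟨e, he⟩ := card_eq_one.1 (mem_filter.1 hc).2
    have h1 : e ∈ outE G (blk G u c) U := by rw [he]; exact mem_singleton_self e
    rw [mem_outE] at h1
    refine ⟨e.1, e.2, ⟨h1.1.1, fun h => blk_not_mem h ((hUu _).1 h1.1.2), h1.2, ?_⟩, h1.1.2⟩
    intro v w hv hw hvw
    have h2 : (v, w) ∈ outE G (blk G u c) U :=
      mem_outE.2 ⟨⟨hv, (hUu w).2 (blk_adj hv hvw hw)⟩, hvw⟩
    rw [he, mem_singleton] at h2
    rw [← h2]
    exact ⟨rfl, rfl⟩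
  obtain ⟨x₀, y₀, p₀, q₀⟩ := hpend c₀ hc₀
  obtain ⟨x₁, y₁, p₁, q₁⟩ := hpend c₁ hc₁
  obtain ⟨x₂, y₂, p₂, q₂⟩ := hpend c₂ hc₂
  refine ⟨U, ![blk G u c₀, blk G u c₁, blk G u c₂], ![x₀, x₁, x₂], ![y₀, y₁, y₂], ?_, ?_, ?_, ?_⟩
  · intro i; fin_cases i
    · exact p₀
    · exact p₁
    · exact p₂
  · intro i; fin_cases i
    · exact q₀
    · exact q₁
    · exact q₂
  · intro i v hv hv'
    rw [hUu] at hv'
    fin_cases i
    · exact blk_not_mem hv hv'
    · exact blk_not_mem hv hv'
    · exact blk_not_mem hv hv'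
  · intro i j v hij hi hj
    fin_cases i <;> fin_cases j
    · exact hij rfl
    · exact h01 (blk_disj hi hj)
    · exact h02 (blk_disj hi hj)
    · exact h01 (blk_disj hj hi)
    · exact hij rfl
    · exact h12 (blk_disj hi hj)
    · exact h02 (blk_disj hj hi)
    · exact h12 (blk_disj hj hi)
    · exact hij rfl

/-- The surgery for two pendant blocks avoided by a shortest cycle. -/
theorem exists_smaller_of_two [Fintype V] [DecidableEq V] [DecidableRel G.Adj]
    (hreg : G.IsRegularOfDegree 3) {A₁ A₂ : Finset V} {x₁ y₁ x₂ y₂ : V}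
    (P₁ : Pend G A₁ x₁ y₁) (P₂ : Pend G A₂ x₂ y₂) (hd : ∀ v, v ∈ A₁ → v ∉ A₂)
    (h12 : y₁ ∉ A₂) (h21 : y₂ ∉ A₁) {a : V} {Z : G.Walk a a}
    (hZ : Z.IsCycle) (hZl : G.egirth = Z.length) (ha₁ : a ∉ A₁) (ha₂ : a ∉ A₂) :
    ∃ n < Fintype.card V, ∃ (H : SimpleGraph (Fin n)) (_ : DecidableRel H.Adj),
      H.IsRegularOfDegree 3 ∧ H.girth = G.girth := by
  classical
  -- the other two neighbours of `x₁`
  have h1 : ((G.neighborFinset x₁).erase y₁).card = 2 := by
    rw [card_erase_of_mem (by rw [mem_neighborFinset]; exact P₁.adj),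
      card_neighborFinset_eq_degree, hreg x₁]
  obtain ⟨p, q, hpq, hpq'⟩ := card_eq_two.1 h1
  have hp : p ≠ y₁ ∧ G.Adj x₁ p := by
    have : p ∈ (G.neighborFinset x₁).erase y₁ := by rw [hpq']; exact mem_insert_self _ _
    rw [mem_erase, mem_neighborFinset] at this
    exact this
  have hq : q ≠ y₁ ∧ G.Adj x₁ q := by
    have : q ∈ (G.neighborFinset x₁).erase y₁ := by
      rw [hpq']; exact mem_insert_of_mem (mem_singleton_self _)
    rw [mem_erase, mem_neighborFinset] at this
    exact this
  have hpA : p ∈ A₁ := by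
    by_contra hcon
    exact hp.1 (P₁.only x₁ p P₁.hx hcon hp.2).2
  have hqA : q ∈ A₁ := by
    by_contra hcon
    exact hq.1 (P₁.only x₁ q P₁.hx hcon hq.2).2
  have hS : Surg G A₁ A₂ x₁ y₁ x₂ y₂ p q :=
    { P₁ := P₁, P₂ := P₂, disj := hd, y₁A₂ := h12, y₂A₁ := h21, pA := hpA, qA := hqA,
      xp := hp.2, xq := hq.2, pq := hpq,
      nb := fun v hv => by
        by_cases h : v = y₁
        · exact Or.inl h
        · right
          have : v ∈ (G.neighborFinset x₁).erase y₁ := by
            rw [mem_erase, mem_neighborFinset]; exact ⟨h, hv⟩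
          rw [hpq', mem_insert, mem_singleton] at this
          exact this }
  refine hS.exists_smaller hreg hZ hZl fun v hv => ⟨fun h => ha₁ ?_, fun h => ha₂ ?_⟩
  · exact (P₁.side hZ v hv).1 h
  · exact (P₂.side hZ v hv).1 h

/-- HAND C: a cubic cage has a perfect matching. -/
theorem cage_matching {V : Type} [Fintype V] [DecidableEq V] [Nonempty V] (G : SimpleGraph V)
    [DecidableRel G.Adj] (hreg : G.IsRegularOfDegree 3)
    (hmin : ∀ (n : ℕ) (H : SimpleGraph (Fin n)) [DecidableRel H.Adj],
      H.IsRegularOfDegree 3 → H.girth = G.girth → Fintype.card V ≤ n) :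
    ∃ M : G.Subgraph, M.IsPerfectMatching := by
  classical
  by_contra hno
  obtain ⟨U, A, x, y, hP, hy, hAU, hdisj⟩ := three_pend hreg hno
  -- a shortest cycle
  have hna : ¬ G.IsAcyclic := by
    refine not_isAcyclic_of_no_leaf G (hP 0).adj fun v => ?_
    rw [hreg v]
    decide
  obtain ⟨a, Z, hZ, hZl⟩ := exists_egirth_eq_length.2 hna
  have key : ∀ i j, i ≠ j → a ∉ A i → a ∉ A j → False := by
    intro i j hij hi hj
    obtain ⟨n, hn, H, hdec, hH, hg⟩ := exists_smaller_of_two hreg (hP i) (hP j)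
      (fun v hv => hdisj i j v hij hv) (fun h => hAU j _ h (hy i)) (fun h => hAU i _ h (hy j))
      hZ hZl hi hj
    exact absurd (hmin n H hH hg) (not_le.2 hn)
  by_cases h0 : a ∈ A 0
  · exact key 1 2 (by decide) (hdisj 0 1 a (by decide) h0) (hdisj 0 2 a (by decide) h0)
  · by_cases h1 : a ∈ A 1
    · exact key 0 2 (by decide) h0 (hdisj 1 2 a (by decide) h1)
    · exact key 0 1 (by decide) h0 h1

end PC70
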