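import Pool.Agent.PC70.Bip
import Pool.Agent.PC70.HandB

set_option autoImplicit false

namespace PC70

/-- `G` has a spanning linear forest (acyclic, all degrees at most two) with at most `x`
components, that is, its vertex set can be partitioned into at most `x` paths of `G`. -/
def HasPathCover {V : Type*} (G : SimpleGraph V) (x : ℝ) : Prop :=
  ∃ F : SimpleGraph V, F ≤ G ∧ F.IsAcyclic ∧ (∀ v, (F.neighborSet v).ncard ≤ 2) ∧
    (Nat.card F.ConnectedComponent : ℝ) ≤ x

theorem pathCover_of_matching {V : Type*} [Fintype V] [DecidableEq V] (G : SimpleGraph V)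
    [DecidableRel G.Adj] (hreg : G.IsRegularOfDegree 3)
    (hM : ∃ M : G.Subgraph, M.IsPerfectMatching) (g : ℕ) (hg : 3 ≤ g)
    (hgirth : (g : ℕ∞) ≤ G.egirth) :
    HasPathCover G (1400 * (Real.log g) ^ 2 / (g : ℝ) ^ 2 * Fintype.card V) ∧
      (G.IsBipartite → HasPathCover G (6000 * Real.log g / (g : ℝ) ^ 2 * Fintype.card V)) := by
  obtain ⟨τ, m, hmm, hm, ht, h1, h2, h3⟩ := exists_perms G hreg hM
  have hLF := lf_of_girth G τ m hmm hm ht h1 h2 h3 g hgirth
  refine ⟨core G τ m hmm hm ht g hg hLF, ?_⟩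
  rintro ⟨c⟩
  refine core2 G τ m hmm hm ht (fun v => decide (c v = 0)) ?_ g hg hLF
  intro x y hxy
  have hne := c.valid hxy
  have hx := (c x).2
  have hy := (c y).2
  intro h
  apply hne
  have : (c x = 0) ↔ (c y = 0) := by simpa using h
  by_cases h0 : c x = 0
  · rw [h0, this.1 h0]
  · have h0' : c y ≠ 0 := fun h => h0 (this.2 h)
    omega

theorem not_isAcyclic {V : Type*} [Fintype V] [DecidableEq V] [Nonempty V] (G : SimpleGraph V)
    [DecidableRel G.Adj] (hreg : G.IsRegularOfDegree 3)
    (hM : ∃ M : G.Subgraph, M.IsPerfectMatching) : ¬ G.IsAcyclic := by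
  intro hac
  obtain ⟨τ, m, hmm, hm, ht, h1, h2, h3⟩ := exists_perms G hreg hM
  have hLF := lf_of_girth G τ m hmm hm ht h1 h2 h3 (orderOf τ + 1)
    (by rw [hac.egirth_eq_top]; exact le_top)
  obtain ⟨x⟩ := ‹Nonempty V›
  apply tau_ne τ m _ hLF (orderOf τ) (orderOf_pos τ) (by omega) x
  have : (⇑τ)^[orderOf τ] x = (τ ^ orderOf τ) x := by
    rw [Equiv.Perm.iterate_eq_pow]
  rw [this, pow_orderOf_eq_one]
  rfl

/-- A bipartite cubic graph has a perfect matching. -/
theorem bipartite_matching {V : Type*} [Fintype V] [DecidableEq V] (G : SimpleGraph V)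
    [DecidableRel G.Adj] (hreg : G.IsRegularOfDegree 3) (hbip : G.IsBipartite) :
    ∃ M : G.Subgraph, M.IsPerfectMatching := by
  classical
  obtain ⟨p₁, p₂, h12⟩ := hbip.exists_isBipartiteWith
  refine SimpleGraph.exists_isPerfectMatching_of_forall_ncard_le h12 ?_
  intro s
  have hs : s = ((Finset.univ.filter (fun x => x ∈ s) : Finset V) : Set V) := by
    ext x; simp
  set A : Finset V := Finset.univ.filter (fun x => x ∈ s) with hA
  have hN : (⋃ x ∈ s, G.neighborSet x) =
      ((Finset.univ.filter (fun y => ∃ x ∈ s, G.Adj x y) : Finset V) : Set V) := by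
    ext y; simp
  set B : Finset V := Finset.univ.filter (fun y => ∃ x ∈ s, G.Adj x y) with hB
  rw [hN, hs, Set.ncard_coe_finset, Set.ncard_coe_finset]
  have hdeg : ∀ x, (Finset.univ.filter (fun y => G.Adj x y)).card = 3 := by
    intro x
    have := hreg x
    rw [SimpleGraph.degree, SimpleGraph.neighborFinset_eq_filter] at this
    exact this
  have key := Finset.card_mul_le_card_mul (s := A) (t := B) (fun x y => G.Adj x y) (m := 3)
    (n := 3) ?_ ?_
  · omega
  · intro a ha
    rw [← hdeg a]
    apply Finset.card_le_card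
    intro y hy
    simp only [Finset.mem_filter, Finset.mem_univ, true_and] at hy
    simp only [Finset.bipartiteAbove, Finset.mem_filter, hB, Finset.mem_univ, true_and]
    refine ⟨⟨a, ?_, hy⟩, hy⟩
    simpa [hA] using ha
  · intro b _
    rw [← hdeg b]
    apply Finset.card_le_card
    intro y hy
    simp only [Finset.bipartiteBelow, Finset.mem_filter] at hy
    simp only [Finset.mem_filter, Finset.mem_univ, true_and]
    exact hy.2.symm

end PC70
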