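import Pool.Agent.PC70.Comp

set_option autoImplicit false

namespace PC70

open Finset

variable {V : Type*}

open Classical in
/-- The bound on the number of components. -/
noncomputable def Cost [Fintype V] (τ m : Equiv.Perm V) (T r' J : ℕ) (S : V → Prop) : ℝ :=
  ((Finset.univ.filter (fun v => S v)).card : ℝ) +
  ((Finset.univ.filter (fun v => ∀ i ≤ r', ¬ Hit τ m T S (τ^[i] v))).card : ℝ) / r' +
  ((Finset.univ.filter (fun v => Hit τ m T S v)).card : ℝ) / J +
  ((Finset.univ.filter (fun v => Hit τ m T S v ∧ Hit τ m T S (m v))).card : ℝ) +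
  ((Finset.univ.filter (fun v => BadRoot τ m T (2 * r') J (Hit τ m T S) v)).card : ℝ)

theorem card_comp_le [Fintype V] [DecidableEq V] (τ m : Equiv.Perm V) (hmm : ∀ x, m (m x) = x)
    (g : ℕ) (hg : 2 ≤ g) (hLF : LF τ m g) (T r' J : ℕ) (hT : 0 < T) (hr : 0 < r') (hJ : 0 < J)
    (hr' : r' ≤ g) (S : V → Prop) :
    (Nat.card (swGraph τ m S (Hit τ m T S)).ConnectedComponent : ℝ) ≤ Cost τ m T r' J S := by
  classical
  set W := Hit τ m T S with hW
  set H := swGraph τ m S W with hH
  let comp : V → H.ConnectedComponent := H.connectedComponentMk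
  have hstep : ∀ v, ¬ (S v ∧ ¬ W v) → comp (sw τ m W v) = comp v := by
    intro v hv
    apply SimpleGraph.ConnectedComponent.sound
    by_cases h : sw τ m W v = v
    · rw [h]
    · apply SimpleGraph.Adj.reachable
      exact ⟨h, Or.inr ⟨hv, rfl⟩⟩
  let p1 : H.ConnectedComponent → Prop := fun c => ∃ v, comp v = c ∧ S v
  let U : Finset V := Finset.univ.filter (fun v => ∀ i ≤ r', ¬ W (τ^[i] v))
  let P : Finset V := Finset.univ.filter (fun v => W v)
  let p2 : H.ConnectedComponent → Prop := fun c => r' ≤ (U.filter (fun v => comp v = c)).card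
  let p3 : H.ConnectedComponent → Prop := fun c => J ≤ (P.filter (fun v => comp v = c)).card
  let p4 : H.ConnectedComponent → Prop := fun c => ∃ y, comp y = c ∧ W y ∧ W (m y)
  let p5 : H.ConnectedComponent → Prop := fun c => ∃ y, comp y = c ∧ BadRoot τ m T (2 * r') J W y
  have hall : ∀ c, p1 c ∨ p2 c ∨ p3 c ∨ p4 c ∨ p5 c := by
    intro c
    by_cases h1 : p1 c
    · exact Or.inl h1
    right
    have hS : ∀ v, comp v = c → ¬ (S v ∧ ¬ W v) := fun v hv h => h1 ⟨v, hv, h.1⟩
    refine classify τ m hmm g hLF T r' J hT hr' W comp c ?_ ?_ ?_ _ _ ?_ ?_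
    · obtain ⟨v, hv⟩ := c.exists_rep
      exact ⟨v, hv⟩
    · intro v hv hWv
      have := hstep v (hS v hv)
      unfold sw at this
      rw [if_neg hWv] at this
      rw [this, hv]
    · intro v hv hWv
      have := hstep v (hS v hv)
      unfold sw at this
      rw [if_pos hWv] at this
      rw [this, hv]
    · intro v hv hc
      simp only [U, Finset.mem_filter, Finset.mem_univ, true_and]
      exact ⟨hv, hc⟩
    · intro v hv hc
      simp only [P, Finset.mem_filter, Finset.mem_univ, true_and]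
      exact ⟨hv, hc⟩
  have inj_bound : ∀ (R : V → Prop) (p : H.ConnectedComponent → Prop) (_ : DecidablePred R)
      (_ : DecidablePred p), (∀ c, p c → ∃ v, comp v = c ∧ R v) →
      ((Finset.univ.filter p).card : ℝ) ≤ ((Finset.univ.filter (fun v => R v)).card : ℝ) := by
    intro R p _ _ hp
    have : (Finset.univ.filter p) ⊆ (Finset.univ.filter (fun v => R v)).image comp := by
      intro c hc
      simp only [Finset.mem_filter, Finset.mem_univ, true_and] at hc
      obtain ⟨v, hv, hR⟩ := hp c hc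
      rw [Finset.mem_image]
      exact ⟨v, by simpa using hR, hv⟩
    exact_mod_cast (Finset.card_le_card this).trans Finset.card_image_le
  have b2 := fiber_bound comp (Finset.univ.filter p2) U r' (by
    intro c hc
    simpa [p2] using hc)
  have b3 := fiber_bound comp (Finset.univ.filter p3) P J (by
    intro c hc
    simpa [p3] using hc)
  have hcover : (Finset.univ : Finset H.ConnectedComponent) ⊆
      Finset.univ.filter p1 ∪ Finset.univ.filter p2 ∪ Finset.univ.filter p3 ∪
      Finset.univ.filter p4 ∪ Finset.univ.filter p5 := by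
    intro c _
    simp only [Finset.mem_union, Finset.mem_filter, Finset.mem_univ, true_and]
    rcases hall c with h | h | h | h | h
    · exact Or.inl (Or.inl (Or.inl (Or.inl h)))
    · exact Or.inl (Or.inl (Or.inl (Or.inr h)))
    · exact Or.inl (Or.inl (Or.inr h))
    · exact Or.inl (Or.inr h)
    · exact Or.inr h
  have hcard := Finset.card_le_card hcover
  have h5 := (Finset.card_union_le (Finset.univ.filter p1 ∪ Finset.univ.filter p2 ∪
    Finset.univ.filter p3 ∪ Finset.univ.filter p4) (Finset.univ.filter p5))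
  have h4 := (Finset.card_union_le (Finset.univ.filter p1 ∪ Finset.univ.filter p2 ∪
    Finset.univ.filter p3) (Finset.univ.filter p4))
  have h3 := (Finset.card_union_le (Finset.univ.filter p1 ∪ Finset.univ.filter p2)
    (Finset.univ.filter p3))
  have h2 := (Finset.card_union_le (Finset.univ.filter p1) (Finset.univ.filter p2))
  have htot : (Finset.univ : Finset H.ConnectedComponent).card ≤
      (Finset.univ.filter p1).card + (Finset.univ.filter p2).card + (Finset.univ.filter p3).card +
      (Finset.univ.filter p4).card + (Finset.univ.filter p5).card := by omega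
  rw [Nat.card_eq_fintype_card, ← Finset.card_univ]
  have htot' : ((Finset.univ : Finset H.ConnectedComponent).card : ℝ) ≤
      (Finset.univ.filter p1).card + (Finset.univ.filter p2).card + (Finset.univ.filter p3).card +
      (Finset.univ.filter p4).card + (Finset.univ.filter p5).card := by exact_mod_cast htot
  refine htot'.trans ?_
  unfold Cost
  have hr0 : (0 : ℝ) < r' := by exact_mod_cast hr
  have hJ0 : (0 : ℝ) < J := by exact_mod_cast hJ
  have c2 : ((Finset.univ.filter p2).card : ℝ) ≤ (U.card : ℝ) / r' := by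
    rw [le_div_iff₀ hr0]
    exact_mod_cast b2
  have c3 : ((Finset.univ.filter p3).card : ℝ) ≤ (P.card : ℝ) / J := by
    rw [le_div_iff₀ hJ0]
    exact_mod_cast b3
  exact add_le_add (add_le_add (add_le_add (add_le_add (inj_bound _ _ _ _ (fun c h => h)) c2) c3)
    (inj_bound _ _ _ _ (fun c h => h))) (inj_bound _ _ _ _ (fun c h => h))

theorem exists_good [Fintype V] [DecidableEq V] (X : V → Prop) (τ m : Equiv.Perm V)
    (hmm : ∀ x, m (m x) = x)
    (g : ℕ) (hg : 2 ≤ g) (hLF : LF τ m g) (T r' J q Q : ℕ) (hT : 0 < T) (hr : 0 < r') (hJ : 0 < J)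
    [NeZero Q] (h1 : r' + 2 * T ≤ g) (h2 : 2 * ((q + 1) * (2 * r')) < g)
    (h3 : q * (2 * r') + 2 * T ≤ g + 1) (N : ℕ)
    (hN : ∀ v, ∃ A : Finset ℕ, (∀ j ∈ A, j ≤ r' ∧ ∀ i < T, X ((phi τ m)^[i + 1] (τ^[j] v))) ∧
      N ≤ A.card) (β : ℝ)
    (hβ : ∀ v, mu (fun f : V → Fin Q => Hit τ m T (Seed X f) v ∧ Hit τ m T (Seed X f) (m v)) ≤ β) :
    ∃ S : V → Prop, (Nat.card (swGraph τ m S (Hit τ m T S)).ConnectedComponent : ℝ) ≤
      Fintype.card V * (1 / (Q : ℝ) + (1 - 1 / (Q : ℝ)) ^ (T * N) / r' +
        (T * (1 / (Q : ℝ))) / J + β +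
        ((J * (2 * (T * T ^ (q + 1))) : ℕ) : ℝ) * (1 / (Q : ℝ)) ^ (q + 1)) := by
  classical
  have hr0 : (0 : ℝ) < r' := by exact_mod_cast hr
  have hJ0 : (0 : ℝ) < J := by exact_mod_cast hJ
  have hex := exists_le_avg (V := V) (Q := Q) (fun f => Cost τ m T r' J (Seed X f))
    (Fintype.card V * (1 / (Q : ℝ) + (1 - 1 / (Q : ℝ)) ^ (T * N) / r' +
        (T * (1 / (Q : ℝ))) / J + β +
        ((J * (2 * (T * T ^ (q + 1))) : ℕ) : ℝ) * (1 / (Q : ℝ)) ^ (q + 1))) ?_
  · obtain ⟨f, hf⟩ := hex
    exact ⟨Seed X f,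
      (card_comp_le τ m hmm g hg hLF T r' J hT hr hJ (by omega) (Seed X f)).trans hf⟩
  · have s1 := sum_card_le (V := V) (Q := Q) (fun f v => Seed X f v) _ (mu_seed X)
    have s2 := sum_card_le (V := V) (Q := Q)
      (fun f v => ∀ i ≤ r', ¬ Hit τ m T (Seed X f) (τ^[i] v)) ((1 - 1 / (Q : ℝ)) ^ (T * N))
      (fun v => by
        obtain ⟨A, hA, hAN⟩ := hN v
        exact mu_unhit X τ m hmm g hLF T r' h1 v A hA N hAN)
    have s3 := sum_card_le (V := V) (Q := Q) (fun f v => Hit τ m T (Seed X f) v) _ (mu_hit X τ m T)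
    have s4 := sum_card_le (V := V) (Q := Q)
      (fun f v => Hit τ m T (Seed X f) v ∧ Hit τ m T (Seed X f) (m v)) _ hβ
    have s5 := sum_card_le (V := V) (Q := Q)
      (fun f v => BadRoot τ m T (2 * r') J (Hit τ m T (Seed X f)) v) _
      (mu_badRoot X τ m hmm g hLF T (2 * r') q J h2 h3)
    unfold Cost
    simp only [Finset.sum_add_distrib, ← Finset.sum_div]
    have s2' := div_le_div_of_nonneg_right s2 hr0.le
    have s3' := div_le_div_of_nonneg_right s3 hJ0.le
    refine le_trans (add_le_add (add_le_add (add_le_add (add_le_add s1 s2') s3') s4) s5)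
      (le_of_eq ?_)
    ring

end PC70
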