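import Pool.Agent.PC70.Count

set_option autoImplicit false

namespace PC70

open Finset

variable {V : Type*}

theorem seed_iff (X : V → Prop) {Q : ℕ} [NeZero Q] (f : V → Fin Q) (x : V) :
    Seed X f x ↔ X x ∧ f x = 0 := Iff.rfl

theorem mu_eq_zero [Fintype V] [DecidableEq V] {Q : ℕ} (P : (V → Fin Q) → Prop)
    (h : ∀ f, ¬ P f) : mu P = 0 := by
  classical
  unfold mu
  rw [Finset.filter_false_of_mem (fun f _ => h f)]
  simp

/-- `y` starts a closed chain of at most `J` hits. -/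
def BadRoot (τ m : Equiv.Perm V) (T r J : ℕ) (W : V → Prop) (y : V) : Prop :=
  ∃ d, 0 < d ∧ d ≤ J ∧ Chain τ m T r W y d ∧ Near τ m T ((ret τ m W)^[d] y) y

theorem mu_chain [Fintype V] [DecidableEq V] (X : V → Prop) (τ m : Equiv.Perm V) (hmm : ∀ x, m (m x) = x) (g : ℕ)
    (hLF : LF τ m g) (T r q : ℕ) (hg : 2 * ((q + 1) * r) < g) {Q : ℕ} [NeZero Q] (y : V) (d : ℕ)
    (hqd : q < d) (dir : Bool) (k : ℕ) (e : Fin (q + 1) → Fin T) :
    mu (fun f : V → Fin Q => Chain τ m T r (Hit τ m T (Seed X f)) y d ∧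
      Clo τ m dir k y ((ret τ m (Hit τ m T (Seed X f)))^[d] y) ∧
      ∀ j, Seed X f (upos τ m (Hit τ m T (Seed X f)) T q d y e j)) ≤ (1 / (Q : ℝ)) ^ (q + 1) := by
  refine mu_resample (Q := Q) (k := q + 1) _
    (fun f => upos τ m (Hit τ m T (Seed X f)) T q d y e) ?_ ?_ ?_
  · rintro f ⟨h1, -, -⟩
    exact upos_injective hqd h1 e
  · rintro f ⟨-, -, h3⟩ i
    exact (h3 i).2
  · rintro f ⟨h1, h2, h3⟩ f' ⟨h1', h2', h3'⟩ c c' hE
    refine upos_eq hmm hLF hg hqd dir k e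
      (Seed X (Function.extend (upos τ m (Hit τ m T (Seed X f)) T q d y e) c f)) (Seed X f) (Seed X f')
      h1 h1' h2 h2' ?_ ?_ ?_ ?_
    · intro x hx
      by_cases hr : ∃ i, upos τ m (Hit τ m T (Seed X f)) T q d y e i = x
      · obtain ⟨i, rfl⟩ := hr
        exact h3 i
      · rw [seed_iff] at hx ⊢
        rwa [Function.extend_apply' _ _ _ hr] at hx
    · intro x hx
      rw [hE] at hx
      by_cases hr : ∃ i, upos τ m (Hit τ m T (Seed X f')) T q d y e i = x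
      · obtain ⟨i, rfl⟩ := hr
        exact h3' i
      · rw [seed_iff] at hx ⊢
        rwa [Function.extend_apply' _ _ _ hr] at hx
    · intro x hx hr
      have hr' : ¬ ∃ i, upos τ m (Hit τ m T (Seed X f)) T q d y e i = x := by
        rintro ⟨i, hi⟩
        exact hr i hi
      rw [seed_iff] at hx ⊢
      rwa [Function.extend_apply' _ _ _ hr']
    · intro x hx hr
      have hr' : ¬ ∃ i, upos τ m (Hit τ m T (Seed X f')) T q d y e i = x := by
        rintro ⟨i, hi⟩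
        exact hr i hi
      rw [hE]
      rw [seed_iff] at hx ⊢
      rwa [Function.extend_apply' _ _ _ hr']

theorem mu_badRoot [Fintype V] [DecidableEq V] (X : V → Prop) (τ m : Equiv.Perm V) (hmm : ∀ x, m (m x) = x)
    (g : ℕ) (hLF : LF τ m g) (T r q J : ℕ) (hg : 2 * ((q + 1) * r) < g)
    (hq : q * r + 2 * T ≤ g + 1) {Q : ℕ} [NeZero Q] (y : V) :
    mu (fun f : V → Fin Q => BadRoot τ m T r J (Hit τ m T (Seed X f)) y) ≤
      ((J * (2 * (T * T ^ (q + 1))) : ℕ) : ℝ) * (1 / (Q : ℝ)) ^ (q + 1) := by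
  have h := mu_union_le (Q := Q) (ι := Fin J × Bool × Fin T × (Fin (q + 1) → Fin T))
    (fun p f => q < (p.1 : ℕ) + 1 ∧ Chain τ m T r (Hit τ m T (Seed X f)) y ((p.1 : ℕ) + 1) ∧
      Clo τ m p.2.1 p.2.2.1 y ((ret τ m (Hit τ m T (Seed X f)))^[(p.1 : ℕ) + 1] y) ∧
      ∀ j, Seed X f (upos τ m (Hit τ m T (Seed X f)) T q ((p.1 : ℕ) + 1) y p.2.2.2 j))
    ((1 / (Q : ℝ)) ^ (q + 1)) ?_
  · have hc : Fintype.card (Fin J × Bool × Fin T × (Fin (q + 1) → Fin T)) =
        J * (2 * (T * T ^ (q + 1))) := by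
      simp [Fintype.card_prod]
    rw [hc] at h
    refine le_trans (mu_mono _ _ ?_) h
    rintro f ⟨d, hd0, hdJ, hch, hn⟩
    have hqd : q < d := hch.long hmm hLF hq hd0 hn
    obtain ⟨dir, k, hclo⟩ := (near_iff_clo τ m T y _).1 hn
    have hs : ∀ j : Fin (q + 1), ∃ a : Fin T,
        Seed X f ((phi τ m)^[(a : ℕ) + 1] ((ret τ m (Hit τ m T (Seed X f)))^[idx q d j] y)) := by
      intro j
      obtain ⟨a, ha, hsa⟩ := hch.hit (idx q d j) (idx_lt hqd j)
      exact ⟨⟨a, ha⟩, hsa⟩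
    choose e he using hs
    have hdd : (d - 1) + 1 = d := by omega
    refine ⟨⟨⟨d - 1, by omega⟩, dir, k, e⟩, ?_⟩
    simp only [hdd]
    exact ⟨hqd, hch, hclo, he⟩
  · rintro ⟨i, dir, k, e⟩
    simp only
    by_cases hqd : q < (i : ℕ) + 1
    · refine le_trans (mu_mono _ _ ?_)
        (mu_chain X τ m hmm g hLF T r q hg (Q := Q) y ((i : ℕ) + 1) hqd dir k e)
      rintro f ⟨-, h⟩
      exact h
    · have : mu (fun f : V → Fin Q => q < (i : ℕ) + 1 ∧
          Chain τ m T r (Hit τ m T (Seed X f)) y ((i : ℕ) + 1) ∧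
          Clo τ m dir k y ((ret τ m (Hit τ m T (Seed X f)))^[(i : ℕ) + 1] y) ∧
          ∀ j, Seed X f (upos τ m (Hit τ m T (Seed X f)) T q ((i : ℕ) + 1) y e j)) = 0 := by
        apply mu_eq_zero
        rintro f ⟨h, -⟩
        exact hqd h
      rw [this]
      positivity

end PC70
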