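import Mathlib

set_option autoImplicit false

/-!
Path covers of cubic cages: basic definitions shared by all files.
-/

namespace PC70

/-- The three letters. -/
inductive Letter
  | t
  | ti
  | m
  deriving DecidableEq

/-- The inverse letter. -/
def Letter.inv : Letter → Letter
  | .t => .ti
  | .ti => .t
  | .m => .m

/-- Action of a letter, given the permutation `τ` and the involution `m`. -/
def act {V : Type*} (τ m : Equiv.Perm V) : Letter → V → V
  | .t, x => τ x
  | .ti, x => τ.symm x
  | .m, x => m x

/-- Action of a word, read from left to right. -/
def run {V : Type*} (τ m : Equiv.Perm V) : List Letter → V → V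
  | [], x => x
  | a :: w, x => run τ m w (act τ m a x)

/-- A word is reduced if no letter is followed by its inverse. -/
def Reduced (w : List Letter) : Prop := w.IsChain (fun a b => b ≠ a.inv)

/-- `LF τ m g`: no nonempty reduced word of length `< g` has a fixed point. -/
def LF {V : Type*} (τ m : Equiv.Perm V) (g : ℕ) : Prop :=
  ∀ w : List Letter, w ≠ [] → w.length < g → Reduced w → ∀ x, run τ m w x ≠ x

end PC70
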