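import Pool.Agent.PC70.Param

set_option autoImplicit false

namespace PC70

open Finset

/-- The numerical estimate, bipartite case. -/
theorem numeric2 (g K r : ℕ) (L : ℝ) (hL : L = Real.log g) (hL1 : 1 ≤ L) (hL2 : L ^ 4 ≤ 256 * g)
    (hgL : 6000 * L ≤ g) (hg : 1056 ≤ g) (hr : r = (g - 1) / 32) (hK : 1 ≤ K)
    (hK1 : (K : ℝ) * (66 * L) ≤ g) (hK2 : (g : ℝ) ≤ K * (67 * L)) :
    1 / ((r * K : ℕ) : ℝ) +
      (1 - 1 / ((r * K : ℕ) : ℝ)) ^ (r * ((r + 1) / 2)) / (r : ℝ) +
      (r * (1 / ((r * K : ℕ) : ℝ))) / r + 0 +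
      ((r * (2 * (r * r ^ (7 + 1))) : ℕ) : ℝ) * (1 / ((r * K : ℕ) : ℝ)) ^ (7 + 1) ≤
    6000 * L / (g : ℝ) ^ 2 := by
  have hK0 : (0 : ℝ) < K := by exact_mod_cast hK
  have hg0 : (0 : ℝ) < g := by positivity
  have hr1 : 1 ≤ r := by omega
  have hr2 : g ≤ 33 * r := by omega
  have hr3 : g ≤ 66 * ((r + 1) / 2) := by omega
  have hr4 : 32 * r ≤ g := by omega
  have hr0 : (0 : ℝ) < r := by exact_mod_cast hr1
  have hr2' : (g : ℝ) ≤ 33 * r := by exact_mod_cast hr2
  have hr3' : (g : ℝ) ≤ 66 * (((r + 1) / 2 : ℕ) : ℝ) := by exact_mod_cast hr3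
  have hr4' : 32 * (r : ℝ) ≤ g := by exact_mod_cast hr4
  set N := (r + 1) / 2 with hN
  have hinvK : 1 / (K : ℝ) ≤ 67 * L / g := by
    rw [div_le_div_iff₀ (by positivity) (by positivity)]
    linarith
  have hinvr : 1 / (r : ℝ) ≤ 33 / g := by
    rw [div_le_div_iff₀ (by positivity) (by positivity)]
    linarith
  have e1 : 1 / ((r * K : ℕ) : ℝ) = (1 / r) * (1 / K) := by push_cast; field_simp
  have e2 : (r * (1 / ((r * K : ℕ) : ℝ))) / r = (1 / (r : ℝ)) * (1 / K) := by
    push_cast; field_simp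
  have e4 : ((r * (2 * (r * r ^ (7 + 1))) : ℕ) : ℝ) * (1 / ((r * K : ℕ) : ℝ)) ^ (7 + 1) =
      2 * r ^ 2 * (1 / (K : ℝ)) ^ 8 := by push_cast; field_simp
  have b1 : (1 / (r : ℝ)) * (1 / K) ≤ 2211 * L / (g : ℝ) ^ 2 := by
    calc (1 / (r : ℝ)) * (1 / K) ≤ (33 / g) * (67 * L / g) := by gcongr
      _ = 2211 * L / (g : ℝ) ^ 2 := by field_simp; ring
  have b4 : 2 * (r : ℝ) ^ 2 * (1 / (K : ℝ)) ^ 8 ≤ 1000 * L / (g : ℝ) ^ 2 := by
    have h8 : L ^ 8 ≤ 256 * (g : ℝ) * L ^ 4 := by
      calc L ^ 8 = L ^ 4 * L ^ 4 := by ring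
        _ ≤ (256 * (g : ℝ)) * L ^ 4 := by gcongr
    have h3 : L ^ 3 * 216000000000 ≤ (g : ℝ) ^ 3 := by
      calc L ^ 3 * 216000000000 = (6000 * L) ^ 3 := by ring
        _ ≤ (g : ℝ) ^ 3 := by gcongr
    calc 2 * (r : ℝ) ^ 2 * (1 / (K : ℝ)) ^ 8 ≤ 2 * (g / 32) ^ 2 * (67 * L / g) ^ 8 := by
          gcongr
          linarith
      _ = (67 ^ 8 / 512) * (L ^ 8) / (g : ℝ) ^ 6 := by field_simp; ring
      _ ≤ (67 ^ 8 / 512) * (256 * (g : ℝ) * L ^ 4) / (g : ℝ) ^ 6 := by gcongr
      _ = (67 ^ 8 / 2) * L * (L ^ 3) / ((g : ℝ) ^ 2 * (g : ℝ) ^ 3) := by field_simp; ring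
      _ ≤ (67 ^ 8 / 2) * L * ((g : ℝ) ^ 3 / 216000000000) / ((g : ℝ) ^ 2 * (g : ℝ) ^ 3) := by
          gcongr
          rw [le_div_iff₀ (by norm_num)]
          exact h3
      _ = (67 ^ 8 / 432000000000) * L / (g : ℝ) ^ 2 := by field_simp; ring
      _ ≤ 1000 * L / (g : ℝ) ^ 2 := by
          gcongr
          norm_num
  have hexp : (1 - 1 / ((r * K : ℕ) : ℝ)) ^ (r * N) ≤ 1 / (g : ℝ) := by
    have hrK : (1 : ℝ) ≤ ((r * K : ℕ) : ℝ) := by
      have : 1 ≤ r * K := Nat.mul_pos hr1 hK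
      exact_mod_cast this
    have hb0 : 0 ≤ 1 - 1 / ((r * K : ℕ) : ℝ) := by
      rw [sub_nonneg, div_le_one (by linarith)]
      exact hrK
    have hb1 : 1 - 1 / ((r * K : ℕ) : ℝ) ≤ Real.exp (-(1 / ((r * K : ℕ) : ℝ))) := by
      have := Real.add_one_le_exp (-(1 / ((r * K : ℕ) : ℝ)))
      linarith
    calc (1 - 1 / ((r * K : ℕ) : ℝ)) ^ (r * N) ≤
        (Real.exp (-(1 / ((r * K : ℕ) : ℝ)))) ^ (r * N) := by
          gcongr
      _ = Real.exp (-(N / K)) := by
          rw [← Real.exp_nat_mul]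
          congr 1
          push_cast
          field_simp
      _ ≤ Real.exp (-L) := by
          apply Real.exp_le_exp.2
          rw [neg_le_neg_iff, le_div_iff₀ hK0]
          nlinarith
      _ = 1 / (g : ℝ) := by
          rw [hL, Real.exp_neg, Real.exp_log hg0, one_div]
  have b2 : (1 - 1 / ((r * K : ℕ) : ℝ)) ^ (r * N) / (r : ℝ) ≤ 33 * L / (g : ℝ) ^ 2 := by
    calc (1 - 1 / ((r * K : ℕ) : ℝ)) ^ (r * N) / (r : ℝ) ≤ (1 / (g : ℝ)) / r := by gcongr
      _ = (1 / (g : ℝ)) * (1 / r) := by ring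
      _ ≤ (1 / (g : ℝ)) * (33 / g) := by gcongr
      _ = 33 * 1 / (g : ℝ) ^ 2 := by field_simp
      _ ≤ 33 * L / (g : ℝ) ^ 2 := by gcongr
  rw [e2, e4]
  have e1' : 1 / ((r * K : ℕ) : ℝ) ≤ 2211 * L / (g : ℝ) ^ 2 := by rw [e1]; exact b1
  have hfin : 2211 * L / (g : ℝ) ^ 2 + 33 * L / (g : ℝ) ^ 2 + 2211 * L / (g : ℝ) ^ 2 + 0 +
      1000 * L / (g : ℝ) ^ 2 ≤ 6000 * L / (g : ℝ) ^ 2 := by
    have h0 : 0 ≤ L / (g : ℝ) ^ 2 := by positivity
    have : ∀ a : ℝ, a * L / (g : ℝ) ^ 2 = a * (L / (g : ℝ) ^ 2) := by intro a; ring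
    rw [this, this, this, this]
    nlinarith
  refine le_trans ?_ hfin
  gcongr

theorem log_four_le (g : ℕ) (hg : 1 ≤ g) : (Real.log g) ^ 4 ≤ 256 * g := by
  have hg0 : (0 : ℝ) < g := by positivity
  have hg1 : (1 : ℝ) ≤ g := by exact_mod_cast hg
  have h0 : 0 ≤ Real.log g := Real.log_nonneg hg1
  set s := Real.sqrt (Real.sqrt g) with hs
  have hs0 : 0 < s := Real.sqrt_pos.2 (Real.sqrt_pos.2 hg0)
  have h1 : Real.log g = 4 * Real.log s := by
    rw [hs, Real.log_sqrt (Real.sqrt_nonneg _), Real.log_sqrt hg0.le]; ring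
  have h2 : Real.log s ≤ s := by
    have := Real.log_le_sub_one_of_pos hs0
    linarith
  have h3 : Real.log g ≤ 4 * s := by linarith
  have h4 : s ^ 4 = g := by
    have e : s ^ 4 = (s ^ 2) ^ 2 := by ring
    rw [e, hs, Real.sq_sqrt (Real.sqrt_nonneg _), Real.sq_sqrt hg0.le]
  calc (Real.log g) ^ 4 ≤ (4 * s) ^ 4 := by gcongr
    _ = 256 * s ^ 4 := by ring
    _ = 256 * g := by rw [h4]

variable {V : Type*}

/-- The core theorem for bipartite graphs. -/
theorem core2 [Fintype V] [DecidableEq V] (G : SimpleGraph V) (τ m : Equiv.Perm V)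
    (hmm : ∀ x, m (m x) = x) (hm : ∀ x, G.Adj x (m x)) (ht : ∀ x, G.Adj x (τ x))
    (col : V → Bool) (hcol : ∀ x y, G.Adj x y → col x ≠ col y)
    (g : ℕ) (hg : 3 ≤ g) (hLF : LF τ m g) :
    ∃ F : SimpleGraph V, F ≤ G ∧ F.IsAcyclic ∧ (∀ v, (F.neighborSet v).ncard ≤ 2) ∧
      (Nat.card F.ConnectedComponent : ℝ) ≤
        6000 * Real.log g / (g : ℝ) ^ 2 * Fintype.card V := by
  classical
  have hL1 := one_le_log g hg
  have hg0 : (0 : ℝ) < g := by positivity
  have hL2 := log_four_le g (by omega)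
  by_cases hbig : 6000 * Real.log g ≤ g
  · -- main case
    have hx1 : (1 : ℝ) ≤ (g : ℝ) / (66 * Real.log g) := by
      rw [le_div_iff₀ (by positivity)]
      linarith
    set K := ⌊(g : ℝ) / (66 * Real.log g)⌋₊ with hK
    have hK1 : 1 ≤ K := Nat.le_floor (by simpa using hx1)
    have hKle : (K : ℝ) ≤ (g : ℝ) / (66 * Real.log g) := Nat.floor_le (by positivity)
    have hKlt : (g : ℝ) / (66 * Real.log g) < K + 1 := Nat.lt_floor_add_one _
    rw [le_div_iff₀ (by positivity)] at hKle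
    rw [div_lt_iff₀ (by positivity)] at hKlt
    have hK2 : (g : ℝ) ≤ K * (67 * Real.log g) := by nlinarith
    have hg128 : 6000 ≤ g := by
      have : (6000 : ℝ) ≤ g := by linarith
      exact_mod_cast this
    set r := (g - 1) / 32 with hr
    have hrK : 0 < r * K := Nat.mul_pos (by omega) hK1
    have : NeZero (r * K) := ⟨by omega⟩
    -- colours
    have hcm : ∀ x, col (m x) = !(col x) := by
      intro x
      have := hcol _ _ (hm x)
      cases h1 : col x <;> cases h2 : col (m x) <;> simp_all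
    have hct : ∀ x, col (τ x) = !(col x) := by
      intro x
      have := hcol _ _ (ht x)
      cases h1 : col x <;> cases h2 : col (τ x) <;> simp_all
    have hcphi : ∀ x, col (phi τ m x) = col x := by
      intro x
      have h1 := hct (τ.symm (m x))
      rw [Equiv.apply_symm_apply, hcm] at h1
      unfold phi
      exact (Bool.not_inj h1).symm
    have hcphi' : ∀ i x, col ((phi τ m)^[i] x) = col x := by
      intro i x
      induction i with
      | zero => rfl
      | succ i ih => rw [Function.iterate_succ_apply', hcphi, ih]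
    have hctau : ∀ i x, col (τ^[2 * i] x) = col x := by
      intro i x
      induction i with
      | zero => rfl
      | succ i ih =>
        have : 2 * (i + 1) = (2 * i + 1) + 1 := by ring
        rw [this, Function.iterate_succ_apply', Function.iterate_succ_apply', hct, hct,
          Bool.not_not, ih]
    obtain ⟨S, hS⟩ := exists_good (fun v => col v = true) τ m hmm g (by omega) hLF r r r 7
      (r * K) (by omega) (by omega) (by omega) (by omega) (by omega) (by omega)
      ((r + 1) / 2) (fun v => by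
        cases hv : col v
        · refine ⟨(Finset.range ((r + 1) / 2)).image (fun i => 2 * i + 1), ?_, ?_⟩
          · intro j hj
            rw [Finset.mem_image] at hj
            obtain ⟨i, hi, rfl⟩ := hj
            rw [Finset.mem_range] at hi
            refine ⟨by omega, fun k _ => ?_⟩
            rw [hcphi', Function.iterate_succ_apply', hct, hctau, hv]
            rfl
          · rw [Finset.card_image_of_injective _ (fun a b h => by omega),
              Finset.card_range]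
        · refine ⟨(Finset.range ((r + 1) / 2)).image (fun i => 2 * i), ?_, ?_⟩
          · intro j hj
            rw [Finset.mem_image] at hj
            obtain ⟨i, hi, rfl⟩ := hj
            rw [Finset.mem_range] at hi
            refine ⟨by omega, fun k _ => ?_⟩
            rw [hcphi', hctau, hv]
          · rw [Finset.card_image_of_injective _ (fun a b h => by omega),
              Finset.card_range]) 0
      (fun v => le_of_eq (mu_eq_zero _ (by
        rintro f ⟨⟨i, -, hi, -⟩, ⟨j, -, hj, -⟩⟩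
        rw [hcphi'] at hi hj
        rw [hcm, hi] at hj
        simp at hj)))
    obtain ⟨F, hF1, hF2, hF3⟩ :=
      (swGraph τ m S (Hit τ m r S)).exists_isAcyclic_reachable_eq_le
    refine ⟨F, hF1.trans (swGraph_le τ m S _ G hm ht), hF2, ?_, ?_⟩
    · intro v
      obtain ⟨a, b, hab⟩ := swGraph_nbr τ m hmm r S v
      have hsub : F.neighborSet v ⊆ {a, b} := by
        intro y hy
        exact hab y (hF1 hy)
      refine (Set.ncard_le_ncard hsub (Set.toFinite _)).trans ?_
      have := Set.ncard_insert_le a {b}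
      rwa [Set.ncard_singleton] at this
    · have hcard : Nat.card F.ConnectedComponent =
          Nat.card (swGraph τ m S (Hit τ m r S)).ConnectedComponent := by
        unfold SimpleGraph.ConnectedComponent
        rw [hF3]
      rw [hcard]
      refine hS.trans ?_
      rw [mul_comm]
      gcongr
      exact numeric2 g K r (Real.log g) rfl hL1 hL2 hbig (by omega) hr hK1 hKle hK2
  · -- small case
    push Not at hbig
    obtain ⟨F, h1, h2, h3, h4⟩ := two_factor G τ m hmm hm ht g hg hLF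
    refine ⟨F, h1, h2, h3, h4.trans ?_⟩
    have h5 : 1 / (g : ℝ) ≤ 6000 * Real.log g / (g : ℝ) ^ 2 := by
      rw [div_le_div_iff₀ (by positivity) (by positivity)]
      nlinarith
    calc (Fintype.card V : ℝ) / g = 1 / (g : ℝ) * Fintype.card V := by ring
      _ ≤ 6000 * Real.log g / (g : ℝ) ^ 2 * Fintype.card V := by gcongr

end PC70
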