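import Pool.Agent.PC70.BadRoots

set_option autoImplicit false

namespace PC70

open Finset

variable {V : Type*}

open Classical in
/-- The switching map. -/
noncomputable def sw (τ m : Equiv.Perm V) (W : V → Prop) (x : V) : V :=
  if W x then m x else τ x

/-- The graph of the switching map, with the edges out of unhit seeds deleted. -/
def swGraph (τ m : Equiv.Perm V) (S W : V → Prop) : SimpleGraph V where
  Adj x y := x ≠ y ∧ ((¬ (S x ∧ ¬ W x) ∧ sw τ m W x = y) ∨ (¬ (S y ∧ ¬ W y) ∧ sw τ m W y = x))
  symm := ⟨fun x y h => ⟨h.1.symm, h.2.symm⟩⟩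
  loopless := ⟨fun x h => h.1 rfl⟩

theorem swGraph_le (τ m : Equiv.Perm V) (S W : V → Prop) (G : SimpleGraph V)
    (hm : ∀ x, G.Adj x (m x)) (ht : ∀ x, G.Adj x (τ x)) : swGraph τ m S W ≤ G := by
  have key : ∀ x, G.Adj x (sw τ m W x) := by
    intro x
    unfold sw
    split
    · exact hm x
    · exact ht x
  rintro x y ⟨-, ⟨-, rfl⟩ | ⟨-, rfl⟩⟩
  · exact key x
  · exact (key y).symm

theorem sw_injOn (τ m : Equiv.Perm V) (hmm : ∀ x, m (m x) = x) (T : ℕ) (S : V → Prop)
    (x x' : V) (hx : ¬ (S x ∧ ¬ Hit τ m T S x)) (hx' : ¬ (S x' ∧ ¬ Hit τ m T S x'))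
    (h : sw τ m (Hit τ m T S) x = sw τ m (Hit τ m T S) x') : x = x' := by
  classical
  have key : ∀ x x' : V, ¬ (S x' ∧ ¬ Hit τ m T S x') → Hit τ m T S x → ¬ Hit τ m T S x' →
      m x ≠ τ x' := by
    rintro x x' hx' ⟨i, hi, hs⟩ hn heq
    have e : phi τ m x = x' := by
      unfold phi
      rw [heq]
      simp
    rw [Function.iterate_succ_apply, e] at hs
    cases i with
    | zero => exact hx' ⟨hs, hn⟩
    | succ i => exact hn ⟨i, by omega, hs⟩
  unfold sw at h
  by_cases h1 : Hit τ m T S x <;> by_cases h2 : Hit τ m T S x'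
  · simp only [h1, h2, if_true] at h
    exact m.injective h
  · simp only [h1, h2, if_true, if_false] at h
    exact absurd h (key x x' hx' h1 h2)
  · simp only [h1, h2, if_true, if_false] at h
    exact absurd h.symm (key x' x hx h2 h1)
  · simp only [h1, h2, if_false] at h
    exact τ.injective h

theorem swGraph_nbr (τ m : Equiv.Perm V) (hmm : ∀ x, m (m x) = x) (T : ℕ) (S : V → Prop) (x : V) :
    ∃ a b : V, ∀ y, (swGraph τ m S (Hit τ m T S)).Adj x y → y = a ∨ y = b := by
  classical
  by_cases h : ∃ y, ¬ (S y ∧ ¬ Hit τ m T S y) ∧ sw τ m (Hit τ m T S) y = x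
  · obtain ⟨b, hb, hbx⟩ := h
    refine ⟨sw τ m (Hit τ m T S) x, b, ?_⟩
    rintro y ⟨-, ⟨-, h1⟩ | ⟨h2, h3⟩⟩
    · exact Or.inl h1.symm
    · exact Or.inr (sw_injOn τ m hmm T S y b h2 hb (h3.trans hbx.symm))
  · refine ⟨sw τ m (Hit τ m T S) x, x, ?_⟩
    rintro y ⟨-, ⟨-, h1⟩ | ⟨h2, h3⟩⟩
    · exact Or.inl h1.symm
    · exact absurd ⟨y, h2, h3⟩ h

theorem fiber_bound [Fintype V] {C : Type*} [DecidableEq C] (comp : V → C) (A : Finset C)
    (P : Finset V) (k : ℕ) (h : ∀ c ∈ A, k ≤ (P.filter (fun v => comp v = c)).card) :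
    A.card * k ≤ P.card := by
  classical
  calc A.card * k = ∑ _c ∈ A, k := by rw [Finset.sum_const, smul_eq_mul]
    _ ≤ ∑ c ∈ A, (P.filter (fun v => comp v = c)).card := Finset.sum_le_sum h
    _ = ∑ c ∈ A, ((P.filter (fun v => comp v ∈ A)).filter (fun v => comp v = c)).card := by
        refine Finset.sum_congr rfl fun c hc => ?_
        congr 1
        ext v
        simp only [Finset.mem_filter]
        constructor
        · rintro ⟨h1, rfl⟩; exact ⟨⟨h1, hc⟩, rfl⟩
        · rintro ⟨⟨h1, -⟩, h2⟩; exact ⟨h1, h2⟩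
    _ = (P.filter (fun v => comp v ∈ A)).card := by
        rw [← Finset.card_eq_sum_card_fiberwise]
        intro v hv
        simp only [Finset.coe_filter, Set.mem_ofPred_eq] at hv
        exact hv.2
    _ ≤ P.card := Finset.card_filter_le _ _

/-- Classification of the components without unhit seeds. -/
theorem classify [Fintype V] [DecidableEq V] (τ m : Equiv.Perm V) (hmm : ∀ x, m (m x) = x)
    (g : ℕ) (hLF : LF τ m g) (T r' J : ℕ) (hT : 0 < T) (hr' : r' ≤ g) (W : V → Prop)
    {C : Type*} (comp : V → C) (c : C) (hne : ∃ v, comp v = c)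
    (hτ : ∀ v, comp v = c → ¬ W v → comp (τ v) = c) (hm : ∀ v, comp v = c → W v → comp (m v) = c)
    (U P : Finset V) (hU : ∀ v, (∀ i ≤ r', ¬ W (τ^[i] v)) → comp v = c → v ∈ U)
    (hP : ∀ v, W v → comp v = c → v ∈ P) :
    r' ≤ U.card ∨ J ≤ P.card ∨ (∃ y, comp y = c ∧ W y ∧ W (m y)) ∨
      ∃ y, comp y = c ∧ BadRoot τ m T (2 * r') J W y := by
  classical
  by_cases hI : ∃ v, comp v = c ∧ ∀ i < 2 * r', ¬ W (τ^[i] v)
  · left
    obtain ⟨v, hv, hvi⟩ := hI
    have hin : ∀ i, i ≤ 2 * r' → comp (τ^[i] v) = c := by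
      intro i
      induction i with
      | zero => intro _; exact hv
      | succ i ih =>
        intro hi
        rw [Function.iterate_succ_apply']
        exact hτ _ (ih (by omega)) (hvi i (by omega))
    have : (Finset.range r').card ≤ U.card := by
      refine Finset.card_le_card_of_injOn (fun i => τ^[i] v) ?_ ?_
      · intro i hi
        simp only [Finset.coe_range, Set.mem_Iio] at hi
        simp only [Finset.mem_coe]
        apply hU _ _ (hin i (by omega))
        intro j hj
        rw [← Function.iterate_add_apply]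
        exact hvi _ (by omega)
      · intro i hi j hj hij
        simp only [Finset.coe_range, Set.mem_Iio] at hi hj
        exact tau_inj τ m g hLF i j (by omega) (by omega) v hij
    simpa using this
  · push Not at hI
    by_cases hJ : J ≤ P.card
    · right; left; exact hJ
    by_cases hIV : ∃ y, comp y = c ∧ W y ∧ W (m y)
    · right; right; left; exact hIV
    push Not at hIV
    right; right; right
    -- a hit in c
    obtain ⟨v, hv⟩ := hne
    have hwalk : ∀ v, comp v = c → ∀ i, (∀ j < i, ¬ W (τ^[j] v)) → comp (τ^[i] v) = c := by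
      intro v hv i
      induction i with
      | zero => intro _; exact hv
      | succ i ih =>
        intro hi
        rw [Function.iterate_succ_apply']
        exact hτ _ (ih (fun j hj => hi j (by omega))) (hi i (by omega))
    obtain ⟨y0, hy0, hWy0⟩ : ∃ y0, comp y0 = c ∧ W y0 := by
      have hex : ∃ i, W (τ^[i] v) := by
        obtain ⟨i, -, hi⟩ := hI v hv
        exact ⟨i, hi⟩
      refine ⟨τ^[Nat.find hex] v, hwalk v hv _ (fun j hj => Nat.find_min hex hj),
        Nat.find_spec hex⟩
    -- facts about the return map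
    have hret : ∀ y, comp y = c → W y → comp (ret τ m W y) = c ∧ W (ret τ m W y) ∧
        1 ≤ gap τ m W y ∧ gap τ m W y < 2 * r' := by
      intro y hy hWy
      have hmy := hm y hy hWy
      have hWmy := hIV y hy hWy
      obtain ⟨t, ht, hWt⟩ := hI (m y) hmy
      have hne : {t : ℕ | W (τ^[t] (m y))}.Nonempty := ⟨t, hWt⟩
      have hmem : W (τ^[gap τ m W y] (m y)) := Nat.sInf_mem hne
      refine ⟨?_, hmem, ?_, ?_⟩
      · apply hwalk (m y) hmy
        intro j hj
        exact Nat.notMem_of_lt_sInf hj
      · by_contra h0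
        have h0' : gap τ m W y = 0 := by omega
        rw [h0'] at hmem
        exact hWmy hmem
      · exact lt_of_le_of_lt (Nat.sInf_le hWt) ht
    have hiter : ∀ i, comp ((ret τ m W)^[i] y0) = c ∧ W ((ret τ m W)^[i] y0) := by
      intro i
      induction i with
      | zero => exact ⟨hy0, hWy0⟩
      | succ i ih =>
        rw [Function.iterate_succ_apply']
        obtain ⟨h1, h2, -, -⟩ := hret _ ih.1 ih.2
        exact ⟨h1, h2⟩
    -- pigeonhole
    have hpig : ∃ d, 0 < d ∧ d ≤ J ∧ ∃ i, Near τ m T ((ret τ m W)^[i + d] y0)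
        ((ret τ m W)^[i] y0) := by
      have hlt : P.card < (Finset.range (J + 1)).card := by simp; omega
      obtain ⟨a, ha, b, hb, hab, heq⟩ := Finset.exists_ne_map_eq_of_card_lt_of_maps_to hlt
        (f := fun i => (ret τ m W)^[i] y0) (fun i _ => hP _ (hiter i).2 (hiter i).1)
      rw [Finset.mem_range] at ha hb
      rcases lt_or_gt_of_ne hab with hlt' | hlt'
      · refine ⟨b - a, by omega, by omega, a, ?_⟩
        have : a + (b - a) = b := by omega
        rw [this]
        exact ⟨0, hT, Or.inl heq.symm⟩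
      · refine ⟨a - b, by omega, by omega, b, ?_⟩
        have : b + (a - b) = a := by omega
        rw [this]
        exact ⟨0, hT, Or.inl heq⟩
    have hex : ∃ d, 0 < d ∧ ∃ i, Near τ m T ((ret τ m W)^[i + d] y0) ((ret τ m W)^[i] y0) := by
      obtain ⟨d, h1, -, h2⟩ := hpig
      exact ⟨d, h1, h2⟩
    obtain ⟨hd0, i, hnear⟩ := Nat.find_spec hex
    set d := Nat.find hex with hd
    have hdJ : d ≤ J := by
      obtain ⟨d', h1, h2, h3⟩ := hpig
      exact (Nat.find_min' hex ⟨h1, h3⟩).trans h2
    refine ⟨(ret τ m W)^[i] y0, (hiter i).1, d, hd0, hdJ, ?_, ?_⟩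
    · constructor
      · exact (hiter i).2
      · intro a _
        rw [← Function.iterate_add_apply]
        exact (hret _ (hiter _).1 (hiter _).2).2.2.1
      · intro a _
        rw [← Function.iterate_add_apply]
        exact (hret _ (hiter _).1 (hiter _).2).2.2.2
      · intro a _
        rw [← Function.iterate_add_apply]
        exact (hiter _).2
      · intro a ha b hb hab hn
        rw [← Function.iterate_add_apply, ← Function.iterate_add_apply] at hn
        wlog hlt : a < b generalizing a b
        · exact this b hb a ha hab.symm hn.symm (by omega)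
        apply Nat.find_min hex (m := b - a) (by omega)
        refine ⟨by omega, a + i, ?_⟩
        have : a + i + (b - a) = b + i := by omega
        rw [this]
        exact hn.symm
    · rw [← Function.iterate_add_apply, add_comm]
      exact hnear

end PC70
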