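import Pool.Agent.PC70.Hits

set_option autoImplicit false

namespace PC70

open Finset

variable {V : Type*} [Fintype V] [DecidableEq V]

/-- Resampling bound. -/
theorem card_mul_pow_le {Q : ℕ} [NeZero Q] {k : ℕ} (A : Finset (V → Fin Q))
    (u : (V → Fin Q) → Fin k → V) (hu : ∀ f ∈ A, Function.Injective (u f))
    (h0 : ∀ f ∈ A, ∀ i, f (u f i) = 0)
    (hrec : ∀ f ∈ A, ∀ f' ∈ A, ∀ c c' : Fin k → Fin Q,
      Function.extend (u f) c f = Function.extend (u f') c' f' → u f = u f') :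
    A.card * Q ^ k ≤ Q ^ Fintype.card V := by
  classical
  have h1 : (A ×ˢ (Finset.univ : Finset (Fin k → Fin Q))).card = A.card * Q ^ k := by
    rw [Finset.card_product, Finset.card_univ]
    simp
  have h2 : (Finset.univ : Finset (V → Fin Q)).card = Q ^ Fintype.card V := by
    rw [Finset.card_univ]
    simp
  rw [← h1, ← h2]
  refine Finset.card_le_card_of_injOn (fun p => Function.extend (u p.1) p.2 p.1)
    (fun p _ => Finset.mem_univ _) ?_
  rintro ⟨f, c⟩ hf ⟨f', c'⟩ hf' heq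
  simp only [Finset.coe_product, Set.mem_prod, Finset.mem_coe, Finset.coe_univ, Set.mem_univ,
    and_true] at hf hf'
  simp only at heq
  have hu' := hrec f hf f' hf' c c' heq
  have hcc : c = c' := by
    funext i
    have := congrFun heq (u f i)
    rw [(hu f hf).extend_apply, hu', (hu f' hf').extend_apply] at this
    exact this
  have hff : f = f' := by
    funext x
    by_cases hx : ∃ i, u f i = x
    · obtain ⟨i, rfl⟩ := hx
      rw [h0 f hf i, hu', h0 f' hf' i]
    · have := congrFun heq x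
      rw [Function.extend_apply' _ _ _ hx, Function.extend_apply' _ _ _ (by rwa [← hu'])] at this
      exact this
  rw [hcc, hff]

open Classical in
/-- Proportion of functions with a property. -/
noncomputable def mu {Q : ℕ} (P : (V → Fin Q) → Prop) : ℝ :=
  ((Finset.univ.filter P).card : ℝ) / (Q : ℝ) ^ Fintype.card V

theorem mu_mono {Q : ℕ} (P P' : (V → Fin Q) → Prop) (h : ∀ f, P f → P' f) : mu P ≤ mu P' := by
  classical
  unfold mu
  gcongr with f
  exact h f

theorem mu_union {Q : ℕ} {ι : Type*} [Fintype ι] (P : ι → (V → Fin Q) → Prop) :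
    mu (fun f => ∃ i, P i f) ≤ ∑ i, mu (P i) := by
  classical
  unfold mu
  rw [← Finset.sum_div]
  gcongr
  rw [← Nat.cast_sum]
  norm_cast
  have : (Finset.univ.filter fun f => ∃ i, P i f) =
      Finset.univ.biUnion (fun i => Finset.univ.filter (P i)) := by
    ext f; simp
  convert Finset.card_biUnion_le (s := Finset.univ) (t := fun i => Finset.univ.filter (P i)) using 2
  convert this

theorem mu_union_le {Q : ℕ} {ι : Type*} [Fintype ι] (P : ι → (V → Fin Q) → Prop) (b : ℝ)
    (h : ∀ i, mu (P i) ≤ b) : mu (fun f => ∃ i, P i f) ≤ Fintype.card ι * b := by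
  refine (mu_union P).trans ?_
  refine (Finset.sum_le_sum (fun i _ => h i)).trans ?_
  simp

theorem mu_resample {Q : ℕ} [NeZero Q] {k : ℕ} (P : (V → Fin Q) → Prop)
    (u : (V → Fin Q) → Fin k → V) (hu : ∀ f, P f → Function.Injective (u f))
    (h0 : ∀ f, P f → ∀ i, f (u f i) = 0)
    (hrec : ∀ f, P f → ∀ f', P f' → ∀ c c' : Fin k → Fin Q,
      Function.extend (u f) c f = Function.extend (u f') c' f' → u f = u f') :
    mu P ≤ (1 / (Q : ℝ)) ^ k := by
  classical
  have h := card_mul_pow_le (Finset.univ.filter P) u (fun f hf => hu f (by simpa using hf))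
    (fun f hf => h0 f (by simpa using hf))
    (fun f hf f' hf' => hrec f (by simpa using hf) f' (by simpa using hf'))
  have hQ : (0 : ℝ) < Q := by
    have := NeZero.pos Q
    exact_mod_cast this
  unfold mu
  rw [div_le_iff₀ (by positivity), one_div, inv_pow, ← div_eq_inv_mul, le_div_iff₀ (by positivity)]
  exact_mod_cast h

/-- Averaging. -/
theorem exists_le_avg {Q : ℕ} [NeZero Q] (X : (V → Fin Q) → ℝ) (b : ℝ)
    (h : ∑ f, X f ≤ b * (Q : ℝ) ^ Fintype.card V) : ∃ f, X f ≤ b := by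
  classical
  have h2 : ∑ _f : V → Fin Q, b = b * (Q : ℝ) ^ Fintype.card V := by
    rw [Finset.sum_const, Finset.card_univ]
    simp [mul_comm]
  rw [← h2] at h
  obtain ⟨f, _, hf⟩ := Finset.exists_le_of_sum_le (Finset.univ_nonempty) h
  exact ⟨f, hf⟩

theorem sum_card_le {Q : ℕ} [NeZero Q] (P : (V → Fin Q) → V → Prop)
    [∀ f, DecidablePred (P f)] (b : ℝ)
    (h : ∀ v, mu (fun f => P f v) ≤ b) :
    ∑ f : V → Fin Q, ((Finset.univ.filter (P f)).card : ℝ) ≤
      Fintype.card V * b * (Q : ℝ) ^ Fintype.card V := by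
  have h1 : ∑ f : V → Fin Q, ((Finset.univ.filter (P f)).card : ℝ) =
      ∑ v : V, ((Finset.univ.filter (fun f => P f v)).card : ℝ) := by
    simp only [Finset.card_filter, Nat.cast_sum]
    rw [Finset.sum_comm]
  rw [h1]
  have hQ : (0 : ℝ) < Q := by
    have := NeZero.pos Q
    exact_mod_cast this
  have h2 : ∀ v : V, ((Finset.univ.filter (fun f => P f v)).card : ℝ) ≤
      b * (Q : ℝ) ^ Fintype.card V := by
    intro v
    have := h v
    unfold mu at this
    rw [div_le_iff₀ (by positivity)] at this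
    refine le_of_eq_of_le ?_ this
    congr!
  refine (Finset.sum_le_sum (fun v _ => h2 v)).trans ?_
  rw [Finset.sum_const, Finset.card_univ, nsmul_eq_mul, mul_assoc]

/-- Seeds of a function, inside the set `X`. -/
def Seed (X : V → Prop) {Q : ℕ} [NeZero Q] (f : V → Fin Q) (v : V) : Prop := X v ∧ f v = 0

theorem mu_seed (X : V → Prop) {Q : ℕ} [NeZero Q] (v : V) :
    mu (fun f : V → Fin Q => Seed X f v) ≤ 1 / (Q : ℝ) := by
  have := mu_resample (Q := Q) (k := 1) (fun f => Seed X f v) (fun _ _ => v)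
    (fun f _ => Function.injective_of_subsingleton _) (fun f hf _ => hf.2)
    (fun f _ f' _ c c' _ => rfl)
  simpa using this

theorem mu_hit (X : V → Prop) (τ m : Equiv.Perm V) (T : ℕ) {Q : ℕ} [NeZero Q] (v : V) :
    mu (fun f : V → Fin Q => Hit τ m T (Seed X f) v) ≤ T * (1 / (Q : ℝ)) := by
  have h := mu_union_le (Q := Q) (ι := Fin T)
    (fun i f => Seed X f ((phi τ m)^[(i : ℕ) + 1] v)) (1 / (Q : ℝ)) (fun i => mu_seed X _)
  rw [Fintype.card_fin] at h
  refine le_trans (mu_mono _ _ ?_) h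
  rintro f ⟨i, hi, hs⟩
  exact ⟨⟨i, hi⟩, hs⟩

theorem mu_two (X : V → Prop) (x y : V) (hxy : x ≠ y) {Q : ℕ} [NeZero Q] :
    mu (fun f : V → Fin Q => Seed X f x ∧ Seed X f y) ≤ (1 / (Q : ℝ)) ^ 2 := by
  refine mu_resample (Q := Q) (k := 2) (fun f => Seed X f x ∧ Seed X f y) (fun _ => ![x, y])
    ?_ ?_ ?_
  · intro f _ i j hij
    fin_cases i <;> fin_cases j <;> simp_all
  · rintro f ⟨hx, hy⟩ i
    fin_cases i
    · exact hx.2
    · exact hy.2
  · intro f _ f' _ c c' _
    rfl

theorem mu_hit_m (X : V → Prop) (τ m : Equiv.Perm V) (hmm : ∀ x, m (m x) = x) (g : ℕ)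
    (hLF : LF τ m g) (T : ℕ) (hT : 2 * T ≤ g) {Q : ℕ} [NeZero Q] (v : V) :
    mu (fun f : V → Fin Q => Hit τ m T (Seed X f) v ∧ Hit τ m T (Seed X f) (m v)) ≤
      T * (T * (1 / (Q : ℝ)) ^ 2) := by
  have h := mu_union_le (Q := Q) (ι := Fin T × Fin T)
    (fun p f => Seed X f ((phi τ m)^[(p.1 : ℕ) + 1] v) ∧
      Seed X f ((phi τ m)^[(p.2 : ℕ) + 1] (m v)))
    ((1 / (Q : ℝ)) ^ 2)
    (fun p => mu_two X _ _
      (arc_disjoint τ m T v (m v) (not_near_m τ m hmm g hLF T hT v) _ _ p.1.2 p.2.2))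
  rw [Fintype.card_prod, Fintype.card_fin, Nat.cast_mul, mul_assoc] at h
  refine le_trans (mu_mono _ _ ?_) h
  rintro f ⟨⟨i, hi, hs⟩, ⟨j, hj, hs'⟩⟩
  exact ⟨⟨⟨i, hi⟩, ⟨j, hj⟩⟩, hs, hs'⟩

theorem mu_avoid {Q : ℕ} [NeZero Q] (A : Finset V) :
    mu (fun f : V → Fin Q => ∀ x ∈ A, ¬ f x = 0) = (1 - 1 / (Q : ℝ)) ^ A.card := by
  classical
  have hQ : (0 : ℝ) < Q := by
    have := NeZero.pos Q
    exact_mod_cast this
  have hset : (Finset.univ.filter fun f : V → Fin Q => ∀ x ∈ A, ¬ f x = 0) =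
      Fintype.piFinset (fun x => if x ∈ A then ({0}ᶜ : Finset (Fin Q)) else Finset.univ) := by
    ext f
    simp only [Finset.mem_filter, Finset.mem_univ, true_and, Fintype.mem_piFinset]
    refine forall_congr' fun x => ?_
    by_cases hx : x ∈ A <;> simp [hx]
  have hcard : (((Finset.univ.filter fun f : V → Fin Q => ∀ x ∈ A, ¬ f x = 0)).card : ℝ) =
      ∏ x : V, (if x ∈ A then ((Q : ℝ) - 1) else (Q : ℝ)) := by
    rw [hset, Fintype.card_piFinset, Nat.cast_prod]
    refine Finset.prod_congr rfl fun x _ => ?_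
    by_cases hx : x ∈ A
    · simp only [hx, if_true]
      rw [Finset.card_compl, Finset.card_singleton, Fintype.card_fin,
        Nat.cast_sub (NeZero.one_le)]
      simp
    · simp [hx]
  unfold mu
  have e1 : (Q : ℝ) ^ Fintype.card V = ∏ _x : V, (Q : ℝ) := by
    rw [Finset.prod_const, Finset.card_univ]
  have e2 : (1 - 1 / (Q : ℝ)) ^ A.card = ∏ x : V, (if x ∈ A then (1 - 1 / (Q : ℝ)) else 1) := by
    rw [Finset.prod_ite_mem, Finset.univ_inter, Finset.prod_const]
  rw [e1, e2]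
  have : ((Finset.univ.filter fun f : V → Fin Q => ∀ x ∈ A, ¬ f x = 0).card : ℝ) / ∏ _x : V, (Q : ℝ)
      = ∏ x : V, (if x ∈ A then (1 - 1 / (Q : ℝ)) else 1) := by
    rw [hcard, ← Finset.prod_div_distrib]
    refine Finset.prod_congr rfl fun x _ => ?_
    by_cases hx : x ∈ A
    · simp only [hx, if_true]; field_simp
    · simp only [hx, if_false]; field_simp
  convert this

theorem mu_unhit (X : V → Prop) (τ m : Equiv.Perm V) (hmm : ∀ x, m (m x) = x) (g : ℕ)
    (hLF : LF τ m g) (T r' : ℕ) (hT : r' + 2 * T ≤ g) {Q : ℕ} [NeZero Q] (v : V)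
    (A : Finset ℕ) (hA : ∀ j ∈ A, j ≤ r' ∧ ∀ i < T, X ((phi τ m)^[i + 1] (τ^[j] v)))
    (N : ℕ) (hN : N ≤ A.card) :
    mu (fun f : V → Fin Q => ∀ i ≤ r', ¬ Hit τ m T (Seed X f) (τ^[i] v)) ≤
      (1 - 1 / (Q : ℝ)) ^ (T * N) := by
  classical
  let F : ℕ × ℕ → V := fun p => (phi τ m)^[p.1 + 1] (τ^[p.2] v)
  have hF : Set.InjOn F ((Finset.range T ×ˢ A : Finset (ℕ × ℕ)) : Set (ℕ × ℕ)) := by
    rintro ⟨i, j⟩ hij ⟨i', j'⟩ hij' h
    simp only [Finset.coe_product, Set.mem_prod, Finset.mem_coe, Finset.mem_range] at hij hij'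
    simp only [F] at h
    have hj : j = j' := by
      by_contra hne
      wlog hlt : j < j' generalizing i j i' j'
      · exact this i' j' i j h.symm hij' hij (fun h => hne h.symm) (by omega)
      have e : τ^[j'] v = τ^[j' - j] (τ^[j] v) := by
        rw [← Function.iterate_add_apply]
        congr 2
        omega
      rw [e] at h
      have hj' := (hA j' hij'.2).1
      exact arc_disjoint τ m T _ _ (not_near_tau τ m hmm g hLF T _ (by omega) (by omega) _) _ _
        hij.1 hij'.1 h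
    subst hj
    have hi := hij.1
    have hi' := hij'.1
    rw [Function.iterate_succ_apply', Function.iterate_succ_apply'] at h
    have := phi_inj τ m g hLF i i' (by omega) (by omega) _ (phi_injective τ m h)
    rw [this]
  have hcard : ((Finset.range T ×ˢ A).image F).card = T * A.card := by
    rw [Finset.card_image_of_injOn hF, Finset.card_product, Finset.card_range]
  have hQ : (1 : ℝ) ≤ Q := by
    have := NeZero.one_le (n := Q)
    exact_mod_cast this
  have hb0 : 0 ≤ 1 - 1 / (Q : ℝ) := by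
    rw [sub_nonneg, div_le_one (by linarith)]
    exact hQ
  have hb1 : 1 - 1 / (Q : ℝ) ≤ 1 := by
    have : 0 ≤ 1 / (Q : ℝ) := by positivity
    linarith
  refine le_trans ?_ (pow_le_pow_of_le_one hb0 hb1 (Nat.mul_le_mul_left T hN))
  rw [← hcard, ← mu_avoid]
  apply mu_mono
  intro f hf x hx hs
  rw [Finset.mem_image] at hx
  obtain ⟨⟨i, j⟩, hij, rfl⟩ := hx
  rw [Finset.mem_product, Finset.mem_range] at hij
  have h1 := hA j hij.2
  exact hf j h1.1 ⟨i, hij.1, h1.2 i hij.1, hs⟩

end PC70
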