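import Pool.Agent.PC70.Words

set_option autoImplicit false

namespace PC70

variable {V : Type*}

/-- Two vertices are near if they differ by fewer than `T` steps of `φ`. -/
def Near (τ m : Equiv.Perm V) (T : ℕ) (y y' : V) : Prop :=
  ∃ k < T, y = (phi τ m)^[k] y' ∨ y' = (phi τ m)^[k] y

theorem Near.symm {τ m : Equiv.Perm V} {T : ℕ} {y y' : V} (h : Near τ m T y y') :
    Near τ m T y' y := by
  obtain ⟨k, hk, h⟩ := h
  exact ⟨k, hk, h.symm⟩

theorem run_replicate (τ m : Equiv.Perm V) (a : ℕ) (x : V) :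
    run τ m (List.replicate a .t) x = τ^[a] x := by
  induction a generalizing x with
  | zero => rfl
  | succ a ih =>
    rw [List.replicate_succ, Function.iterate_succ_apply]
    simp only [run, act]
    rw [ih]

theorem tau_iterate_injective (τ : Equiv.Perm V) (a : ℕ) : Function.Injective (⇑τ)^[a] :=
  τ.injective.iterate a

theorem tau_ne (τ m : Equiv.Perm V) (g : ℕ) (hLF : LF τ m g) (i : ℕ) (hi : 0 < i) (hig : i < g)
    (x : V) : τ^[i] x ≠ x := by
  rw [← run_replicate τ m]
  exact hLF _ (by simp; omega) (by simpa using hig) (reduced_replicate i) x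

theorem tau_inj (τ m : Equiv.Perm V) (g : ℕ) (hLF : LF τ m g) (i j : ℕ) (hi : i < g) (hj : j < g)
    (x : V) (h : τ^[i] x = τ^[j] x) : i = j := by
  wlog hij : i ≤ j generalizing i j
  · exact (this j i hj hi h.symm (by omega)).symm
  by_contra hne
  obtain ⟨d, rfl⟩ : ∃ d, j = i + d := ⟨j - i, by omega⟩
  rw [Function.iterate_add_apply] at h
  exact tau_ne τ m g hLF d (by omega) (by omega) x (tau_iterate_injective τ i h).symm

theorem phi_ne (τ m : Equiv.Perm V) (g : ℕ) (hLF : LF τ m g) (k : ℕ) (hk : 0 < k) (hkg : 2 * k < g)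
    (x : V) : (phi τ m)^[k] x ≠ x := by
  rw [← run_phiw τ m]
  refine hLF _ ?_ (by rw [phiw_length]; exact hkg) (reduced_phiw k) x
  intro h
  have := phiw_length k
  rw [h] at this
  simp at this
  omega

theorem phi_inj (τ m : Equiv.Perm V) (g : ℕ) (hLF : LF τ m g) (i j : ℕ) (hi : 2 * i < g)
    (hj : 2 * j < g) (x : V) (h : (phi τ m)^[i] x = (phi τ m)^[j] x) : i = j := by
  wlog hij : i ≤ j generalizing i j
  · exact (this j i hj hi h.symm (by omega)).symm
  by_contra hne
  obtain ⟨d, rfl⟩ : ∃ d, j = i + d := ⟨j - i, by omega⟩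
  rw [Function.iterate_add_apply] at h
  exact phi_ne τ m g hLF d (by omega) (by omega) x ((phi_injective τ m).iterate i h).symm

theorem reduced_t_phi (i k : ℕ) : Reduced (List.replicate i .t ++ phiw k) := by
  apply reduced_append _ _ (reduced_replicate i) (reduced_phiw k)
  intro c hc d hd
  rw [replicate_last i c hc]
  cases k with
  | zero => simp [phiw] at hd
  | succ k =>
    simp [phiw] at hd
    rw [← hd]
    simp [Letter.inv]

theorem phi_tau_ne (τ m : Equiv.Perm V) (g : ℕ) (hLF : LF τ m g) (i k : ℕ) (hi : 0 < i)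
    (hg : i + 2 * k < g) (x : V) : (phi τ m)^[k] (τ^[i] x) ≠ x := by
  rw [← run_phiw τ m, ← run_replicate τ m, ← run_append]
  refine hLF _ ?_ (by simp [phiw_length]; omega) (reduced_t_phi i k) x
  simp
  omega

theorem phi_ne_tau (τ m : Equiv.Perm V) (hmm : ∀ x, m (m x) = x) (g : ℕ) (hLF : LF τ m g)
    (i k : ℕ) (hi : 0 < i) (hg : i + 2 * k < g) (x : V) : (phi τ m)^[k] x ≠ τ^[i] x := by
  rw [← run_phiw τ m, ← run_replicate τ m]
  intro h
  have := uni τ m hmm g hLF _ _ (reduced_phiw k) (reduced_replicate i)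
    (by simp [phiw_length]; omega) x h
  cases k with
  | zero =>
    simp [phiw] at this
    omega
  | succ k =>
    obtain ⟨j, rfl⟩ : ∃ j, i = j + 1 := ⟨i - 1, by omega⟩
    simp [phiw, List.replicate_succ] at this

theorem not_near_tau (τ m : Equiv.Perm V) (hmm : ∀ x, m (m x) = x) (g : ℕ) (hLF : LF τ m g)
    (T i : ℕ) (hi : 0 < i) (hg : i + 2 * T ≤ g) (x : V) : ¬ Near τ m T x (τ^[i] x) := by
  rintro ⟨k, hk, h | h⟩
  · exact phi_tau_ne τ m g hLF i k hi (by omega) x h.symm
  · exact phi_ne_tau τ m hmm g hLF i k hi (by omega) x h.symm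

theorem phi_ne_m (τ m : Equiv.Perm V) (hmm : ∀ x, m (m x) = x) (g : ℕ) (hLF : LF τ m g)
    (k : ℕ) (hg : 2 * k + 1 < g) (x : V) : (phi τ m)^[k] x ≠ m x := by
  rw [← run_phiw τ m]
  intro h
  have h1 : m x = run τ m [.m] x := rfl
  rw [h1] at h
  have := uni τ m hmm g hLF _ _ (reduced_phiw k) (by simp [Reduced])
    (by simp [phiw_length]; omega) x h
  have h2 := congrArg List.length this
  rw [phiw_length] at h2
  simp only [List.length_cons, List.length_nil] at h2
  omega

theorem not_near_m (τ m : Equiv.Perm V) (hmm : ∀ x, m (m x) = x) (g : ℕ) (hLF : LF τ m g)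
    (T : ℕ) (hg : 2 * T ≤ g) (x : V) : ¬ Near τ m T x (m x) := by
  rintro ⟨k, hk, h | h⟩
  · apply phi_ne_m τ m hmm g hLF k (by omega) (m x)
    rw [← h, hmm]
  · exact phi_ne_m τ m hmm g hLF k (by omega) x h.symm

/-- Backward arcs of two vertices that are not near are disjoint. -/
theorem arc_disjoint (τ m : Equiv.Perm V) (T : ℕ) (y y' : V) (h : ¬ Near τ m T y y')
    (i j : ℕ) (hi : i < T) (hj : j < T) : (phi τ m)^[i + 1] y ≠ (phi τ m)^[j + 1] y' := by
  intro heq
  apply h
  rcases le_total i j with hij | hij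
  · refine ⟨j - i, by omega, Or.inl ?_⟩
    have : j + 1 = (i + 1) + (j - i) := by omega
    rw [this, Function.iterate_add_apply (phi τ m) (i + 1) (j - i) y'] at heq
    exact (phi_injective τ m).iterate (i + 1) heq
  · refine ⟨i - j, by omega, Or.inr ?_⟩
    have : i + 1 = (j + 1) + (i - j) := by omega
    rw [this, Function.iterate_add_apply (phi τ m) (j + 1) (i - j) y] at heq
    exact ((phi_injective τ m).iterate (j + 1) heq).symm

/-- Closed relation, first form. -/
theorem gw_ne_phi (τ m : Equiv.Perm V) (hmm : ∀ x, m (m x) = x) (g : ℕ) (hLF : LF τ m g)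
    (l : List ℕ) (hl : l ≠ []) (h1 : ∀ a ∈ l, 1 ≤ a) (k : ℕ) (hg : (gw l).length + 2 * k < g)
    (x : V) : run τ m (gw l) x ≠ (phi τ m)^[k] x := by
  rw [← run_phiw τ m]
  intro h
  have := uni τ m hmm g hLF _ _ (reduced_gw l h1) (reduced_phiw k)
    (by rw [phiw_length]; exact hg) x h
  cases l with
  | nil => exact hl rfl
  | cons a l =>
    have h2 := h1 a List.mem_cons_self
    obtain ⟨b, rfl⟩ : ∃ b, a = b + 1 := ⟨a - 1, by omega⟩
    cases k with
    | zero => simp [gw, phiw] at this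
    | succ k => simp [gw, phiw, List.replicate_succ] at this

/-- Closed relation, second form. -/
theorem phi_gw_ne (τ m : Equiv.Perm V) (g : ℕ) (hLF : LF τ m g)
    (l : List ℕ) (hl : l ≠ []) (h1 : ∀ a ∈ l, 1 ≤ a) (k : ℕ) (hg : (gw l).length + 2 * k < g)
    (x : V) : (phi τ m)^[k] (run τ m (gw l) x) ≠ x := by
  rw [← run_phiw τ m, ← run_append]
  refine hLF _ ?_ (by rw [List.length_append, phiw_length]; exact hg) ?_ x
  · cases l with
    | nil => exact absurd rfl hl
    | cons a l => simp [gw]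
  · apply reduced_append _ _ (reduced_gw l h1) (reduced_phiw k)
    intro c hc d hd
    rw [gw_last l h1 c hc]
    cases k with
    | zero => simp [phiw] at hd
    | succ k =>
      simp [phiw] at hd
      rw [← hd]
      simp [Letter.inv]

theorem near_gw (τ m : Equiv.Perm V) (hmm : ∀ x, m (m x) = x) (g : ℕ) (hLF : LF τ m g)
    (l : List ℕ) (hl : l ≠ []) (h1 : ∀ a ∈ l, 1 ≤ a) (T : ℕ) (hg : (gw l).length + 2 * T ≤ g + 1)
    (x : V) : ¬ Near τ m T (run τ m (gw l) x) x := by
  rintro ⟨k, hk, h | h⟩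
  · exact gw_ne_phi τ m hmm g hLF l hl h1 k (by omega) x h
  · exact phi_gw_ne τ m g hLF l hl h1 k (by omega) x h.symm

/-- Uniqueness of routes. -/
theorem gw_unique (τ m : Equiv.Perm V) (hmm : ∀ x, m (m x) = x) (g : ℕ) (hLF : LF τ m g)
    (l l' : List ℕ) (h1 : ∀ a ∈ l, 1 ≤ a) (h1' : ∀ a ∈ l', 1 ≤ a)
    (hg : (gw l).length + (gw l').length < g) (x : V)
    (h : run τ m (gw l) x = run τ m (gw l') x) : l = l' :=
  gw_injective _ _ (uni τ m hmm g hLF _ _ (reduced_gw l h1) (reduced_gw l' h1') hg x h)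

end PC70
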