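import Mathlib

/-!
MP_f325cf_co: even subgraphs have at least girth many edges, and the graph surgery for cages.
-/

set_option autoImplicit false

namespace PC70

open SimpleGraph Finset

variable {V : Type*}

theorem degree_inst {W : Type*} (H : SimpleGraph W) (v : W) (i j : Fintype (H.neighborSet v)) :
    @degree W H v i = @degree W H v j := by
  have h : i = j := Subsingleton.elim i j
  rw [h]

/-- A finite graph with an edge and no vertex of degree one has a cycle. -/
theorem not_isAcyclic_of_no_leaf [Fintype V] (F : SimpleGraph V) [DecidableRel F.Adj] {x y : V}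
    (hxy : F.Adj x y) (hd : ∀ v, F.degree v ≠ 1) : ¬ F.IsAcyclic := by
  classical
  intro hac
  set c := F.connectedComponentMk x with hc
  have ht : c.toSimpleGraph.IsTree := hac.isTree_connectedComponent c
  have hx : x ∈ c.supp := rfl
  have hy : y ∈ c.supp := ConnectedComponent.sound hxy.reachable.symm
  have : Nontrivial c := ⟨⟨⟨x, hx⟩, ⟨y, hy⟩, fun h => hxy.ne (congrArg Subtype.val h)⟩⟩
  have : DecidableRel c.toSimpleGraph.Adj := Classical.decRel _
  obtain ⟨v, hv⟩ := ht.exists_vert_degree_one_of_nontrivial
  apply hd v.1
  have hsub : F.neighborSet v.1 ⊆ c.supp := by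
    intro w hw
    have hw' : F.Adj v.1 w := hw
    have h1 : F.connectedComponentMk v.1 = c := v.2
    have h2 : F.connectedComponentMk w = F.connectedComponentMk v.1 :=
      ConnectedComponent.sound hw'.reachable.symm
    exact h2.trans h1
  have h3 := degree_induce_of_neighborSet_subset (G := F) (s := c.supp) (v := v) hsub
  rw [← h3]
  rw [← hv]
  exact degree_inst (F.induce c.supp) v _ _

/-- A nonempty subgraph with all degrees even has at least girth many edges. -/
theorem egirth_le_card_of_even [Fintype V] {G F : SimpleGraph V} [DecidableRel F.Adj]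
    (hF : F ≤ G) {x y : V} (hxy : F.Adj x y) (hd : ∀ v, Even (F.degree v)) :
    G.egirth ≤ F.edgeFinset.card := by
  classical
  have hna : ¬ F.IsAcyclic := not_isAcyclic_of_no_leaf F hxy fun v hv => by
    have := hd v
    rw [hv] at this
    exact absurd this (by decide)
  obtain ⟨a, w, hw, -⟩ := exists_egirth_eq_length.2 hna
  have h1 : F.egirth ≤ w.length := egirth_le_length hw
  have h2 : w.length ≤ F.edgeFinset.card := by
    rw [← w.length_edges]
    have h3 : w.edges.toFinset ⊆ F.edgeFinset := fun e he => by
      rw [mem_edgeFinset]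
      exact w.edges_subset_edgeSet (List.mem_toFinset.1 he)
    rw [← List.toFinset_card_of_nodup hw.isTrail.edges_nodup]
    exact card_le_card h3
  exact le_trans (egirth_anti hF) (le_trans h1 (by exact_mod_cast h2))

/-- The spanning graph of the edges of a cycle. -/
theorem exists_even_of_cycle [Fintype V] {H : SimpleGraph V} {a : V} {w : H.Walk a a}
    (hw : w.IsCycle) :
    ∃ (K : SimpleGraph V) (_ : DecidableRel K.Adj), K ≤ H ∧ (∃ x y, K.Adj x y) ∧
      (∀ v, Even (K.degree v)) ∧ K.edgeFinset.card = w.length := by
  classical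
  obtain ⟨K, hK⟩ : ∃ K : SimpleGraph V, K = fromEdgeSet {e | e ∈ w.edges} := ⟨_, rfl⟩
  have hKe : ∀ e, e ∈ K.edgeSet ↔ e ∈ w.edges := by
    intro e
    rw [hK, edgeSet_fromEdgeSet]
    exact ⟨fun h => h.1, fun h => ⟨h, fun hd =>
      (H.not_isDiag_of_mem_edgeSet (w.edges_subset_edgeSet h)) hd⟩⟩
  refine ⟨K, Classical.decRel _, ?_, ?_, ?_, ?_⟩
  · intro x y hxy
    exact w.adj_of_mem_edges ((hKe s(x, y)).1 hxy)
  · have hne : w.edges ≠ [] := by
      intro h
      have h1 := w.length_edges
      rw [h] at h1
      have := hw.three_le_length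
      simp at h1
      omega
    obtain ⟨e, he⟩ := List.exists_mem_of_ne_nil _ hne
    induction e with
    | h x y => exact ⟨x, y, (hKe s(x, y)).2 he⟩
  · intro v
    have h1 := (hw.isTrail.even_countP_edges_iff v).2 (fun h => absurd rfl h)
    have h2 : w.edges.countP (fun e => v ∈ e) = (w.edges.toFinset.filter (fun e => v ∈ e)).card := by
      rw [List.countP_eq_length_filter, ← List.toFinset_card_of_nodup
        (hw.isTrail.edges_nodup.filter _)]
      congr 1
      ext e
      simp
    rw [h2] at h1
    rw [← card_incidenceFinset_eq_degree]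
    convert h1 using 2
    ext e
    rw [mem_incidenceFinset, mem_filter, List.mem_toFinset, ← hKe]
    rfl
  · rw [← w.length_edges, ← List.toFinset_card_of_nodup hw.isTrail.edges_nodup]
    congr 1
    ext e
    rw [mem_edgeFinset, List.mem_toFinset, hKe]

end PC70
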