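import Pool.Agent.PC70.HandC1

/-!
MP_f325cf_co: the graph surgery for cages with two pendant blocks.
-/

set_option autoImplicit false

namespace PC70

open SimpleGraph Finset

variable {V : Type*}

/-- `A` is joined to the rest of the graph by the single edge `x y`. -/
structure Pend (G : SimpleGraph V) (A : Finset V) (x y : V) : Prop where
  hx : x ∈ A
  hy : y ∉ A
  adj : G.Adj x y
  only : ∀ u v, u ∈ A → v ∉ A → G.Adj u v → u = x ∧ v = y

/-- The data of the surgery. -/
structure Surg (G : SimpleGraph V) (A₁ A₂ : Finset V) (x₁ y₁ x₂ y₂ p q : V) : Prop where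
  P₁ : Pend G A₁ x₁ y₁
  P₂ : Pend G A₂ x₂ y₂
  disj : ∀ v, v ∈ A₁ → v ∉ A₂
  y₁A₂ : y₁ ∉ A₂
  y₂A₁ : y₂ ∉ A₁
  pA : p ∈ A₁
  qA : q ∈ A₁
  xp : G.Adj x₁ p
  xq : G.Adj x₁ q
  pq : p ≠ q
  nb : ∀ v, G.Adj x₁ v → v = y₁ ∨ v = p ∨ v = q

/-- The graph after the surgery (on all vertices; the removed vertices are isolated). -/
def surg (G : SimpleGraph V) (A₂ : Finset V) (x₁ y₁ y₂ p q : V) (h1 : y₁ ≠ p) (h2 : y₂ ≠ q) :
    SimpleGraph V where
  Adj u v := (G.Adj u v ∧ (u ∉ A₂ ∧ u ≠ x₁) ∧ (v ∉ A₂ ∧ v ≠ x₁)) ∨ (u = y₁ ∧ v = p) ∨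
    (u = p ∧ v = y₁) ∨ (u = y₂ ∧ v = q) ∨ (u = q ∧ v = y₂)
  symm := ⟨by
    intro u v h
    rcases h with ⟨h, h', h''⟩ | h | h | h | h
    · exact Or.inl ⟨h.symm, h'', h'⟩
    · exact Or.inr (Or.inr (Or.inl ⟨h.2, h.1⟩))
    · exact Or.inr (Or.inl ⟨h.2, h.1⟩)
    · exact Or.inr (Or.inr (Or.inr (Or.inr ⟨h.2, h.1⟩)))
    · exact Or.inr (Or.inr (Or.inr (Or.inl ⟨h.2, h.1⟩)))⟩
  loopless := ⟨by
    intro u h
    rcases h with ⟨h, -, -⟩ | h | h | h | h
    · exact G.loopless.irrefl u h
    · exact h1 (h.1.symm.trans h.2)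
    · exact h1 (h.2.symm.trans h.1)
    · exact h2 (h.1.symm.trans h.2)
    · exact h2 (h.2.symm.trans h.1)⟩

variable {G : SimpleGraph V} {A₁ A₂ : Finset V} {x₁ y₁ x₂ y₂ p q : V}

theorem Surg.y₁p (h : Surg G A₁ A₂ x₁ y₁ x₂ y₂ p q) : y₁ ≠ p := fun e => h.P₁.hy (e ▸ h.pA)
theorem Surg.y₁q (h : Surg G A₁ A₂ x₁ y₁ x₂ y₂ p q) : y₁ ≠ q := fun e => h.P₁.hy (e ▸ h.qA)
theorem Surg.y₂p (h : Surg G A₁ A₂ x₁ y₁ x₂ y₂ p q) : y₂ ≠ p := fun e => h.y₂A₁ (e ▸ h.pA)
theorem Surg.y₂q (h : Surg G A₁ A₂ x₁ y₁ x₂ y₂ p q) : y₂ ≠ q := fun e => h.y₂A₁ (e ▸ h.qA)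
theorem Surg.y₁x₁ (h : Surg G A₁ A₂ x₁ y₁ x₂ y₂ p q) : y₁ ≠ x₁ := h.P₁.adj.ne.symm
theorem Surg.y₂x₁ (h : Surg G A₁ A₂ x₁ y₁ x₂ y₂ p q) : y₂ ≠ x₁ := fun e => h.y₂A₁ (e ▸ h.P₁.hx)
theorem Surg.x₁x₂ (h : Surg G A₁ A₂ x₁ y₁ x₂ y₂ p q) : x₁ ≠ x₂ := fun e =>
  h.disj x₁ h.P₁.hx (e ▸ h.P₂.hx)

theorem card_swap [DecidableEq V] {S : Finset V} {a b : V} (ha : a ∈ S) (hb : b ∉ S) :
    (insert b (S.erase a)).card = S.card := by
  rw [card_insert_of_notMem (fun h => hb (mem_of_mem_erase h)), card_erase_of_mem ha]
  have := card_pos.2 ⟨a, ha⟩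
  omega

/-- the new graph is cubic on the remaining vertices -/
theorem Surg.degree [Fintype V] [DecidableEq V] [DecidableRel G.Adj]
    (h : Surg G A₁ A₂ x₁ y₁ x₂ y₂ p q) (hreg : G.IsRegularOfDegree 3)
    [DecidableRel (surg G A₂ x₁ y₁ y₂ p q h.y₁p h.y₂q).Adj] {v : V} (hv : v ∉ A₂) (hv' : v ≠ x₁) :
    (surg G A₂ x₁ y₁ y₂ p q h.y₁p h.y₂q).degree v = 3 := by
  have hdeg : (G.neighborFinset v).card = 3 := by
    rw [card_neighborFinset_eq_degree]; exact hreg v
  rw [← card_neighborFinset_eq_degree]
  -- facts on neighbours in the removed part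
  have hA₂ : ∀ u, G.Adj v u → u ∈ A₂ → u = x₂ ∧ v = y₂ := fun u hvu hu =>
    h.P₂.only u v hu hv hvu.symm
  have hx₁ : G.Adj v x₁ → v = y₁ ∨ v = p ∨ v = q := fun hvu => h.nb v hvu.symm
  by_cases hp : v = p
  · subst hp
    have e : (surg G A₂ x₁ y₁ y₂ v q h.y₁p h.y₂q).neighborFinset v
        = insert y₁ ((G.neighborFinset v).erase x₁) := by
      ext u
      rw [mem_neighborFinset, mem_insert, mem_erase, mem_neighborFinset]
      constructor
      · rintro (⟨g1, -, g2⟩ | g | g | g | g)
        · exact Or.inr ⟨g2.2, g1⟩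
        · exact absurd g.1.symm h.y₁p
        · exact Or.inl g.2
        · exact absurd g.1.symm h.y₂p
        · exact absurd g.1 h.pq
      · rintro (g | ⟨g1, g2⟩)
        · exact Or.inr (Or.inr (Or.inl ⟨rfl, g⟩))
        · refine Or.inl ⟨g2, ⟨hv, hv'⟩, ⟨fun hu => ?_, g1⟩⟩
          exact h.y₂p (hA₂ u g2 hu).2.symm
    rw [e, card_swap, hdeg]
    · rw [mem_neighborFinset]; exact h.xp.symm
    · rw [mem_neighborFinset]
      intro g
      exact hv' (h.P₁.only v y₁ h.pA h.P₁.hy g).1
  by_cases hq : v = q
  · subst hq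
    have e : (surg G A₂ x₁ y₁ y₂ p v h.y₁p h.y₂q).neighborFinset v
        = insert y₂ ((G.neighborFinset v).erase x₁) := by
      ext u
      rw [mem_neighborFinset, mem_insert, mem_erase, mem_neighborFinset]
      constructor
      · rintro (⟨g1, -, g2⟩ | g | g | g | g)
        · exact Or.inr ⟨g2.2, g1⟩
        · exact absurd g.1.symm h.y₁q
        · exact absurd g.1 hp
        · exact absurd g.1.symm h.y₂q
        · exact Or.inl g.2
      · rintro (g | ⟨g1, g2⟩)
        · exact Or.inr (Or.inr (Or.inr (Or.inr ⟨rfl, g⟩)))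
        · refine Or.inl ⟨g2, ⟨hv, hv'⟩, ⟨fun hu => ?_, g1⟩⟩
          exact h.y₂q (hA₂ u g2 hu).2.symm
    rw [e, card_swap, hdeg]
    · rw [mem_neighborFinset]; exact h.xq.symm
    · rw [mem_neighborFinset]
      intro g
      exact hv' (h.P₁.only v y₂ h.qA h.y₂A₁ g).1
  by_cases hy₁ : v = y₁
  · by_cases hy₂ : v = y₂
    · -- both
      have hyy : y₂ = y₁ := hy₂.symm.trans hy₁
      have e : (surg G A₂ x₁ y₁ y₂ p q h.y₁p h.y₂q).neighborFinset v
          = insert q ((insert p ((G.neighborFinset v).erase x₁)).erase x₂) := by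
        ext u
        rw [mem_neighborFinset, mem_insert, mem_erase, mem_insert, mem_erase, mem_neighborFinset]
        constructor
        · rintro (⟨g1, -, g2⟩ | g | g | g | g)
          · exact Or.inr ⟨fun hu => g2.1 (hu ▸ h.P₂.hx), Or.inr ⟨g2.2, g1⟩⟩
          · refine Or.inr ⟨fun hu => ?_, Or.inl g.2⟩
            exact h.disj p h.pA (g.2 ▸ hu ▸ h.P₂.hx)
          · exact absurd g.1 hp
          · exact Or.inl g.2
          · exact absurd g.1 hq
        · rintro (g | ⟨g1, g2 | ⟨g2, g3⟩⟩)
          · exact Or.inr (Or.inr (Or.inr (Or.inl ⟨hy₂, g⟩)))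
          · exact Or.inr (Or.inl ⟨hy₁, g2⟩)
          · refine Or.inl ⟨g3, ⟨hv, hv'⟩, ⟨fun hu => ?_, g2⟩⟩
            exact g1 (hA₂ u g3 hu).1
      rw [e, card_swap, card_swap, hdeg]
      · rw [mem_neighborFinset, hy₁]; exact h.P₁.adj.symm
      · rw [mem_neighborFinset]
        intro g
        rw [hy₁] at g
        exact h.xp.ne (h.P₁.only p y₁ h.pA h.P₁.hy g.symm).1.symm
      · refine mem_insert_of_mem (mem_erase.2 ⟨h.x₁x₂.symm, ?_⟩)
        rw [mem_neighborFinset, hy₂]; exact h.P₂.adj.symm
      · rw [mem_insert, mem_erase, mem_neighborFinset]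
        rintro (g | ⟨-, g⟩)
        · exact h.pq g.symm
        · rw [hy₁] at g
          exact h.xq.ne (h.P₁.only q y₁ h.qA h.P₁.hy g.symm).1.symm
    · have e : (surg G A₂ x₁ y₁ y₂ p q h.y₁p h.y₂q).neighborFinset v
          = insert p ((G.neighborFinset v).erase x₁) := by
        ext u
        rw [mem_neighborFinset, mem_insert, mem_erase, mem_neighborFinset]
        constructor
        · rintro (⟨g1, -, g2⟩ | g | g | g | g)
          · exact Or.inr ⟨g2.2, g1⟩
          · exact Or.inl g.2
          · exact absurd g.1 hp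
          · exact absurd g.1 hy₂
          · exact absurd g.1 hq
        · rintro (g | ⟨g1, g2⟩)
          · exact Or.inr (Or.inl ⟨hy₁, g⟩)
          · refine Or.inl ⟨g2, ⟨hv, hv'⟩, ⟨fun hu => ?_, g1⟩⟩
            exact hy₂ (hA₂ u g2 hu).2
      rw [e, card_swap, hdeg]
      · rw [mem_neighborFinset, hy₁]; exact h.P₁.adj.symm
      · rw [mem_neighborFinset]
        intro g
        rw [hy₁] at g
        exact h.xp.ne (h.P₁.only p y₁ h.pA h.P₁.hy g.symm).1.symm
  · by_cases hy₂ : v = y₂
    · have e : (surg G A₂ x₁ y₁ y₂ p q h.y₁p h.y₂q).neighborFinset v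
          = insert q ((G.neighborFinset v).erase x₂) := by
        ext u
        rw [mem_neighborFinset, mem_insert, mem_erase, mem_neighborFinset]
        constructor
        · rintro (⟨g1, -, g2⟩ | g | g | g | g)
          · exact Or.inr ⟨fun hu => g2.1 (hu ▸ h.P₂.hx), g1⟩
          · exact absurd g.1 hy₁
          · exact absurd g.1 hp
          · exact Or.inl g.2
          · exact absurd g.1 hq
        · rintro (g | ⟨g1, g2⟩)
          · exact Or.inr (Or.inr (Or.inr (Or.inl ⟨hy₂, g⟩)))
          · refine Or.inl ⟨g2, ⟨hv, hv'⟩, ⟨fun hu => g1 (hA₂ u g2 hu).1, fun hu => ?_⟩⟩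
            rcases hx₁ (hu ▸ g2) with g3 | g3 | g3
            · exact hy₁ g3
            · exact hp g3
            · exact hq g3
      rw [e, card_swap, hdeg]
      · rw [mem_neighborFinset, hy₂]; exact h.P₂.adj.symm
      · rw [mem_neighborFinset]
        intro g
        rw [hy₂] at g
        exact h.xq.ne (h.P₁.only q y₂ h.qA h.y₂A₁ g.symm).1.symm
    · have e : (surg G A₂ x₁ y₁ y₂ p q h.y₁p h.y₂q).neighborFinset v = G.neighborFinset v := by
        ext u
        rw [mem_neighborFinset, mem_neighborFinset]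
        constructor
        · rintro (⟨g1, -, g2⟩ | g | g | g | g)
          · exact g1
          · exact absurd g.1 hy₁
          · exact absurd g.1 hp
          · exact absurd g.1 hy₂
          · exact absurd g.1 hq
        · intro g
          refine Or.inl ⟨g, ⟨hv, hv'⟩, ⟨fun hu => hy₂ (hA₂ u g hu).2, fun hu => ?_⟩⟩
          rcases hx₁ (hu ▸ g) with g3 | g3 | g3
          · exact hy₁ g3
          · exact hp g3
          · exact hq g3
      rw [e, hdeg]

/-- The part of an even subgraph `K` of the new graph inside the block `A₁`, closed up at `x₁`. -/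
def fold (K : SimpleGraph V) (A₁ : Finset V) (x₁ y₁ y₂ p q : V) (hp : x₁ ≠ p) (hq : x₁ ≠ q) :
    SimpleGraph V where
  Adj u v := (K.Adj u v ∧ (u ∈ A₁ ∧ u ≠ x₁) ∧ (v ∈ A₁ ∧ v ≠ x₁)) ∨
    (K.Adj y₁ p ∧ u = x₁ ∧ v = p) ∨ (K.Adj y₁ p ∧ u = p ∧ v = x₁) ∨
    (K.Adj y₂ q ∧ u = x₁ ∧ v = q) ∨ (K.Adj y₂ q ∧ u = q ∧ v = x₁)
  symm := ⟨by
    intro u v h
    rcases h with ⟨h, h', h''⟩ | h | h | h | h
    · exact Or.inl ⟨h.symm, h'', h'⟩
    · exact Or.inr (Or.inr (Or.inl ⟨h.1, h.2.2, h.2.1⟩))
    · exact Or.inr (Or.inl ⟨h.1, h.2.2, h.2.1⟩)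
    · exact Or.inr (Or.inr (Or.inr (Or.inr ⟨h.1, h.2.2, h.2.1⟩)))
    · exact Or.inr (Or.inr (Or.inr (Or.inl ⟨h.1, h.2.2, h.2.1⟩)))⟩
  loopless := ⟨by
    intro u h
    rcases h with ⟨h, -, -⟩ | h | h | h | h
    · exact K.loopless.irrefl u h
    · exact hp (h.2.1.symm.trans h.2.2)
    · exact hp (h.2.2.symm.trans h.2.1)
    · exact hq (h.2.1.symm.trans h.2.2)
    · exact hq (h.2.2.symm.trans h.2.1)⟩

/-- Even subgraphs of the new graph are not smaller than the girth of the old one. -/
theorem Surg.egirth_le_card [Fintype V]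
    (h : Surg G A₁ A₂ x₁ y₁ x₂ y₂ p q) {K : SimpleGraph V} [DecidableRel K.Adj]
    (hK : K ≤ surg G A₂ x₁ y₁ y₂ p q h.y₁p h.y₂q) (hne : ∃ x y, K.Adj x y)
    (hev : ∀ v, Even (K.degree v)) : G.egirth ≤ K.edgeFinset.card := by
  classical
  obtain ⟨F, hF⟩ : ∃ F, F = fold K A₁ x₁ y₁ y₂ p q h.xp.ne h.xq.ne := ⟨_, rfl⟩
  have hAdj : ∀ u v, F.Adj u v ↔ (K.Adj u v ∧ (u ∈ A₁ ∧ u ≠ x₁) ∧ (v ∈ A₁ ∧ v ≠ x₁)) ∨
    (K.Adj y₁ p ∧ u = x₁ ∧ v = p) ∨ (K.Adj y₁ p ∧ u = p ∧ v = x₁) ∨
    (K.Adj y₂ q ∧ u = x₁ ∧ v = q) ∨ (K.Adj y₂ q ∧ u = q ∧ v = x₁) := fun u v => by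
    rw [hF]; rfl
  by_cases hFe : ∃ x y, F.Adj x y
  · obtain ⟨x, y, hxy⟩ := hFe
    -- `F` is a subgraph of `G`
    have hFG : F ≤ G := by
      intro u v huv
      rcases (hAdj u v).1 huv with ⟨g, g1, g2⟩ | g | g | g | g
      · rcases hK g with ⟨k, -, -⟩ | k | k | k | k
        · exact k
        · exact absurd (k.1 ▸ g1.1) h.P₁.hy
        · exact absurd (k.2 ▸ g2.1) h.P₁.hy
        · exact absurd (k.1 ▸ g1.1) h.y₂A₁
        · exact absurd (k.2 ▸ g2.1) h.y₂A₁
      · rw [g.2.1, g.2.2]; exact h.xp
      · rw [g.2.1, g.2.2]; exact h.xp.symm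
      · rw [g.2.1, g.2.2]; exact h.xq
      · rw [g.2.1, g.2.2]; exact h.xq.symm
    -- degrees away from `x₁`
    have hdeg : ∀ v, v ≠ x₁ → Even (F.degree v) := by
      intro v hv
      by_cases hvA : v ∈ A₁
      · have hKin : ∀ u, K.Adj v u → u ≠ y₁ → u ≠ y₂ → u ∈ A₁ ∧ u ≠ x₁ := by
          intro u hu hu1 hu2
          rcases hK hu with ⟨k, -, k2⟩ | k | k | k | k
          · refine ⟨?_, k2.2⟩
            by_contra hcon
            exact hv (h.P₁.only v u hvA hcon k).1
          · exact absurd (k.1 ▸ hvA) h.P₁.hy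
          · exact absurd k.2 hu1
          · exact absurd (k.1 ▸ hvA) h.y₂A₁
          · exact absurd k.2 hu2
        have hKy₁ : K.Adj v y₁ → v = p ∨ (v = q ∧ y₁ = y₂) := by
          intro hu
          rcases hK hu with ⟨k, -, k2⟩ | k | k | k | k
          · exact absurd (h.P₁.only v y₁ hvA h.P₁.hy k).1 hv
          · exact absurd (k.1 ▸ hvA) h.P₁.hy
          · exact Or.inl k.1
          · exact absurd (k.1 ▸ hvA) h.y₂A₁
          · exact Or.inr ⟨k.1, k.2⟩
        have hKy₂ : K.Adj v y₂ → v = q ∨ (v = p ∧ y₂ = y₁) := by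
          intro hu
          rcases hK hu with ⟨k, -, k2⟩ | k | k | k | k
          · exact absurd (h.P₁.only v y₂ hvA h.y₂A₁ k).1 hv
          · exact absurd (k.1 ▸ hvA) h.P₁.hy
          · exact Or.inr ⟨k.1, k.2⟩
          · exact absurd (k.1 ▸ hvA) h.y₂A₁
          · exact Or.inl k.1
        by_cases hvp : v = p
        · subst hvp
          by_cases hP : K.Adj y₁ v
          · have e : F.neighborFinset v = insert x₁ ((K.neighborFinset v).erase y₁) := by
              ext u
              rw [mem_neighborFinset, mem_insert, mem_erase, mem_neighborFinset, hAdj]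
              constructor
              · rintro (⟨g, g1, g2⟩ | g | g | g | g)
                · exact Or.inr ⟨fun e => h.P₁.hy (e ▸ g2.1), g⟩
                · exact absurd g.2.1 hv
                · exact Or.inl g.2.2
                · exact absurd g.2.1 hv
                · exact absurd g.2.1 h.pq
              · rintro (g | ⟨g1, g2⟩)
                · exact Or.inr (Or.inr (Or.inl ⟨hP, rfl, g⟩))
                · refine Or.inl ⟨g2, ⟨hvA, hv⟩, hKin u g2 g1 fun e => ?_⟩
                  rw [e] at g2
                  rcases hKy₂ g2 with k | k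
                  · exact h.pq k
                  · exact g1 (e.trans k.2)
            rw [← card_neighborFinset_eq_degree, e, card_swap, card_neighborFinset_eq_degree]
            · exact hev v
            · rw [mem_neighborFinset]; exact hP.symm
            · rw [mem_neighborFinset]
              intro g
              rcases hK g with ⟨k, -, k2⟩ | k | k | k | k
              · exact k2.2 rfl
              · exact h.y₁p k.1.symm
              · exact h.y₁x₁ k.2.symm
              · exact h.y₂p k.1.symm
              · exact h.pq k.1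
          · have e : F.neighborFinset v = K.neighborFinset v := by
              ext u
              rw [mem_neighborFinset, mem_neighborFinset, hAdj]
              constructor
              · rintro (⟨g, g1, g2⟩ | g | g | g | g)
                · exact g
                · exact absurd g.2.1 hv
                · exact absurd g.1 hP
                · exact absurd g.2.1 hv
                · exact absurd g.2.1 h.pq
              · intro g
                refine Or.inl ⟨g, ⟨hvA, hv⟩, hKin u g (fun e => ?_) fun e => ?_⟩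
                · rw [e] at g; exact hP g.symm
                · rw [e] at g
                  rcases hKy₂ g with k | k
                  · exact h.pq k
                  · rw [k.2] at g; exact hP g.symm
            rw [← card_neighborFinset_eq_degree, e, card_neighborFinset_eq_degree]
            exact hev v
        · by_cases hvq : v = q
          · subst hvq
            by_cases hP : K.Adj y₂ v
            · have e : F.neighborFinset v = insert x₁ ((K.neighborFinset v).erase y₂) := by
                ext u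
                rw [mem_neighborFinset, mem_insert, mem_erase, mem_neighborFinset, hAdj]
                constructor
                · rintro (⟨g, g1, g2⟩ | g | g | g | g)
                  · exact Or.inr ⟨fun e => h.y₂A₁ (e ▸ g2.1), g⟩
                  · exact absurd g.2.1 hv
                  · exact absurd g.2.1 hvp
                  · exact absurd g.2.1 hv
                  · exact Or.inl g.2.2
                · rintro (g | ⟨g1, g2⟩)
                  · exact Or.inr (Or.inr (Or.inr (Or.inr ⟨hP, rfl, g⟩)))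
                  · refine Or.inl ⟨g2, ⟨hvA, hv⟩, hKin u g2 (fun e => ?_) g1⟩
                    rw [e] at g2
                    rcases hKy₁ g2 with k | k
                    · exact hvp k
                    · exact g1 (e.trans k.2)
              rw [← card_neighborFinset_eq_degree, e, card_swap, card_neighborFinset_eq_degree]
              · exact hev v
              · rw [mem_neighborFinset]; exact hP.symm
              · rw [mem_neighborFinset]
                intro g
                rcases hK g with ⟨k, -, k2⟩ | k | k | k | k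
                · exact k2.2 rfl
                · exact h.y₁q k.1.symm
                · exact hvp k.1
                · exact h.y₂q k.1.symm
                · exact h.y₂x₁ k.2.symm
            · have e : F.neighborFinset v = K.neighborFinset v := by
                ext u
                rw [mem_neighborFinset, mem_neighborFinset, hAdj]
                constructor
                · rintro (⟨g, g1, g2⟩ | g | g | g | g)
                  · exact g
                  · exact absurd g.2.1 hv
                  · exact absurd g.2.1 hvp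
                  · exact absurd g.2.1 hv
                  · exact absurd g.1 hP
                · intro g
                  refine Or.inl ⟨g, ⟨hvA, hv⟩, hKin u g (fun e => ?_) fun e => ?_⟩
                  · rw [e] at g
                    rcases hKy₁ g with k | k
                    · exact hvp k
                    · rw [k.2] at g; exact hP g.symm
                  · rw [e] at g; exact hP g.symm
              rw [← card_neighborFinset_eq_degree, e, card_neighborFinset_eq_degree]
              exact hev v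
          · have e : F.neighborFinset v = K.neighborFinset v := by
              ext u
              rw [mem_neighborFinset, mem_neighborFinset, hAdj]
              constructor
              · rintro (⟨g, g1, g2⟩ | g | g | g | g)
                · exact g
                · exact absurd g.2.1 hv
                · exact absurd g.2.1 hvp
                · exact absurd g.2.1 hv
                · exact absurd g.2.1 hvq
              · intro g
                refine Or.inl ⟨g, ⟨hvA, hv⟩, hKin u g (fun e => ?_) fun e => ?_⟩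
                · rw [e] at g
                  rcases hKy₁ g with k | k
                  · exact hvp k
                  · exact hvq k.1
                · rw [e] at g
                  rcases hKy₂ g with k | k
                  · exact hvq k
                  · exact hvp k.1
            rw [← card_neighborFinset_eq_degree, e, card_neighborFinset_eq_degree]
            exact hev v
      · have e : F.neighborFinset v = ∅ := by
          ext u
          rw [mem_neighborFinset, hAdj]
          constructor
          · rintro (⟨g, g1, g2⟩ | g | g | g | g)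
            · exact absurd g1.1 hvA
            · exact absurd g.2.1 hv
            · exact absurd (g.2.1 ▸ h.pA) hvA
            · exact absurd g.2.1 hv
            · exact absurd (g.2.1 ▸ h.qA) hvA
          · intro g
            exact absurd g (notMem_empty u)
        rw [← card_neighborFinset_eq_degree, e, card_empty]
        exact ⟨0, rfl⟩
    have hdeg' : ∀ v, Even (F.degree v) := by
      intro v
      by_cases hv : v = x₁
      · subst hv
        by_contra hcon
        rw [Nat.not_even_iff_odd] at hcon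
        obtain ⟨u, hu, hu'⟩ := F.exists_ne_odd_degree_of_exists_odd_degree _ hcon
        exact (Nat.not_even_iff_odd.2 hu') (hdeg u hu)
      · exact hdeg v hv
    refine le_trans (egirth_le_card_of_even hFG hxy hdeg') ?_
    -- number of edges
    have hcard : F.edgeFinset.card ≤ K.edgeFinset.card := by
      let φ : Sym2 V → Sym2 V := fun e =>
        if e = s(y₁, p) then s(x₁, p) else if e = s(y₂, q) then s(x₁, q) else e
      have hsub : F.edgeFinset ⊆ K.edgeFinset.image φ := by
        intro e he
        have he' := mem_edgeFinset.1 he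
        rw [mem_image]
        induction e with
        | h u v =>
          have key : K.Adj y₁ p → s(u, v) = s(x₁, p) →
              ∃ a ∈ K.edgeFinset, φ a = s(u, v) := fun g1 g2 =>
            ⟨s(y₁, p), mem_edgeFinset.2 g1, by simp only [φ, if_true]; exact g2.symm⟩
          have key' : K.Adj y₂ q → s(u, v) = s(x₁, q) →
              ∃ a ∈ K.edgeFinset, φ a = s(u, v) := fun g1 g2 =>
            ⟨s(y₂, q), mem_edgeFinset.2 g1, by
              have hne : s(y₂, q) ≠ s(y₁, p) := by
                rw [Ne, Sym2.eq_iff]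
                rintro (⟨-, g⟩ | ⟨g, -⟩)
                · exact h.pq g.symm
                · exact h.y₂p g
              simp only [φ, if_neg hne, if_true]
              exact g2.symm⟩
          rcases (hAdj u v).1 he' with ⟨g, g1, g2⟩ | g | g | g | g
          · refine ⟨s(u, v), mem_edgeFinset.2 g, ?_⟩
            have hne1 : s(u, v) ≠ s(y₁, p) := by
              rw [Ne, Sym2.eq_iff]
              rintro (⟨g, -⟩ | ⟨-, g⟩)
              · exact h.P₁.hy (g ▸ g1.1)
              · exact h.P₁.hy (g ▸ g2.1)
            have hne2 : s(u, v) ≠ s(y₂, q) := by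
              rw [Ne, Sym2.eq_iff]
              rintro (⟨g, -⟩ | ⟨-, g⟩)
              · exact h.y₂A₁ (g ▸ g1.1)
              · exact h.y₂A₁ (g ▸ g2.1)
            simp only [φ, if_neg hne1, if_neg hne2]
          · exact key g.1 (by rw [g.2.1, g.2.2])
          · exact key g.1 (by rw [g.2.1, g.2.2, Sym2.eq_swap])
          · exact key' g.1 (by rw [g.2.1, g.2.2])
          · exact key' g.1 (by rw [g.2.1, g.2.2, Sym2.eq_swap])
      exact le_trans (card_le_card hsub) card_image_le
    exact_mod_cast hcard
  · -- `K` is a subgraph of `G`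
    push Not at hFe
    obtain ⟨x, y, hxy⟩ := hne
    have hP : ¬ K.Adj y₁ p := fun g => hFe x₁ p ((hAdj _ _).2 (Or.inr (Or.inl ⟨g, rfl, rfl⟩)))
    have hQ : ¬ K.Adj y₂ q := fun g =>
      hFe x₁ q ((hAdj _ _).2 (Or.inr (Or.inr (Or.inr (Or.inl ⟨g, rfl, rfl⟩)))))
    refine egirth_le_card_of_even (F := K) ?_ hxy hev
    intro u v huv
    rcases hK huv with ⟨k, -, -⟩ | k | k | k | k
    · exact k
    · exact absurd (k.1 ▸ k.2 ▸ huv) hP
    · exact absurd (k.1 ▸ k.2 ▸ huv.symm) hP
    · exact absurd (k.1 ▸ k.2 ▸ huv) hQ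
    · exact absurd (k.1 ▸ k.2 ▸ huv.symm) hQ

theorem Surg.egirth_le [Fintype V] (h : Surg G A₁ A₂ x₁ y₁ x₂ y₂ p q) :
    G.egirth ≤ (surg G A₂ x₁ y₁ y₂ p q h.y₁p h.y₂q).egirth := by
  rw [le_egirth]
  intro a w hw
  obtain ⟨K, hdec, hK, hne, hev, hcard⟩ := exists_even_of_cycle hw
  rw [← hcard]
  exact h.egirth_le_card hK hne hev

end PC70
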