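import Pool.Agent.PC70.HandC2

/-!
MP_f325cf_co: the smaller cubic graph of the same girth.
-/

set_option autoImplicit false

namespace PC70

open SimpleGraph Finset

variable {V : Type*} {G : SimpleGraph V} {A₁ A₂ : Finset V} {x₁ y₁ x₂ y₂ p q : V}

theorem Surg.exists_smaller [Fintype V] [DecidableEq V] [DecidableRel G.Adj]
    (h : Surg G A₁ A₂ x₁ y₁ x₂ y₂ p q) (hreg : G.IsRegularOfDegree 3) {a : V} {Z : G.Walk a a}
    (hZ : Z.IsCycle) (hZl : G.egirth = Z.length) (hav : ∀ v ∈ Z.support, v ∉ A₁ ∧ v ∉ A₂) :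
    ∃ n < Fintype.card V, ∃ (H : SimpleGraph (Fin n)) (_ : DecidableRel H.Adj),
      H.IsRegularOfDegree 3 ∧ H.girth = G.girth := by
  classical
  obtain ⟨S, hS⟩ : ∃ S, S = surg G A₂ x₁ y₁ y₂ p q h.y₁p h.y₂q := ⟨_, rfl⟩
  have hSadj : ∀ u v, S.Adj u v ↔ (G.Adj u v ∧ (u ∉ A₂ ∧ u ≠ x₁) ∧ (v ∉ A₂ ∧ v ≠ x₁)) ∨
    (u = y₁ ∧ v = p) ∨ (u = p ∧ v = y₁) ∨ (u = y₂ ∧ v = q) ∨ (u = q ∧ v = y₂) := fun u v => by
    rw [hS]; rfl
  let s : Set V := {v | v ∉ A₂ ∧ v ≠ x₁}
  have hs : ∀ v, v ∈ s ↔ v ∉ A₂ ∧ v ≠ x₁ := fun v => Iff.rfl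
  -- end points of edges of `S` lie in `s`
  have hmem : ∀ u v, S.Adj u v → v ∈ s := by
    intro u v huv
    rcases (hSadj u v).1 huv with g | g | g | g | g
    · exact g.2.2
    · rw [g.2]; exact ⟨h.disj p h.pA, h.xp.ne.symm⟩
    · rw [g.2]; exact ⟨h.y₁A₂, h.y₁x₁⟩
    · rw [g.2]; exact ⟨h.disj q h.qA, h.xq.ne.symm⟩
    · rw [g.2]; exact ⟨h.P₂.hy, h.y₂x₁⟩
  have hdegS : ∀ v, v ∈ s → S.degree v = 3 := by
    intro v hv
    subst hS
    exact h.degree hreg hv.1 hv.2
  obtain ⟨H₀, hH₀⟩ : ∃ H₀, H₀ = S.induce s := ⟨_, rfl⟩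
  have hreg₀ : ∀ v : s, (S.induce s).degree v = 3 := by
    intro v
    rw [degree_induce_of_neighborSet_subset (fun u hu => hmem v u hu)]
    exact hdegS v v.2
  have hlt : Fintype.card s < Fintype.card V := by
    refine Fintype.card_subtype_lt (x := x₁) ?_
    intro hx
    exact hx.2 rfl
  let iso := (S.induce s).overFinIso (rfl : Fintype.card s = Fintype.card s)
  refine ⟨Fintype.card s, hlt, (S.induce s).overFin rfl, Classical.decRel _, ?_, ?_⟩
  · intro v
    have h1 := iso.degree_eq (iso.symm v)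
    rw [iso.apply_symm_apply] at h1
    rw [h1]
    exact hreg₀ _
  · rw [← iso.girth_eq]
    have h1 : G.egirth ≤ (S.induce s).egirth := by
      refine le_trans (hS ▸ h.egirth_le) ?_
      exact IsContained.egirth_le ⟨(Embedding.induce s).toCopy⟩
    have h2 : (S.induce s).egirth ≤ G.egirth := by
      rw [hZl]
      -- the cycle in the new graph
      have hsup : ∀ v ∈ Z.support, v ∈ s := fun v hv =>
        ⟨(hav v hv).2, fun e => (hav v hv).1 (e ▸ h.P₁.hx)⟩
      have hedge : ∀ e ∈ Z.edges, e ∈ S.edgeSet := by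
        intro e he
        induction e with
        | h u v =>
          have hadj := Z.adj_of_mem_edges he
          have hu := Z.fst_mem_support_of_mem_edges he
          have hv := Z.snd_mem_support_of_mem_edges he
          exact (hSadj u v).2 (Or.inl ⟨hadj, hsup u hu, hsup v hv⟩)
      have hcyc : (Z.transfer S hedge).IsCycle := hZ.transfer hedge
      have hsup' : ∀ v ∈ (Z.transfer S hedge).support, v ∈ s := fun v hv => by
        rw [Walk.support_transfer] at hv
        exact hsup v hv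
      have hmap := Walk.map_induce (Z.transfer S hedge) hsup'
      have hcyc' : ((Z.transfer S hedge).induce s hsup').IsCycle := by
        rw [← Walk.isCycle_map_iff_of_injective (f := (Embedding.induce (G := S) s).toHom)
          (Embedding.induce (G := S) s).injective, hmap]
        exact hcyc
      refine le_trans (egirth_le_length hcyc') ?_
      have hl : ((Z.transfer S hedge).induce s hsup').length = Z.length := by
        have h5 := congrArg Walk.length hmap
        rw [Walk.length_map] at h5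
        exact h5.trans (Z.length_transfer hedge)
      rw [hl]
    unfold girth
    rw [le_antisymm h2 h1]

end PC70
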