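import Pool.Agent.PC70.Facts

set_option autoImplicit false

namespace PC70

variable {V : Type*}

/-- `v` is hit if one of the `T` vertices before it on its `φ`-orbit is a seed. -/
def Hit (τ m : Equiv.Perm V) (T : ℕ) (S : V → Prop) (v : V) : Prop :=
  ∃ i < T, S ((phi τ m)^[i + 1] v)

/-- Number of `τ`-steps from `m y` to the first hit. -/
noncomputable def gap (τ m : Equiv.Perm V) (W : V → Prop) (y : V) : ℕ :=
  sInf {t : ℕ | W (τ^[t] (m y))}

/-- Next hit. -/
noncomputable def ret (τ m : Equiv.Perm V) (W : V → Prop) (y : V) : V :=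
  τ^[gap τ m W y] (m y)

/-- The list of the first `d` gaps. -/
noncomputable def gaps (τ m : Equiv.Perm V) (W : V → Prop) : V → ℕ → List ℕ
  | _, 0 => []
  | y, d + 1 => gap τ m W y :: gaps τ m W (ret τ m W y) d

theorem gaps_length (τ m : Equiv.Perm V) (W : V → Prop) (y : V) (d : ℕ) :
    (gaps τ m W y d).length = d := by
  induction d generalizing y with
  | zero => rfl
  | succ d ih => simp [gaps, ih]

theorem run_gaps (τ m : Equiv.Perm V) (W : V → Prop) (y : V) (d : ℕ) :
    run τ m (gw (gaps τ m W y d)) y = (ret τ m W)^[d] y := by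
  induction d generalizing y with
  | zero => rfl
  | succ d ih =>
    simp only [gaps, gw, run]
    rw [run_append, run_replicate, Function.iterate_succ_apply, ← ih]
    rfl

theorem gaps_take (τ m : Equiv.Perm V) (W : V → Prop) (y : V) (d i : ℕ) (hi : i ≤ d) :
    (gaps τ m W y d).take i = gaps τ m W y i := by
  induction d generalizing y i with
  | zero =>
    obtain rfl : i = 0 := by omega
    rfl
  | succ d ih =>
    cases i with
    | zero => rfl
    | succ i =>
      simp only [gaps, List.take_succ_cons]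
      rw [ih _ i (by omega)]

theorem mem_gaps (τ m : Equiv.Perm V) (W : V → Prop) (y : V) (d : ℕ) (a : ℕ)
    (ha : a ∈ gaps τ m W y d) : ∃ i < d, a = gap τ m W ((ret τ m W)^[i] y) := by
  induction d generalizing y with
  | zero => simp [gaps] at ha
  | succ d ih =>
    simp only [gaps, List.mem_cons] at ha
    rcases ha with ha | ha
    · exact ⟨0, by omega, ha⟩
    · obtain ⟨i, hi, h⟩ := ih _ ha
      exact ⟨i + 1, by omega, by rw [Function.iterate_succ_apply]; exact h⟩

theorem ret_eq (τ m : Equiv.Perm V) (W W' : V → Prop) (hsub : ∀ v, W' v → W v) (y : V)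
    (h : W' (ret τ m W y)) : ret τ m W' y = ret τ m W y := by
  have hg : gap τ m W' y = gap τ m W y := by
    apply le_antisymm
    · exact Nat.sInf_le h
    · have hne : {t : ℕ | W' (τ^[t] (m y))}.Nonempty := ⟨_, h⟩
      exact Nat.sInf_le (hsub _ (Nat.sInf_mem hne))
  unfold ret
  rw [hg]

theorem ret_iterate_eq (τ m : Equiv.Perm V) (W W' : V → Prop) (hsub : ∀ v, W' v → W v) (y : V)
    (j : ℕ) (h : ∀ i < j, W' ((ret τ m W)^[i + 1] y)) (i : ℕ) (hi : i ≤ j) :
    (ret τ m W')^[i] y = (ret τ m W)^[i] y := by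
  induction i with
  | zero => rfl
  | succ i ih =>
    rw [Function.iterate_succ_apply', Function.iterate_succ_apply', ih (by omega)]
    apply ret_eq τ m W W' hsub
    have := h i (by omega)
    rwa [Function.iterate_succ_apply'] at this

/-- A chain of hits of length `d` with short gaps and pairwise far vertices. -/
structure Chain (τ m : Equiv.Perm V) (T r : ℕ) (W : V → Prop) (y : V) (d : ℕ) : Prop where
  hy : W y
  one_le : ∀ i < d, 1 ≤ gap τ m W ((ret τ m W)^[i] y)
  lt_r : ∀ i < d, gap τ m W ((ret τ m W)^[i] y) < r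
  hit : ∀ i < d, W ((ret τ m W)^[i] y)
  far : ∀ i < d, ∀ j < d, i ≠ j → ¬ Near τ m T ((ret τ m W)^[i] y) ((ret τ m W)^[j] y)

theorem Chain.gaps_pos {τ m : Equiv.Perm V} {T r : ℕ} {W : V → Prop} {y : V} {d : ℕ}
    (h : Chain τ m T r W y d) (j e : ℕ) (hje : j + e ≤ d) :
    ∀ a ∈ gaps τ m W ((ret τ m W)^[j] y) e, 1 ≤ a := by
  intro a ha
  obtain ⟨i, hi, rfl⟩ := mem_gaps τ m W _ _ a ha
  rw [← Function.iterate_add_apply]
  exact h.one_le _ (by omega)

theorem Chain.gaps_lt {τ m : Equiv.Perm V} {T r : ℕ} {W : V → Prop} {y : V} {d : ℕ}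
    (h : Chain τ m T r W y d) (j e : ℕ) (hje : j + e ≤ d) :
    ∀ a ∈ gaps τ m W ((ret τ m W)^[j] y) e, a < r := by
  intro a ha
  obtain ⟨i, hi, rfl⟩ := mem_gaps τ m W _ _ a ha
  rw [← Function.iterate_add_apply]
  exact h.lt_r _ (by omega)

/-- A closed chain is long. -/
theorem Chain.long {τ m : Equiv.Perm V} (hmm : ∀ x, m (m x) = x) {g : ℕ} (hLF : LF τ m g)
    {T r q : ℕ} (hq : q * r + 2 * T ≤ g + 1) {W : V → Prop} {y : V} {d : ℕ} (hd : 0 < d)
    (h : Chain τ m T r W y d) (hn : Near τ m T ((ret τ m W)^[d] y) y) : q < d := by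
  by_contra hle
  have hlen : (gw (gaps τ m W y d)).length ≤ d * r := by
    have := gw_length_le (gaps τ m W y d) r (h.gaps_lt 0 d (by omega))
    rwa [gaps_length] at this
  have hdr : d * r ≤ q * r := Nat.mul_le_mul_right r (by omega)
  refine near_gw τ m hmm g hLF (gaps τ m W y d) ?_ (h.gaps_pos 0 d (by omega)) T (by omega) y ?_
  · intro h0
    have := gaps_length τ m W y d
    rw [h0] at this
    simp at this
    omega
  · rw [run_gaps]
    exact hn

/-- The closing condition. -/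
def Clo (τ m : Equiv.Perm V) (dir : Bool) (k : ℕ) (y z : V) : Prop :=
  if dir then z = (phi τ m)^[k] y else y = (phi τ m)^[k] z

theorem Clo.unique {τ m : Equiv.Perm V} {dir : Bool} {k : ℕ} {y z z' : V}
    (h : Clo τ m dir k y z) (h' : Clo τ m dir k y z') : z = z' := by
  unfold Clo at h h'
  cases dir
  · simp only [Bool.false_eq_true, if_false] at h h'
    exact (phi_injective τ m).iterate k (h.symm.trans h')
  · simp only [if_true] at h h'
    rw [h, h']

theorem near_iff_clo (τ m : Equiv.Perm V) (T : ℕ) (y z : V) :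
    Near τ m T z y ↔ ∃ (dir : Bool) (k : Fin T), Clo τ m dir k y z := by
  constructor
  · rintro ⟨k, hk, h | h⟩
    · exact ⟨true, ⟨k, hk⟩, by simpa [Clo] using h⟩
    · exact ⟨false, ⟨k, hk⟩, by simpa [Clo] using h⟩
  · rintro ⟨dir, k, h⟩
    refine ⟨k, k.2, ?_⟩
    cases dir
    · right; simpa [Clo] using h
    · left; simpa [Clo] using h

/-- Index of the hits whose seeds are resampled. -/
def idx (q d : ℕ) (i : Fin (q + 1)) : ℕ := if (i : ℕ) = 0 then 0 else d - i

theorem idx_lt {q d : ℕ} (hqd : q < d) (i : Fin (q + 1)) : idx q d i < d := by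
  unfold idx; split <;> omega

theorem idx_injective {q d : ℕ} (hqd : q < d) : Function.Injective (idx q d) := by
  intro i j h
  have hi := i.2
  have hj := j.2
  unfold idx at h
  apply Fin.ext
  split at h <;> split at h <;> omega

theorem idx_ne {q d : ℕ} (i : Fin (q + 1)) (j : ℕ) (hj : j + 1 + q < d) :
    idx q d i ≠ j + 1 := by
  have hi := i.2
  unfold idx
  split <;> omega

/-- The resampled positions. -/
noncomputable def upos (τ m : Equiv.Perm V) (W : V → Prop) (T q d : ℕ) (y : V)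
    (e : Fin (q + 1) → Fin T) (i : Fin (q + 1)) : V :=
  (phi τ m)^[(e i : ℕ) + 1] ((ret τ m W)^[idx q d i] y)

theorem upos_injective {τ m : Equiv.Perm V} {W : V → Prop} {T r q d : ℕ} {y : V} (hqd : q < d)
    (h : Chain τ m T r W y d) (e : Fin (q + 1) → Fin T) :
    Function.Injective (upos τ m W T q d y e) := by
  intro i j hij
  by_contra hne
  exact arc_disjoint τ m T _ _ (h.far _ (idx_lt hqd i) _ (idx_lt hqd j)
    (fun h => hne (idx_injective hqd h))) _ _ (e i).2 (e j).2 hij

/-- Reconstruction: the resampled positions are determined by the resampled function. -/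
theorem upos_eq {τ m : Equiv.Perm V} (hmm : ∀ x, m (m x) = x) {g : ℕ} (hLF : LF τ m g)
    {T r q d : ℕ} (hg : 2 * ((q + 1) * r) < g) {y : V} (hqd : q < d) (dir : Bool) (k : ℕ)
    (e : Fin (q + 1) → Fin T) (S S₁ S₂ : V → Prop)
    (h1 : Chain τ m T r (Hit τ m T S₁) y d) (h2 : Chain τ m T r (Hit τ m T S₂) y d)
    (hc1 : Clo τ m dir k y ((ret τ m (Hit τ m T S₁))^[d] y))
    (hc2 : Clo τ m dir k y ((ret τ m (Hit τ m T S₂))^[d] y))
    (hs1 : ∀ x, S x → S₁ x) (hs2 : ∀ x, S x → S₂ x)
    (hr1 : ∀ x, S₁ x → (∀ i, upos τ m (Hit τ m T S₁) T q d y e i ≠ x) → S x)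
    (hr2 : ∀ x, S₂ x → (∀ i, upos τ m (Hit τ m T S₂) T q d y e i ≠ x) → S x) :
    upos τ m (Hit τ m T S₁) T q d y e = upos τ m (Hit τ m T S₂) T q d y e := by
  -- first part of the history
  have key : ∀ S' : V → Prop, Chain τ m T r (Hit τ m T S') y d → (∀ x, S x → S' x) →
      (∀ x, S' x → (∀ i, upos τ m (Hit τ m T S') T q d y e i ≠ x) → S x) →
      ∀ i ≤ d - 1 - q, (ret τ m (Hit τ m T S))^[i] y = (ret τ m (Hit τ m T S'))^[i] y := by
    intro S' h' hs' hr'
    apply ret_iterate_eq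
    · rintro v ⟨i, hi, hv⟩
      exact ⟨i, hi, hs' _ hv⟩
    · intro i hi
      obtain ⟨a, ha, hsa⟩ := h'.hit (i + 1) (by omega)
      refine ⟨a, ha, hr' _ hsa ?_⟩
      intro j
      exact arc_disjoint τ m T _ _ (h'.far _ (idx_lt hqd j) _ (by omega)
        (idx_ne j i (by omega))) _ _ (e j).2 ha
  have e1 := key S₁ h1 hs1 hr1
  have e2 := key S₂ h2 hs2 hr2
  have hz : (ret τ m (Hit τ m T S₁))^[d - 1 - q] y = (ret τ m (Hit τ m T S₂))^[d - 1 - q] y := by
    rw [← e1 _ le_rfl, ← e2 _ le_rfl]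
  -- the last hits
  have hd : d = (q + 1) + (d - 1 - q) := by omega
  have ht : (ret τ m (Hit τ m T S₁))^[d] y = (ret τ m (Hit τ m T S₂))^[d] y := hc1.unique hc2
  have hl : gaps τ m (Hit τ m T S₁) ((ret τ m (Hit τ m T S₁))^[d - 1 - q] y) (q + 1) =
      gaps τ m (Hit τ m T S₂) ((ret τ m (Hit τ m T S₂))^[d - 1 - q] y) (q + 1) := by
    refine gw_unique τ m hmm g hLF _ _ (h1.gaps_pos _ _ (by omega)) (h2.gaps_pos _ _ (by omega))
      ?_ ((ret τ m (Hit τ m T S₁))^[d - 1 - q] y) ?_
    · have l1 := gw_length_le _ r (h1.gaps_lt (d - 1 - q) (q + 1) (by omega))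
      have l2 := gw_length_le _ r (h2.gaps_lt (d - 1 - q) (q + 1) (by omega))
      rw [gaps_length] at l1 l2
      omega
    · rw [run_gaps]
      conv_rhs => rw [hz]
      rw [run_gaps, ← Function.iterate_add_apply, ← Function.iterate_add_apply, ← hd]
      exact ht
  have hall : ∀ i ≤ q + 1, (ret τ m (Hit τ m T S₁))^[i + (d - 1 - q)] y =
      (ret τ m (Hit τ m T S₂))^[i + (d - 1 - q)] y := by
    intro i hi
    rw [Function.iterate_add_apply, Function.iterate_add_apply,
      ← run_gaps τ m (Hit τ m T S₁) ((ret τ m (Hit τ m T S₁))^[d - 1 - q] y) i,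
      ← run_gaps τ m (Hit τ m T S₂) ((ret τ m (Hit τ m T S₂))^[d - 1 - q] y) i,
      ← gaps_take _ _ _ _ (q + 1) i hi, ← gaps_take _ _ _ _ (q + 1) i hi, hl, hz]
  funext i
  unfold upos
  congr 1
  have hi := i.2
  unfold idx
  split
  · rfl
  · have : d - (i : ℕ) = (q + 1 - i) + (d - 1 - q) := by omega
    rw [this]
    exact hall _ (by omega)

end PC70
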