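import Pool.Agent.PC70.Avg

set_option autoImplicit false

namespace PC70

open Finset

/-- The numerical estimate. -/
theorem numeric (g K : ℕ) (L : ℝ) (hL : L = Real.log g) (hL1 : 1 ≤ L) (hg : 272 ≤ g) (hK : 1 ≤ K)
    (hK1 : (K : ℝ) * (16 * L) ≤ g) (hK2 : (g : ℝ) ≤ K * (81 / 5 * L)) :
    1 / ((K * K : ℕ) : ℝ) +
      (1 - 1 / ((K * K : ℕ) : ℝ)) ^ (K * ((g - 1) / 16 + 1)) / (((g - 1) / 16 : ℕ) : ℝ) +
      (K * (1 / ((K * K : ℕ) : ℝ))) / K + K * (K * (1 / ((K * K : ℕ) : ℝ)) ^ 2) +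
      ((K * (2 * (K * K ^ (3 + 1))) : ℕ) : ℝ) * (1 / ((K * K : ℕ) : ℝ)) ^ (3 + 1) ≤
    1400 * L ^ 2 / (g : ℝ) ^ 2 := by
  have hK0 : (0 : ℝ) < K := by exact_mod_cast hK
  have hK1' : (1 : ℝ) ≤ K := by exact_mod_cast hK
  have hg0 : (0 : ℝ) < g := by positivity
  set r := (g - 1) / 16 with hr
  have hr1 : 1 ≤ r := by omega
  have hr2 : g ≤ 17 * r := by omega
  have hr3 : g ≤ 16 * (r + 1) := by omega
  have hr0 : (0 : ℝ) < r := by exact_mod_cast hr1
  have hr2' : (g : ℝ) ≤ 17 * r := by exact_mod_cast hr2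
  have hr3' : (g : ℝ) ≤ 16 * (r + 1) := by exact_mod_cast hr3
  -- main term
  have hinv : 1 / (K : ℝ) ^ 2 ≤ 263 * L ^ 2 / (g : ℝ) ^ 2 := by
    rw [div_le_div_iff₀ (by positivity) (by positivity)]
    have : (g : ℝ) ^ 2 ≤ (K * (81 / 5 * L)) ^ 2 := by gcongr
    nlinarith [sq_nonneg ((K : ℝ) * L)]
  have e1 : 1 / ((K * K : ℕ) : ℝ) = 1 / (K : ℝ) ^ 2 := by push_cast; ring
  rw [e1]
  have e2 : ((K : ℝ) * (1 / (K : ℝ) ^ 2)) / K = 1 / (K : ℝ) ^ 2 := by field_simp
  have e3 : (K : ℝ) * (K * (1 / (K : ℝ) ^ 2) ^ 2) = 1 / (K : ℝ) ^ 2 := by field_simp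
  have e4 : ((K * (2 * (K * K ^ (3 + 1))) : ℕ) : ℝ) * (1 / (K : ℝ) ^ 2) ^ (3 + 1) =
      2 * (1 / (K : ℝ) ^ 2) := by push_cast; field_simp
  rw [e2, e3, e4]
  -- exponential term
  have hexp : (1 - 1 / (K : ℝ) ^ 2) ^ (K * (r + 1)) ≤ 1 / (g : ℝ) := by
    have hb0 : 0 ≤ 1 - 1 / (K : ℝ) ^ 2 := by
      rw [sub_nonneg, div_le_one (by positivity)]
      nlinarith
    have hb1 : 1 - 1 / (K : ℝ) ^ 2 ≤ Real.exp (-(1 / (K : ℝ) ^ 2)) := by
      have := Real.add_one_le_exp (-(1 / (K : ℝ) ^ 2))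
      linarith
    calc (1 - 1 / (K : ℝ) ^ 2) ^ (K * (r + 1)) ≤ (Real.exp (-(1 / (K : ℝ) ^ 2))) ^ (K * (r + 1)) := by
          gcongr
      _ = Real.exp (-((r + 1) / K)) := by
          rw [← Real.exp_nat_mul]
          congr 1
          push_cast
          field_simp
      _ ≤ Real.exp (-L) := by
          apply Real.exp_le_exp.2
          rw [neg_le_neg_iff, le_div_iff₀ hK0]
          nlinarith
      _ = 1 / (g : ℝ) := by
          rw [hL, Real.exp_neg, Real.exp_log hg0, one_div]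
  have hterm : (1 - 1 / (K : ℝ) ^ 2) ^ (K * (r + 1)) / (r : ℝ) ≤ 17 * L ^ 2 / (g : ℝ) ^ 2 := by
    calc (1 - 1 / (K : ℝ) ^ 2) ^ (K * (r + 1)) / (r : ℝ) ≤ (1 / (g : ℝ)) / r := by gcongr
      _ ≤ (1 / (g : ℝ)) / (g / 17) := by
          gcongr
          linarith
      _ = 17 / (g : ℝ) ^ 2 := by field_simp
      _ ≤ 17 * L ^ 2 / (g : ℝ) ^ 2 := by
          gcongr
          nlinarith
  have hfin : 263 * L ^ 2 / (g : ℝ) ^ 2 + 17 * L ^ 2 / (g : ℝ) ^ 2 + 263 * L ^ 2 / (g : ℝ) ^ 2 +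
      263 * L ^ 2 / (g : ℝ) ^ 2 + 2 * (263 * L ^ 2 / (g : ℝ) ^ 2) ≤ 1400 * L ^ 2 / (g : ℝ) ^ 2 := by
    have h0 : 0 ≤ L ^ 2 / (g : ℝ) ^ 2 := by positivity
    have : ∀ a : ℝ, a * L ^ 2 / (g : ℝ) ^ 2 = a * (L ^ 2 / (g : ℝ) ^ 2) := by intro a; ring
    rw [this, this, this]
    nlinarith
  refine le_trans ?_ hfin
  gcongr

variable {V : Type*}

theorem one_le_log (g : ℕ) (hg : 3 ≤ g) : 1 ≤ Real.log g := by
  rw [Real.le_log_iff_exp_le (by positivity)]
  have h1 := Real.exp_one_lt_d9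
  have h2 : (3 : ℝ) ≤ g := by exact_mod_cast hg
  linarith

/-- The 2-factor alone: at most `n / g` components. -/
theorem two_factor [Fintype V] [DecidableEq V] (G : SimpleGraph V) (τ m : Equiv.Perm V)
    (hmm : ∀ x, m (m x) = x) (hm : ∀ x, G.Adj x (m x)) (ht : ∀ x, G.Adj x (τ x))
    (g : ℕ) (hg : 3 ≤ g) (hLF : LF τ m g) :
    ∃ F : SimpleGraph V, F ≤ G ∧ F.IsAcyclic ∧ (∀ v, (F.neighborSet v).ncard ≤ 2) ∧
      (Nat.card F.ConnectedComponent : ℝ) ≤ (Fintype.card V : ℝ) / g := by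
  classical
  set S : V → Prop := fun _ => False with hS
  have hW : ∀ v, ¬ Hit τ m 1 S v := by
    rintro v ⟨i, -, h⟩
    exact h
  have h1 := card_comp_le τ m hmm g (by omega) hLF 1 g 1 (by omega) (by omega) (by omega) le_rfl S
  have h2 : Cost τ m 1 g 1 S ≤ (Fintype.card V : ℝ) / g := by
    unfold Cost
    have z : ∀ (p : V → Prop) (inst : DecidablePred p), (∀ v, ¬ p v) →
        (Finset.univ.filter p).card = 0 := by
      intro p _ hp
      rw [Finset.card_eq_zero]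
      exact Finset.filter_false_of_mem (fun v _ => hp v)
    rw [z _ _ (fun v h => h), z _ _ (fun v h => hW v h),
      z (fun v => Hit τ m 1 S v ∧ Hit τ m 1 S (m v)) _ (fun v h => hW v h.1),
      z (fun v => BadRoot τ m 1 (2 * g) 1 (Hit τ m 1 S) v) _ (by
        rintro v ⟨d, -, -, hc, -⟩
        exact hW v hc.hy)]
    simp only [Nat.cast_zero, zero_div, add_zero, zero_add]
    gcongr
    exact_mod_cast Finset.card_filter_le _ _
  obtain ⟨F, hF1, hF2, hF3⟩ :=
    (swGraph τ m S (Hit τ m 1 S)).exists_isAcyclic_reachable_eq_le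
  refine ⟨F, hF1.trans (swGraph_le τ m S _ G hm ht), hF2, ?_, ?_⟩
  · intro v
    obtain ⟨a, b, hab⟩ := swGraph_nbr τ m hmm 1 S v
    have hsub : F.neighborSet v ⊆ {a, b} := by
      intro y hy
      exact hab y (hF1 hy)
    refine (Set.ncard_le_ncard hsub (Set.toFinite _)).trans ?_
    have := Set.ncard_insert_le a {b}
    rwa [Set.ncard_singleton] at this
  · have hcard : Nat.card F.ConnectedComponent =
        Nat.card (swGraph τ m S (Hit τ m 1 S)).ConnectedComponent := by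
      unfold SimpleGraph.ConnectedComponent
      rw [hF3]
    rw [hcard]
    exact h1.trans h2

/-- The core theorem in terms of the permutations. -/
theorem core [Fintype V] [DecidableEq V] (G : SimpleGraph V) (τ m : Equiv.Perm V)
    (hmm : ∀ x, m (m x) = x) (hm : ∀ x, G.Adj x (m x)) (ht : ∀ x, G.Adj x (τ x))
    (g : ℕ) (hg : 3 ≤ g) (hLF : LF τ m g) :
    ∃ F : SimpleGraph V, F ≤ G ∧ F.IsAcyclic ∧ (∀ v, (F.neighborSet v).ncard ≤ 2) ∧
      (Nat.card F.ConnectedComponent : ℝ) ≤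
        1400 * (Real.log g) ^ 2 / (g : ℝ) ^ 2 * Fintype.card V := by
  classical
  have hL1 := one_le_log g hg
  have hg0 : (0 : ℝ) < g := by positivity
  by_cases hbig : 1400 * (Real.log g) ^ 2 ≤ g
  · -- main case
    have hL2 : Real.log g ≤ (Real.log g) ^ 2 := by nlinarith
    have hx1 : (1 : ℝ) ≤ (g : ℝ) / (16 * Real.log g) := by
      rw [le_div_iff₀ (by positivity)]
      linarith
    set K := ⌊(g : ℝ) / (16 * Real.log g)⌋₊ with hK
    have hK1 : 1 ≤ K := Nat.le_floor (by simpa using hx1)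
    have hKle : (K : ℝ) ≤ (g : ℝ) / (16 * Real.log g) := Nat.floor_le (by positivity)
    have hKlt : (g : ℝ) / (16 * Real.log g) < K + 1 := Nat.lt_floor_add_one _
    have hK1' : (1 : ℝ) ≤ K := by exact_mod_cast hK1
    rw [le_div_iff₀ (by positivity)] at hKle
    rw [div_lt_iff₀ (by positivity)] at hKlt
    have hK80 : 80 ≤ (K : ℝ) := by
      by_contra hlt
      push Not at hlt
      have h1 : ((K : ℝ) + 1) * (16 * Real.log g) ≤ 81 * (16 * Real.log g) := by
        gcongr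
        linarith
      nlinarith
    have hK2 : (g : ℝ) ≤ K * (81 / 5 * Real.log g) := by nlinarith
    have hg17 : 1400 ≤ g := by
      have : (1400 : ℝ) ≤ g := by nlinarith
      exact_mod_cast this
    have hK16 : 16 * K ≤ g := by
      have : (16 : ℝ) * K ≤ g := by nlinarith
      exact_mod_cast this
    have : NeZero (K * K) := ⟨by positivity⟩
    obtain ⟨S, hS⟩ := exists_good (fun _ => True) τ m hmm g (by omega) hLF K ((g - 1) / 16) K 3
      (K * K) (by omega) (by omega) (by omega) (by omega) (by omega) (by omega)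
      ((g - 1) / 16 + 1) (fun v => ⟨Finset.range ((g - 1) / 16 + 1), fun j hj =>
        ⟨by rw [Finset.mem_range] at hj; omega, fun _ _ => trivial⟩, by simp⟩)
      (K * (K * (1 / ((K * K : ℕ) : ℝ)) ^ 2))
      (mu_hit_m (fun _ => True) τ m hmm g hLF K (by omega))
    obtain ⟨F, hF1, hF2, hF3⟩ :=
      (swGraph τ m S (Hit τ m K S)).exists_isAcyclic_reachable_eq_le
    refine ⟨F, hF1.trans (swGraph_le τ m S _ G hm ht), hF2, ?_, ?_⟩
    · intro v
      obtain ⟨a, b, hab⟩ := swGraph_nbr τ m hmm K S v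
      have hsub : F.neighborSet v ⊆ {a, b} := by
        intro y hy
        exact hab y (hF1 hy)
      refine (Set.ncard_le_ncard hsub (Set.toFinite _)).trans ?_
      have := Set.ncard_insert_le a {b}
      rwa [Set.ncard_singleton] at this
    · have hcard : Nat.card F.ConnectedComponent =
          Nat.card (swGraph τ m S (Hit τ m K S)).ConnectedComponent := by
        unfold SimpleGraph.ConnectedComponent
        rw [hF3]
      rw [hcard]
      refine hS.trans ?_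
      rw [mul_comm]
      gcongr
      exact numeric g K (Real.log g) rfl hL1 (by omega) hK1 hKle hK2
  · -- small case
    push Not at hbig
    obtain ⟨F, h1, h2, h3, h4⟩ := two_factor G τ m hmm hm ht g hg hLF
    refine ⟨F, h1, h2, h3, h4.trans ?_⟩
    have h5 : 1 / (g : ℝ) ≤ 1400 * (Real.log g) ^ 2 / (g : ℝ) ^ 2 := by
      rw [div_le_div_iff₀ (by positivity) (by positivity)]
      nlinarith
    calc (Fintype.card V : ℝ) / g = 1 / (g : ℝ) * Fintype.card V := by ring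
      _ ≤ 1400 * (Real.log g) ^ 2 / (g : ℝ) ^ 2 * Fintype.card V := by gcongr

end PC70
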