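import Pool.Agent.PC70.Basic

set_option autoImplicit false

namespace PC70

variable {V : Type*}

theorem run_append (τ m : Equiv.Perm V) (w w' : List Letter) (x : V) :
    run τ m (w ++ w') x = run τ m w' (run τ m w x) := by
  induction w generalizing x with
  | nil => rfl
  | cons a w ih => simp [run, ih]

theorem act_injective (τ m : Equiv.Perm V) (a : Letter) : Function.Injective (act τ m a) := by
  cases a
  · exact τ.injective
  · exact τ.symm.injective
  · exact m.injective

theorem act_inv (τ m : Equiv.Perm V) (hmm : ∀ x, m (m x) = x) (a : Letter) (x : V) :
    act τ m a.inv (act τ m a x) = x := by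
  cases a <;> simp [act, Letter.inv, hmm]

theorem inv_inv' (a : Letter) : a.inv.inv = a := by cases a <;> rfl

theorem inv_injective : Function.Injective Letter.inv := by
  intro a b h
  rw [← inv_inv' a, ← inv_inv' b, h]

/-- Inverse word. -/
def winv (w : List Letter) : List Letter := (w.map Letter.inv).reverse

theorem run_winv (τ m : Equiv.Perm V) (hmm : ∀ x, m (m x) = x) (w : List Letter) (x : V) :
    run τ m (winv w) (run τ m w x) = x := by
  induction w generalizing x with
  | nil => rfl
  | cons a w ih =>
    have : winv (a :: w) = winv w ++ [a.inv] := by simp [winv]
    rw [this, run_append]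
    simp only [run]
    rw [ih, act_inv τ m hmm]

theorem reduced_winv (w : List Letter) (h : Reduced w) : Reduced (winv w) := by
  unfold Reduced winv at *
  rw [List.isChain_reverse, List.isChain_map]
  refine h.imp ?_
  intro a b hab hcon
  apply hab
  rw [hcon, inv_inv']

theorem reduced_append (w w' : List Letter) (h : Reduced w) (h' : Reduced w')
    (hj : ∀ a ∈ w.getLast?, ∀ b ∈ w'.head?, b ≠ a.inv) : Reduced (w ++ w') := by
  unfold Reduced at *
  rw [List.isChain_append]
  exact ⟨h, h', hj⟩

theorem uni (τ m : Equiv.Perm V) (hmm : ∀ x, m (m x) = x) (g : ℕ) (hLF : LF τ m g)
    (w w' : List Letter) (hw : Reduced w) (hw' : Reduced w') (hlen : w.length + w'.length < g)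
    (x : V) (h : run τ m w x = run τ m w' x) : w = w' := by
  induction w using List.reverseRecOn generalizing w' with
  | nil =>
    by_contra hne
    exact hLF w' (fun h => hne h.symm) (by simpa using hlen) hw' x h.symm
  | append_singleton u a ih =>
    induction w' using List.reverseRecOn with
    | nil =>
      exfalso
      exact hLF (u ++ [a]) (by simp) (by simpa using hlen) hw x h
    | append_singleton u' b _ =>
      by_cases hab : a = b
      · subst hab
        rw [run_append, run_append] at h
        simp only [run] at h
        have h' := act_injective τ m a h
        have hu : Reduced u := List.IsChain.left_of_append hw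
        have hu' : Reduced u' := List.IsChain.left_of_append hw'
        rw [ih u' hu hu' (by simp at hlen ⊢; omega) h']
      · exfalso
        refine hLF ((u ++ [a]) ++ winv (u' ++ [b])) (by simp) ?_ ?_ x ?_
        · simp [winv] at hlen ⊢
          omega
        · apply reduced_append _ _ hw (reduced_winv _ hw')
          intro c hc d hd hcd
          simp [winv] at hc hd
          subst hc
          apply hab
          apply inv_injective
          rw [← hcd, hd]
        · rw [run_append, h, run_winv τ m hmm]

/-- The word `(m t⁻¹)^k`. -/
def phiw : ℕ → List Letter
  | 0 => []
  | k + 1 => .m :: .ti :: phiw k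

theorem phiw_length (k : ℕ) : (phiw k).length = 2 * k := by
  induction k with
  | zero => rfl
  | succ k ih => simp [phiw, ih]; ring

theorem reduced_phiw (k : ℕ) : Reduced (phiw k) := by
  induction k with
  | zero => exact List.isChain_nil
  | succ k ih =>
    unfold Reduced at *
    cases k with
    | zero =>
      simp only [phiw]
      decide
    | succ k =>
      simp only [phiw] at ih ⊢
      refine List.isChain_cons_cons.2 ⟨by simp [Letter.inv], List.isChain_cons_cons.2
        ⟨by simp [Letter.inv], ih⟩⟩

/-- The map `φ = τ⁻¹ ∘ m`. -/
def phi (τ m : Equiv.Perm V) (x : V) : V := τ.symm (m x)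

theorem run_phiw (τ m : Equiv.Perm V) (k : ℕ) (x : V) : run τ m (phiw k) x = (phi τ m)^[k] x := by
  induction k generalizing x with
  | zero => rfl
  | succ k ih =>
    simp only [phiw, run, act]
    rw [ih, Function.iterate_succ_apply]
    rfl

theorem phi_injective (τ m : Equiv.Perm V) : Function.Injective (phi τ m) :=
  τ.symm.injective.comp m.injective

/-- The word of a list of gaps. -/
def gw : List ℕ → List Letter
  | [] => []
  | a :: l => .m :: (List.replicate a .t ++ gw l)

theorem gw_length (l : List ℕ) : (gw l).length = l.sum + l.length := by
  induction l with
  | nil => rfl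
  | cons a l ih => simp [gw, ih]; ring

theorem gw_length_le (l : List ℕ) (r : ℕ) (h : ∀ a ∈ l, a < r) : (gw l).length ≤ l.length * r := by
  induction l with
  | nil => simp [gw]
  | cons a l ih =>
    have h1 := ih (fun b hb => h b (List.mem_cons_of_mem _ hb))
    have h2 := h a List.mem_cons_self
    simp only [gw, List.length_cons, List.length_append, List.length_replicate]
    nlinarith

theorem gw_head (l : List ℕ) : ∀ b ∈ (gw l).head?, b = .m := by
  cases l with
  | nil => simp [gw]
  | cons a l => simp [gw]

theorem reduced_replicate (a : ℕ) : Reduced (List.replicate a .t) := by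
  unfold Reduced
  exact List.isChain_replicate_of_rel a (by simp [Letter.inv])

theorem replicate_last (a : ℕ) (c : Letter) (hc : c ∈ (List.replicate a Letter.t).getLast?) :
    c = .t := by
  have h := List.mem_of_getLast? hc
  exact List.eq_of_mem_replicate h

theorem replicate_head (a : ℕ) (c : Letter) (hc : c ∈ (List.replicate a Letter.t).head?) :
    c = .t := by
  have h := List.mem_of_head? hc
  exact List.eq_of_mem_replicate h

theorem reduced_gw (l : List ℕ) (h : ∀ a ∈ l, 1 ≤ a) : Reduced (gw l) := by
  induction l with
  | nil => exact List.isChain_nil
  | cons a l ih =>
    have h1 := ih (fun b hb => h b (List.mem_cons_of_mem _ hb))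
    have h2 := h a List.mem_cons_self
    have h3 : Reduced (List.replicate a .t ++ gw l) := by
      apply reduced_append _ _ (reduced_replicate a) h1
      intro c hc d hd
      rw [replicate_last a c hc, gw_head l d hd]
      simp [Letter.inv]
    obtain ⟨b, rfl⟩ : ∃ b, a = b + 1 := ⟨a - 1, by omega⟩
    simp only [gw, List.replicate_succ, List.cons_append] at h3 ⊢
    exact List.isChain_cons_cons.2 ⟨by simp [Letter.inv], h3⟩

theorem gw_last (l : List ℕ) (h : ∀ a ∈ l, 1 ≤ a) : ∀ b ∈ (gw l).getLast?, b = .t := by
  induction l with
  | nil => simp [gw]
  | cons a l ih =>
    have h1 := ih (fun b hb => h b (List.mem_cons_of_mem _ hb))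
    have h2 := h a List.mem_cons_self
    obtain ⟨b, rfl⟩ : ∃ b, a = b + 1 := ⟨a - 1, by omega⟩
    intro c hc
    cases l with
    | nil =>
      simp only [gw, List.append_nil] at hc
      have : (Letter.m :: List.replicate (b + 1) Letter.t).getLast? = some Letter.t := by
        rw [List.replicate_succ', ← List.cons_append, List.getLast?_append]
        simp
      rw [this] at hc
      simpa using hc.symm
    | cons a' l =>
      apply h1
      have : gw ((b + 1) :: a' :: l) = (.m :: List.replicate (b + 1) .t) ++ gw (a' :: l) := rfl
      rw [this] at hc
      have hne : gw (a' :: l) ≠ [] := by simp [gw]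
      rw [List.getLast?_append_of_ne_nil _ hne] at hc
      exact hc

theorem gw_injective (l l' : List ℕ) (h : gw l = gw l') : l = l' := by
  induction l generalizing l' with
  | nil =>
    cases l' with
    | nil => rfl
    | cons a l' => simp [gw] at h
  | cons a l ih =>
    cases l' with
    | nil => simp [gw] at h
    | cons b l' =>
      simp only [gw, List.cons.injEq, true_and] at h
      have key : ∀ (a b : ℕ), List.replicate a Letter.t ++ gw l = List.replicate b Letter.t ++ gw l' →
          a = b := by
        intro a
        induction a with
        | zero =>
          intro b hb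
          cases b with
          | zero => rfl
          | succ b =>
            exfalso
            simp only [List.replicate_zero, List.nil_append, List.replicate_succ,
              List.cons_append] at hb
            have := gw_head l .t (by rw [hb]; simp)
            cases this
        | succ a iha =>
          intro b hb
          cases b with
          | zero =>
            exfalso
            simp only [List.replicate_zero, List.nil_append, List.replicate_succ,
              List.cons_append] at hb
            have := gw_head l' .t (by rw [← hb]; simp)
            cases this
          | succ b =>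
            simp only [List.replicate_succ, List.cons_append, List.cons.injEq, true_and] at hb
            rw [iha b hb]
      have hab := key a b h
      subst hab
      rw [ih l' (List.append_cancel_left h)]

end PC70
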